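import Pool.Agent.Helper34.Wqo.Twins

set_option autoImplicit false

namespace Pool.Agent.Helper34.Wqo

open SimpleGraph

section

variable {V : Type} (G : SimpleGraph V) (c : V → ZMod 3)

/-- Hypotheses on a `3`-coloured graph: the colouring is proper, the bipartite graph between two
colour classes has no induced `2P₂`, there are no independent transversals, and no two triangles
share an edge. -/
structure Hyp : Prop where
  proper : ∀ u v, G.Adj u v → c u ≠ c v
  chain : ∀ a a' b b', c a = c a' → c b = c b' → G.Adj a b → G.Adj a' b' →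
    G.Adj a b' ∨ G.Adj a' b
  indep : ∀ u v w, c u ≠ c v → c v ≠ c w → c u ≠ c w → G.Adj u v ∨ G.Adj v w ∨ G.Adj u w
  dia : ∀ x x' y z, c x = c x' → G.Adj y z → G.Adj x y → G.Adj x z → G.Adj x' y → G.Adj x' z →
    x = x'

/-- The orientation. -/
def Rel (u v : V) : Prop := (c v = c u + 1 ∧ G.Adj u v) ∨ (c u = c v + 1 ∧ ¬ G.Adj u v)

/-- Transversal triangles. -/
def IsT (t : ZMod 3 → V) : Prop := (∀ i, c (t i) = i) ∧ ∀ i j, i ≠ j → G.Adj (t i) (t j)

/-- The block of a triangle. -/
def InB (t : ZMod 3 → V) (v : V) : Prop := v = t (c v) ∨ ∀ i, i ≠ c v → ¬ G.Adj v (t i)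

def Bef (t : ZMod 3 → V) (v : V) : Prop :=
  v ≠ t (c v) ∧ G.Adj v (t (c v + 1)) ∧ ¬ G.Adj v (t (c v + 2))

def Aft (t : ZMod 3 → V) (v : V) : Prop :=
  v ≠ t (c v) ∧ ¬ G.Adj v (t (c v + 1)) ∧ G.Adj v (t (c v + 2))

end

lemma z3_add1 : ∀ x : ZMod 3, x + 1 ≠ x := by decide
lemma z3_add2 : ∀ x : ZMod 3, x + 2 ≠ x := by decide
lemma z3_add12 : ∀ x : ZMod 3, x + 1 ≠ x + 2 := by decide
lemma z3_cases : ∀ x y : ZMod 3, x ≠ y → y = x + 1 ∨ x = y + 1 := by decide
lemma z3_cases' : ∀ x y : ZMod 3, x ≠ y → y = x + 1 ∨ y = x + 2 := by decide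
lemma z3_112 : ∀ x : ZMod 3, x + 1 + 1 = x + 2 := by decide
lemma z3_121 : ∀ x : ZMod 3, x + 1 + 2 = x := by decide
lemma z3_211 : ∀ x : ZMod 3, x + 2 + 1 = x := by decide
lemma z3_222 : ∀ x : ZMod 3, x + 2 + 2 = x + 1 := by decide
lemma z3_third : ∀ x y : ZMod 3, x ≠ y → ∃ k, k ≠ x ∧ k ≠ y := by decide
lemma z3_uniq : ∀ x z : ZMod 3, z ≠ x → z ≠ x + 1 → z = x + 2 := by decide
lemma z3_uniq' : ∀ x z : ZMod 3, z ≠ x + 1 → z ≠ x → x = z + 1 := by decide
lemma z3_self2 : ∀ x : ZMod 3, x ≠ x + 1 + 1 := by decide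

variable {V : Type} {G : SimpleGraph V} {c : V → ZMod 3}

namespace Hyp

/-- a vertex adjacent to two vertices of a triangle is the third one -/
lemma F0 (h : Hyp G c) {t : ZMod 3 → V} (ht : IsT G c t) {v : V} {i j : ZMod 3} (hij : i ≠ j)
    (h1 : G.Adj v (t i)) (h2 : G.Adj v (t j)) : v = t (c v) := by
  have hi : c v ≠ i := by
    have := h.proper _ _ h1
    rwa [ht.1] at this
  have hj : c v ≠ j := by
    have := h.proper _ _ h2
    rwa [ht.1] at this
  exact h.dia v (t (c v)) (t i) (t j) (ht.1 _).symm (ht.2 _ _ hij) h1 h2 (ht.2 _ _ hi)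
    (ht.2 _ _ hj)

/-- neutral vertices have the same outside neighbours as the triangle vertex -/
lemma N1 (h : Hyp G c) {t : ZMod 3 → V} (ht : IsT G c t) {v w : V}
    (hv : ∀ i, i ≠ c v → ¬ G.Adj v (t i)) (hvw : c v ≠ c w) (hw : w ≠ t (c w)) :
    G.Adj v w ↔ G.Adj (t (c v)) w := by
  constructor
  · intro h1
    rcases h.chain (t (c v)) v (t (c w)) w (ht.1 _) (ht.1 _) (ht.2 _ _ hvw) h1 with h2 | h2
    · exact h2
    · exact absurd h2 (hv _ hvw.symm)
  · intro h1
    obtain ⟨k, hk1, hk2⟩ := z3_third _ _ hvw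
    have h3 : ¬ G.Adj w (t k) := by
      intro h3
      exact hw (h.F0 ht hk1 h3 h1.symm)
    rcases h.indep v w (t k) hvw (by rw [ht.1]; exact hk2.symm) (by rw [ht.1]; exact hk1.symm)
      with h4 | h4 | h4
    · exact h4
    · exact absurd h4 h3
    · exact absurd h4 (hv _ hk1)

/-- there are no neutral vertices in two colours -/
lemma N2 (h : Hyp G c) {t : ZMod 3 → V} (ht : IsT G c t) {v u : V}
    (hv : ∀ i, i ≠ c v → ¬ G.Adj v (t i)) (hu : ∀ i, i ≠ c u → ¬ G.Adj u (t i))
    (hu' : u ≠ t (c u)) (hvu : c v ≠ c u) : False := by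
  obtain ⟨k, hk1, hk2⟩ := z3_third _ _ hvu
  have h1 : G.Adj v u := by
    rcases h.indep v u (t k) hvu (by rw [ht.1]; exact hk2.symm) (by rw [ht.1]; exact hk1.symm)
      with h4 | h4 | h4
    · exact h4
    · exact absurd h4 (hu _ hk2)
    · exact absurd h4 (hv _ hk1)
  rw [h.N1 ht hv hvu hu'] at h1
  exact hu _ hvu h1.symm

lemma tri (h : Hyp G c) {t : ZMod 3 → V} (ht : IsT G c t) (v : V) :
    InB G c t v ∨ Bef G c t v ∨ Aft G c t v := by
  by_cases hv : v = t (c v)
  · exact Or.inl (Or.inl hv)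
  by_cases h1 : G.Adj v (t (c v + 1)) <;> by_cases h2 : G.Adj v (t (c v + 2))
  · exact absurd (h.F0 ht (z3_add12 _) h1 h2) hv
  · exact Or.inr (Or.inl ⟨hv, h1, h2⟩)
  · exact Or.inr (Or.inr ⟨hv, h1, h2⟩)
  · refine Or.inl (Or.inr fun i hi => ?_)
    rcases z3_cases' _ _ hi.symm with rfl | rfl
    · exact h1
    · exact h2

lemma B1 (h : Hyp G c) {t : ZMod 3 → V} (ht : IsT G c t) {a b : V} (ha : Aft G c t a)
    (hb : Bef G c t b) (hab : Rel G c a b) : False := by
  rcases hab with ⟨h1, h2⟩ | ⟨h1, h2⟩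
  · have e1 : c b + 1 = c a + 2 := by rw [h1, z3_112]
    have ha2 := ha.2.2
    have hb1 := hb.2.1
    rw [e1] at hb1
    have ha3 : ¬ G.Adj a (t (c b)) := by rw [h1]; exact ha.2.1
    have hb3 : ¬ G.Adj b (t (c a)) := by
      have := hb.2.2
      rwa [h1, z3_121] at this
    rcases h.chain a (t (c a)) b (t (c b)) (ht.1 _).symm (ht.1 _).symm h2
      (ht.2 _ _ (h.proper _ _ h2)) with h4 | h4
    · exact ha3 h4
    · exact hb3 h4.symm
  · have hne : c a ≠ c b := by rw [h1]; exact z3_add1 _
    have e1 : c b + 2 = c a + 1 := by rw [h1, z3_112]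
    have ha3 := ha.2.1
    have hb3 := hb.2.2
    rw [e1] at hb3
    rcases h.indep a b (t (c a + 1)) hne (by
      rw [ht.1, ← e1]
      exact (z3_add2 _).symm) (by
      rw [ht.1]
      exact (z3_add1 _).symm) with h4 | h4 | h4
    · exact h2 h4
    · exact hb3 h4
    · exact ha3 h4

lemma B2a {t : ZMod 3 → V} (ht : IsT G c t) {i : ZMod 3} {b : V}
    (hb : Bef G c t b) (hab : Rel G c (t i) b) : False := by
  rcases hab with ⟨h1, h2⟩ | ⟨h1, h2⟩
  · rw [ht.1] at h1
    have := hb.2.2
    rw [h1, z3_121] at this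
    exact this h2.symm
  · rw [ht.1] at h1
    rw [h1] at h2
    exact h2 hb.2.1.symm

lemma rel_neutral (h : Hyp G c) {t : ZMod 3 → V} (ht : IsT G c t) {v w : V}
    (hv : ∀ i, i ≠ c v → ¬ G.Adj v (t i)) (hw : w ≠ t (c w)) (hvw : c v ≠ c w) :
    (Rel G c v w ↔ Rel G c (t (c v)) w) ∧ (Rel G c w v ↔ Rel G c w (t (c v))) := by
  have := h.N1 ht hv hvw hw
  unfold Rel
  rw [ht.1, this, SimpleGraph.adj_comm G w v, SimpleGraph.adj_comm G w (t (c v)), this]
  exact ⟨Iff.rfl, Iff.rfl⟩

lemma rel_ne {u v : V} (huv : Rel G c u v) : c u ≠ c v := by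
  rcases huv with ⟨h, -⟩ | ⟨h, -⟩
  · rw [h]; exact (z3_add1 _).symm
  · rw [h]; exact z3_add1 _

lemma B2 (h : Hyp G c) {t : ZMod 3 → V} (ht : IsT G c t) {a b : V} (ha : InB G c t a)
    (hb : Bef G c t b) (hab : Rel G c a b) : False := by
  rcases ha with ha | ha
  · rw [ha] at hab
    exact B2a ht hb hab
  · rw [(h.rel_neutral ht ha hb.1 (rel_ne hab)).1] at hab
    exact B2a ht hb hab

lemma B3a {t : ZMod 3 → V} (ht : IsT G c t) {i : ZMod 3} {a : V}
    (ha : Aft G c t a) (hab : Rel G c a (t i)) : False := by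
  rcases hab with ⟨h1, h2⟩ | ⟨h1, h2⟩
  · rw [ht.1] at h1
    rw [h1] at h2
    exact ha.2.1 h2
  · rw [ht.1] at h1
    have := ha.2.2
    rw [h1, z3_121] at this
    exact h2 this

lemma B3 (h : Hyp G c) {t : ZMod 3 → V} (ht : IsT G c t) {a b : V} (ha : Aft G c t a)
    (hb : InB G c t b) (hab : Rel G c a b) : False := by
  rcases hb with hb | hb
  · rw [hb] at hab
    exact B3a ht ha hab
  · rw [(h.rel_neutral ht hb ha.1 (rel_ne hab).symm).2] at hab
    exact B3a ht ha hab

lemma not_inB_aft {t : ZMod 3 → V} {v : V} (h1 : InB G c t v) (h2 : Aft G c t v) : False := by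
  rcases h1 with h1 | h1
  · exact h2.1 h1
  · exact h1 _ (z3_add2 _) h2.2.2

lemma scc (h : Hyp G c) {t : ZMod 3 → V} (ht : IsT G c t) {v w : V} (hv : InB G c t v)
    (h1 : Relation.ReflTransGen (Rel G c) v w) (h2 : Relation.ReflTransGen (Rel G c) w v) :
    InB G c t w := by
  have h3 : InB G c t w ∨ Aft G c t w := by
    clear h2
    induction h1 with
    | refl => exact Or.inl hv
    | tail _ hbc ih =>
      rcases h.tri ht _ with h4 | h4 | h4
      · exact Or.inl h4
      · rcases ih with ih | ih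
        · exact (h.B2 ht ih h4 hbc).elim
        · exact (h.B1 ht ih h4 hbc).elim
      · exact Or.inr h4
  rcases h3 with h3 | h3
  · exact h3
  · exfalso
    have h4 : Aft G c t v := by
      clear h1 hv
      induction h2 with
      | refl => exact h3
      | tail _ hbc ih =>
        rcases h.tri ht _ with h4 | h4 | h4
        · exact (h.B3 ht ih h4 hbc).elim
        · exact (h.B1 ht ih h4 hbc).elim
        · exact h4
    exact not_inB_aft hv h4

lemma comparable (h : Hyp G c) {u v : V} (huv : c u ≠ c v) : Rel G c u v ∨ Rel G c v u := by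
  rcases z3_cases _ _ huv with h1 | h1
  · by_cases h2 : G.Adj u v
    · exact Or.inl (Or.inl ⟨h1, h2⟩)
    · exact Or.inr (Or.inr ⟨h1, fun h3 => h2 h3.symm⟩)
  · by_cases h2 : G.Adj u v
    · exact Or.inr (Or.inl ⟨h1, h2.symm⟩)
    · exact Or.inl (Or.inr ⟨h1, h2⟩)

lemma rel_of1 {u v : V} (h1 : c v = c u + 1) : Rel G c u v ↔ G.Adj u v := by
  unfold Rel
  constructor
  · rintro (⟨-, h2⟩ | ⟨h2, -⟩)
    · exact h2
    · rw [h1] at h2
      exact absurd h2 (z3_self2 _)
  · exact fun h2 => Or.inl ⟨h1, h2⟩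

lemma rel_of2 {u v : V} (h1 : c v = c u + 1) : Rel G c v u ↔ ¬ G.Adj u v := by
  unfold Rel
  constructor
  · rintro (⟨h2, -⟩ | ⟨-, h2⟩)
    · rw [h1] at h2
      exact absurd h2 (z3_self2 _)
    · exact fun h3 => h2 h3.symm
  · exact fun h2 => Or.inr ⟨h1, fun h3 => h2 h3.symm⟩

lemma asymm {u v : V} (h1 : Rel G c u v) (h2 : Rel G c v u) : False := by
  rcases z3_cases _ _ (rel_ne h1) with h3 | h3
  · rw [rel_of1 h3] at h1
    rw [rel_of2 h3] at h2
    exact h2 h1
  · rw [rel_of2 h3] at h1
    rw [rel_of1 h3] at h2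
    exact h1 h2

lemma four (h : Hyp G c) {a b a' b' : V} (ha : c a = c a') (hb : c b = c b')
    (h1 : Rel G c a b) (h2 : Rel G c b a') (h3 : Rel G c a' b') (h4 : Rel G c b' a) : False := by
  rcases z3_cases _ _ (rel_ne h1) with h5 | h5
  · rw [rel_of1 h5] at h1
    rw [rel_of2 (by rw [h5, ha])] at h2
    rw [rel_of1 (by rw [← hb, h5, ha])] at h3
    rw [rel_of2 (by rw [← hb, h5])] at h4
    rcases h.chain a a' b b' ha hb h1 h3 with h6 | h6
    · exact h4 h6
    · exact h2 h6
  · rw [rel_of2 h5] at h1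
    rw [rel_of1 (by rw [← ha, h5])] at h2
    rw [rel_of2 (by rw [← ha, h5, hb])] at h3
    rw [rel_of1 (by rw [← hb, h5])] at h4
    rcases h.chain a a' b' b ha hb.symm h4.symm h2.symm with h6 | h6
    · exact h1 h6.symm
    · exact h3 h6.symm

lemma three (h : Hyp G c) {x y z : V} (h1 : Rel G c x y) (h2 : Rel G c y z) (h3 : Rel G c z x) :
    ∃ t, IsT G c t ∧ x = t (c x) := by
  have n1 := rel_ne h1
  have n2 := rel_ne h2
  have n3 := rel_ne h3
  rcases z3_cases _ _ n1 with h5 | h5
  · have h6 : c z = c x + 2 := z3_uniq _ _ n3 (by rw [← h5]; exact n2.symm)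
    have h7 : c z = c y + 1 := by rw [h5, h6, z3_112]
    have h8 : c x = c z + 1 := by rw [h6, z3_211]
    rw [rel_of1 h5] at h1
    rw [rel_of1 h7] at h2
    rw [rel_of1 h8] at h3
    have all : ∀ i, i = c x ∨ i = c y ∨ i = c z := by
      intro i
      by_cases i1 : i = c x
      · exact Or.inl i1
      · by_cases i2 : i = c y
        · exact Or.inr (Or.inl i2)
        · right; right
          rw [h6]
          exact z3_uniq _ _ i1 (by rw [← h5]; exact i2)
    obtain ⟨t, tx, ty, tz⟩ : ∃ t : ZMod 3 → V, t (c x) = x ∧ t (c y) = y ∧ t (c z) = z :=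
      ⟨fun i => if i = c x then x else if i = c y then y else z, by simp, by simp [n1.symm],
        by simp [n3, n2.symm]⟩
    refine ⟨t, ⟨?_, ?_⟩, tx.symm⟩
    · intro i
      rcases all i with rfl | rfl | rfl
      · rw [tx]
      · rw [ty]
      · rw [tz]
    · intro i j hij
      rcases all i with rfl | rfl | rfl <;> rcases all j with rfl | rfl | rfl <;>
        simp only [tx, ty, tz]
      · exact absurd rfl hij
      · exact h1
      · exact h3.symm
      · exact h1.symm
      · exact absurd rfl hij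
      · exact h2
      · exact h3
      · exact h2.symm
      · exact absurd rfl hij
  · exfalso
    have h6 : c y = c z + 1 := z3_uniq' _ _ (by rw [← h5]; exact n3) n2.symm
    have h7 : c z = c x + 1 := by
      rw [h5, h6]
      generalize c z = w
      revert w
      decide
    rw [rel_of2 h5] at h1
    rw [rel_of2 h6] at h2
    rw [rel_of2 h7] at h3
    rcases h.indep x y z n1 n2 n3.symm with h8 | h8 | h8
    · exact h1 h8.symm
    · exact h2 h8.symm
    · exact h3 h8

/-- An arc inside a strongly connected component lies in the block of a triangle. -/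
lemma arc_block (h : Hyp G c) {u v : V} (huv : Rel G c u v)
    (hvu : Relation.ReflTransGen (Rel G c) v u) : ∃ t, IsT G c t ∧ InB G c t u := by
  by_contra hno
  push Not at hno
  have hS : ∀ w, Relation.ReflTransGen (Rel G c) u w → Relation.ReflTransGen (Rel G c) w u →
      ∀ t, IsT G c t → w ≠ t (c w) := by
    intro w h1 h2 t ht hw
    exact hno t ht (h.scc ht (Or.inl hw) h2 h1)
  have key : ∀ w, Relation.TransGen (Rel G c) u w → Relation.ReflTransGen (Rel G c) w u →
      (Rel G c u w ∨ ∃ x, Rel G c u x ∧ Rel G c x w) := by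
    intro w hw
    induction hw with
    | single h1 => exact fun _ => Or.inl h1
    | tail hab hbc ih =>
      rename_i b d
      intro hd
      have hbu := Relation.ReflTransGen.head hbc hd
      rcases ih hbu with h1 | ⟨x, h1, h2⟩
      · exact Or.inr ⟨b, h1, hbc⟩
      · have hux : Relation.ReflTransGen (Rel G c) u x := Relation.ReflTransGen.single h1
        have hxu : Relation.ReflTransGen (Rel G c) x u := Relation.ReflTransGen.head h2 hbu
        have hux' := hab.to_reflTransGen
        by_cases c1 : c u = c b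
        · by_cases c2 : c x = c d
          · have c3 : c u ≠ c d := by
              rw [c1]
              exact rel_ne hbc
            rcases h.comparable c3 with h4 | h4
            · exact Or.inl h4
            · exact (h.four c1 c2 h1 h2 hbc h4).elim
          · rcases h.comparable c2 with h4 | h4
            · exact Or.inr ⟨x, h1, h4⟩
            · obtain ⟨t, ht, ht'⟩ := h.three h2 hbc h4
              exact (hS x hux hxu t ht ht').elim
        · rcases h.comparable c1 with h4 | h4
          · exact Or.inr ⟨b, h4, hbc⟩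
          · obtain ⟨t, ht, ht'⟩ := h.three h1 h2 h4
            exact (hS u Relation.ReflTransGen.refl Relation.ReflTransGen.refl t ht ht').elim
  rcases key u (Relation.TransGen.head' huv hvu) Relation.ReflTransGen.refl with h1 | ⟨x, h1, h2⟩
  · exact rel_ne h1 rfl
  · exact asymm h1 h2

end Hyp

/-- The graphs which have a colouring as in `Hyp`. -/
def Acyc : GProp := fun V G => ∃ c : V → ZMod 3, Hyp G c

lemma lwqo_acyc : LWqo Acyc := by
  refine (lwqo_twins (Option (ZMod 3))).word (ZMod 3) ?_
  rintro V _ G ⟨c, h⟩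
  let R := Relation.ReflTransGen (Rel G c)
  let pos : V → ℕ := fun v => {u | R u v}.ncard
  have hpos : ∀ u v, R u v → pos u ≤ pos v := by
    intro u v huv
    exact Set.ncard_le_ncard (fun w hw => Relation.ReflTransGen.trans hw huv) (Set.toFinite _)
  have hpos' : ∀ u v, R u v → pos u = pos v → R v u := by
    intro u v huv he
    have h1 : {w | R w u} = {w | R w v} :=
      Set.eq_of_subset_of_ncard_le (fun w hw => Relation.ReflTransGen.trans hw huv) he.ge
        (Set.toFinite _)
    have h2 : v ∈ {w | R w v} := Relation.ReflTransGen.refl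
    rw [← h1] at h2
    exact h2
  have harc : ∀ u v, Rel G c u v → R u v := fun u v h => Relation.ReflTransGen.single h
  refine ⟨fun a b => b = a + 1, c, pos, ?_, ?_⟩
  · intro u v huv
    constructor
    · intro hadj
      rcases z3_cases _ _ (h.proper _ _ hadj) with h1 | h1
      · exact h1
      · exfalso
        have := hpos _ _ (harc _ _ ((Hyp.rel_of1 h1).2 hadj.symm))
        omega
    · intro h1
      by_contra hadj
      have := hpos _ _ (harc _ _ ((Hyp.rel_of2 h1).2 hadj))
      omega
  · rintro i -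
    classical
    by_cases hm : ∀ u v, pos u = i → pos v = i → c u = c v
    · refine ⟨fun _ => none, fun _ _ => False, ?_⟩
      rintro ⟨u, hu⟩ ⟨v, hv⟩ -
      simp only [comap_adj, iff_false]
      intro hadj
      exact h.proper _ _ hadj (hm u v hu hv)
    · push Not at hm
      obtain ⟨a, b, ha, hb, hab⟩ := hm
      obtain ⟨t, ht, hta, htb⟩ : ∃ t, IsT G c t ∧ InB G c t a ∧ InB G c t b := by
        rcases h.comparable hab with h1 | h1
        · have h2 := hpos' _ _ (harc _ _ h1) (ha.trans hb.symm)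
          obtain ⟨t, ht, hta⟩ := h.arc_block h1 h2
          exact ⟨t, ht, hta, h.scc ht hta (harc _ _ h1) h2⟩
        · have h2 := hpos' _ _ (harc _ _ h1) (hb.trans ha.symm)
          obtain ⟨t, ht, hta⟩ := h.arc_block h1 h2
          exact ⟨t, ht, h.scc ht hta (harc _ _ h1) h2, hta⟩
      have hall' : ∀ w x, pos w = i → pos x = i → InB G c t x → c w ≠ c x → InB G c t w := by
        intro w x hw hx htx hwx
        rcases h.comparable hwx with h1 | h1
        · exact h.scc ht htx (hpos' _ _ (harc _ _ h1) (hw.trans hx.symm)) (harc _ _ h1)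
        · exact h.scc ht htx (harc _ _ h1) (hpos' _ _ (harc _ _ h1) (hx.trans hw.symm))
      have hall : ∀ w, pos w = i → InB G c t w := by
        intro w hw
        by_cases h1 : c w = c a
        · exact hall' w b hw hb htb (by rw [h1]; exact hab)
        · exact hall' w a hw ha hta h1
      refine ⟨fun w => if w.1 = t (c w.1) then some (c w.1) else none,
        fun x y => ∃ i j, x = some i ∧ y = some j ∧ i ≠ j, ?_⟩
      rintro ⟨u, hu⟩ ⟨v, hv⟩ huv
      have huv' : u ≠ v := fun h => huv (Subtype.ext h)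
      have tu := hall u hu
      have tv := hall v hv
      simp only [comap_adj]
      constructor
      · intro hadj
        have hc := h.proper _ _ hadj
        by_cases h1 : u = t (c u)
        · by_cases h2 : v = t (c v)
          · exact ⟨c u, c v, if_pos h1, if_pos h2, hc⟩
          · exfalso
            have h3 := tv.resolve_left h2
            apply h3 _ hc
            rw [← h1]
            exact hadj.symm
        · exfalso
          have h3 := tu.resolve_left h1
          by_cases h2 : v = t (c v)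
          · apply h3 _ hc.symm
            rw [← h2]
            exact hadj
          · exact h.N2 ht h3 (tv.resolve_left h2) h2 hc
      · rintro ⟨i, j, h1, h2, h3⟩
        split_ifs at h1 with h4
        split_ifs at h2 with h5
        have h6 : c u = i := Option.some_injective _ h1
        have h7 : c v = j := Option.some_injective _ h2
        rw [h4, h5]
        exact ht.2 _ _ (by rw [h6, h7]; exact h3)

end Pool.Agent.Helper34.Wqo
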