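import Mathlib

set_option autoImplicit false

namespace Pool.Agent.Helper34.Wqo

open SimpleGraph

/-- A finite graph whose vertices carry labels from `W`. -/
structure LGraph (W : Type) where
  V : Type
  fin : Finite V
  G : SimpleGraph V
  lab : V → W

/-- The labelled induced subgraph relation with respect to the relation `r` on labels. -/
def Le {W : Type} (r : W → W → Prop) (A B : LGraph W) : Prop :=
  ∃ f : A.V → B.V, Function.Injective f ∧ (∀ u v, B.G.Adj (f u) (f v) ↔ A.G.Adj u v) ∧
    ∀ v, r (A.lab v) (B.lab (f v))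

/-- Properties of graphs. -/
abbrev GProp := ∀ V : Type, SimpleGraph V → Prop

/-- The finite graphs with the property `P` are well-quasi-ordered by the labelled induced
subgraph relation. -/
def LWqo (P : GProp) : Prop :=
  ∀ (W : Type) (r : W → W → Prop), IsPreorder W r → WellQuasiOrdered r →
    {A : LGraph W | P A.V A.G}.PartiallyWellOrderedOn (Le r)

lemma le_refl' {W : Type} {r : W → W → Prop} (hr : IsPreorder W r) (A : LGraph W) : Le r A A :=
  ⟨id, Function.injective_id, fun _ _ => Iff.rfl, fun _ => refl_of r _⟩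

lemma le_trans' {W : Type} {r : W → W → Prop} (hr : IsPreorder W r) {A B C : LGraph W}
    (h1 : Le r A B) (h2 : Le r B C) : Le r A C := by
  obtain ⟨f, hf, hf1, hf2⟩ := h1
  obtain ⟨g, hg, hg1, hg2⟩ := h2
  exact ⟨g ∘ f, hg.comp hf, fun u v => (hg1 _ _).trans (hf1 _ _),
    fun v => trans_of r (hf2 v) (hg2 _)⟩

lemma isPreorder_le {W : Type} {r : W → W → Prop} (hr : IsPreorder W r) :
    IsPreorder (LGraph W) (Le r) where
  refl := le_refl' hr
  trans _ _ _ := le_trans' hr

lemma LWqo.mono {P Q : GProp} (hP : LWqo P)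
    (h : ∀ (V : Type) [Finite V] (G : SimpleGraph V), Q V G → P V G) : LWqo Q := by
  intro W r hr hw
  have := hP W r hr hw
  rw [Set.partiallyWellOrderedOn_iff_exists_lt] at this ⊢
  intro f hf
  refine this f fun n => ?_
  have := (f n).fin
  exact h _ _ (hf n)

lemma LWqo.or {P Q : GProp} (hP : LWqo P) (hQ : LWqo Q) : LWqo (fun V G => P V G ∨ Q V G) := by
  intro W r hr hw
  exact (hP W r hr hw).union (hQ W r hr hw)

lemma sub_get {α β : Type*} {R : α → β → Prop} {l₁ : List α} {l₂ : List β}
    (h : List.SublistForall₂ R l₁ l₂) :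
    ∃ g : Fin l₁.length → Fin l₂.length, StrictMono g ∧ ∀ i, R (l₁.get i) (l₂.get (g i)) := by
  obtain ⟨l, h1, h2⟩ := List.sublistForall₂_iff.1 h
  obtain ⟨f, hf⟩ := List.sublist_iff_exists_fin_orderEmbedding_get_eq.1 h2
  have hlen := h1.length_eq
  refine ⟨fun i => f (Fin.cast hlen i), fun a b hab => f.strictMono (by simpa using hab), ?_⟩
  intro i
  rw [← hf]
  have := (List.forall₂_iff_get.1 h1).2 i.1 i.2 (by rw [← hlen]; exact i.2)
  exact this

/-- The graphs with at most one vertex. -/
lemma lwqo_single : LWqo (fun V _ => ∀ u v : V, u = v) := by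
  intro W r hr hw
  rw [Set.partiallyWellOrderedOn_iff_exists_lt]
  intro f hf
  by_cases hne : ∃ i j, i < j ∧ IsEmpty (f i).V
  · obtain ⟨i, j, hij, he⟩ := hne
    exact ⟨i, j, hij, fun v => he.elim v, fun v => he.elim v, fun v => he.elim v,
      fun v => he.elim v⟩
  · push Not at hne
    have hv : ∀ i, Nonempty (f i).V := fun i => hne i (i + 1) (Nat.lt_succ_self i)
    let v : ∀ i, (f i).V := fun i => (hv i).some
    obtain ⟨i, j, hij, h⟩ := hw (fun i => (f i).lab (v i))
    refine ⟨i, j, hij, fun _ => v j, fun a b _ => hf i a b, fun a b => ?_, fun a => ?_⟩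
    · rw [hf i a b]
      simp
    · rw [hf i a (v i)]
      exact h

/-- The labelled graph induced on a fibre of `pos`, with refined labels. -/
def fibre {W T : Type} (A : LGraph W) (D : T → T → Prop) (τ : A.V → T) (pos : A.V → ℕ) (i : ℕ) :
    LGraph (W × (T × (T → T → Prop))) where
  V := {v // pos v = i}
  fin := by have := A.fin; infer_instance
  G := A.G.comap Subtype.val
  lab := fun v => (A.lab v.1, (τ v.1, D))

lemma word_le {W T : Type} {r : W → W → Prop} (A B : LGraph W)
    (D : T → T → Prop) (τ : A.V → T) (pos : A.V → ℕ)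
    (D' : T → T → Prop) (τ' : B.V → T) (pos' : B.V → ℕ)
    (hA : ∀ u v, pos u < pos v → (A.G.Adj u v ↔ D (τ u) (τ v)))
    (hB : ∀ u v, pos' u < pos' v → (B.G.Adj u v ↔ D' (τ' u) (τ' v)))
    (g : ℕ → ℕ) (N : ℕ) (hN : ∀ v, pos v < N) (hg : ∀ i j, i < j → j < N → g i < g j)
    (h : ∀ i, i < N → Le (fun a b : W × (T × (T → T → Prop)) => r a.1 b.1 ∧ a.2 = b.2)
      (fibre A D τ pos i) (fibre B D' τ' pos' (g i))) : Le r A B := by
  choose f hf hf1 hf2 using h
  let φ : A.V → B.V := fun v => (f (pos v) (hN v) ⟨v, rfl⟩).1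
  have key : ∀ v : A.V, pos' (φ v) = g (pos v) :=
    fun v => (f (pos v) (hN v) ⟨v, rfl⟩).2
  have hginj : ∀ i j, i < N → j < N → g i = g j → i = j := by
    intro i j hi hj hij
    rcases lt_trichotomy i j with h | h | h
    · exact absurd hij (hg i j h hj).ne
    · exact h
    · exact absurd hij (hg j i h hi).ne'
  have gen : ∀ (i : ℕ) (hi : i < N) (v : A.V) (hv : pos v = i),
      φ v = (f i hi ⟨v, hv⟩).1 := by
    intro i hi v hv
    subst hv
    rfl
  have lab : ∀ v : A.V, r (A.lab v) (B.lab (φ v)) ∧ τ v = τ' (φ v) ∧ D = D' := by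
    intro v
    have := hf2 (pos v) (hN v) ⟨v, rfl⟩
    refine ⟨this.1, ?_, ?_⟩
    · exact congrArg Prod.fst this.2
    · exact congrArg Prod.snd this.2
  refine ⟨φ, ?_, ?_, fun v => (lab v).1⟩
  · intro u v huv
    have h1 : pos u = pos v := by
      apply hginj _ _ (hN u) (hN v)
      rw [← key u, ← key v, huv]
    rw [gen (pos v) (hN v) u h1] at huv
    have h2 := hf (pos v) (hN v) (Subtype.ext huv)
    exact congrArg Subtype.val h2
  · intro u v
    rcases lt_trichotomy (pos u) (pos v) with h | h | h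
    · rw [hA u v h, hB _ _ (by rw [key, key]; exact hg _ _ h (hN v)), ← (lab u).2.1,
        ← (lab v).2.1, (lab u).2.2]
    · rw [gen (pos v) (hN v) u h]
      exact hf1 (pos v) (hN v) ⟨u, h⟩ ⟨v, rfl⟩
    · rw [SimpleGraph.adj_comm, SimpleGraph.adj_comm A.G, hA v u h,
        hB _ _ (by rw [key, key]; exact hg _ _ h (hN u)), ← (lab u).2.1,
        ← (lab v).2.1, (lab u).2.2]

/-- Closure under words: if the vertices of each graph with the property `Q` can be placed at
positions such that the graphs induced on the positions have the property `P`, and the adjacency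
of vertices at different positions is determined by their order and by their types (from a fixed
finite set), then the property `Q` inherits labelled well-quasi-ordering from `P`. -/
theorem LWqo.word {P Q : GProp} (hP : LWqo P) (T : Type) [Finite T]
    (hQ : ∀ (V : Type) [Finite V] (G : SimpleGraph V), Q V G →
      ∃ (D : T → T → Prop) (τ : V → T) (pos : V → ℕ),
        (∀ u v, pos u < pos v → (G.Adj u v ↔ D (τ u) (τ v))) ∧
        (∀ i, (∃ v, pos v = i) → P {v // pos v = i} (G.comap Subtype.val))) : LWqo Q := by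
  intro W r hr hw
  rw [Set.partiallyWellOrderedOn_iff_exists_lt]
  intro F hF
  have hQ' : ∀ n, ∃ (D : T → T → Prop) (τ : (F n).V → T) (pos : (F n).V → ℕ),
        (∀ u v, pos u < pos v → ((F n).G.Adj u v ↔ D (τ u) (τ v))) ∧
        (∀ i, (∃ v, pos v = i) → P {v // pos v = i} ((F n).G.comap Subtype.val)) := by
    intro n
    have := (F n).fin
    exact hQ _ _ (hF n)
  choose D τ pos h1 h2 using hQ'
  have hN : ∀ n, ∃ N, ∀ v, pos n v < N := by
    intro n
    have := (F n).fin
    obtain ⟨N, hN⟩ := (Set.finite_range (pos n)).bddAbove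
    exact ⟨N + 1, fun v => Nat.lt_succ_of_le (hN ⟨v, rfl⟩)⟩
  choose N hN using hN
  let r' : W × (T × (T → T → Prop)) → W × (T × (T → T → Prop)) → Prop :=
    fun a b => r a.1 b.1 ∧ a.2 = b.2
  have hr' : IsPreorder _ r' :=
    { refl := fun a => ⟨refl_of r _, rfl⟩
      trans := fun a b c h h' => ⟨trans_of r h.1 h'.1, h.2.trans h'.2⟩ }
  have hw' : WellQuasiOrdered r' := by
    have h3 : WellQuasiOrdered (fun a b : T × (T → T → Prop) => a = b) :=
      Finite.wellQuasiOrdered _
    exact hw.prod h3
  have hfib : ({A : LGraph (W × (T × (T → T → Prop))) | P A.V A.G} ∪ {A | IsEmpty A.V}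
      ).PartiallyWellOrderedOn (Le r') := by
    refine (hP _ r' hr' hw').union ?_
    rw [Set.partiallyWellOrderedOn_iff_exists_lt]
    intro f hf
    exact ⟨0, 1, Nat.zero_lt_one, fun v => (hf 0).elim v, fun v => (hf 0).elim v,
      fun v => (hf 0).elim v, fun v => (hf 0).elim v⟩
  have := isPreorder_le hr'
  have hig := Set.PartiallyWellOrderedOn.partiallyWellOrderedOn_sublistForall₂ (Le r') hfib
  rw [Set.partiallyWellOrderedOn_iff_exists_lt] at hig
  obtain ⟨i, j, hij, hsub⟩ := hig
    (fun n => (List.range (N n)).map (fun i => fibre (F n) (D n) (τ n) (pos n) i)) (by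
      intro n x hx
      obtain ⟨i, -, rfl⟩ := List.mem_map.1 hx
      by_cases he : ∃ v, pos n v = i
      · exact Or.inl (h2 n i he)
      · right
        exact ⟨fun v => he ⟨v.1, v.2⟩⟩)
  refine ⟨i, j, hij, ?_⟩
  obtain ⟨g, hg, hg'⟩ := sub_get hsub
  have hlen : ∀ n, ((List.range (N n)).map
      (fun i => fibre (F n) (D n) (τ n) (pos n) i)).length = N n := by
    intro n
    simp
  refine word_le (F i) (F j) (D i) (τ i) (pos i) (D j) (τ j) (pos j) (h1 i) (h1 j)
    (fun k => if hk : k < N i then (g ⟨k, by rw [hlen]; exact hk⟩).1 else 0) (N i) (hN i) ?_ ?_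
  · intro a b hab hb
    rw [dif_pos hb, dif_pos (hab.trans hb)]
    exact hg (by simpa using hab)
  · intro k hk
    have := hg' ⟨k, by rw [hlen]; exact hk⟩
    rw [dif_pos hk]
    simpa using this

end Pool.Agent.Helper34.Wqo
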