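import Pool.Agent.Helper34.Wqo.Q1e

set_option autoImplicit false

namespace Pool.Agent.Helper34.Wqo

open SimpleGraph

/-- A vertex joined to a disjoint union of cliques. -/
def Wind : GProp := fun V G => ∃ k : V, (∀ v, v ≠ k → G.Adj k v) ∧
  ∀ a b c, a ≠ k → b ≠ k → c ≠ k → G.Adj a b → G.Adj b c → a ≠ c → G.Adj a c

lemma lwqo_wind : LWqo Wind := by
  refine (lwqo_twins Unit).word Prop ?_
  rintro V _ G ⟨k, h1, h2⟩
  classical
  obtain ⟨e, he⟩ := exists_injective_nat (Set V)
  let cl : V → Set V := fun v => {u | u ≠ k ∧ (u = v ∨ G.Adj u v)}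
  have hcl : ∀ u v, u ≠ k → v ≠ k → u ≠ v → (G.Adj u v ↔ cl u = cl v) := by
    intro u v hu hv huv
    constructor
    · intro hadj
      ext x
      constructor
      · rintro ⟨hx, rfl | hxu⟩
        · exact ⟨hx, Or.inr hadj⟩
        · refine ⟨hx, ?_⟩
          by_cases hxv : x = v
          · exact Or.inl hxv
          · exact Or.inr (h2 x u v hx hu hv hxu hadj hxv)
      · rintro ⟨hx, rfl | hxv⟩
        · exact ⟨hx, Or.inr hadj.symm⟩
        · refine ⟨hx, ?_⟩
          by_cases hxu : x = u
          · exact Or.inl hxu
          · exact Or.inr (h2 x v u hx hv hu hxv hadj.symm hxu)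
    · intro h
      have : u ∈ cl u := ⟨hu, Or.inl rfl⟩
      rw [h] at this
      exact this.2.resolve_left huv
  obtain ⟨pos, hp1, hp2⟩ : ∃ pos : V → ℕ, pos k = 0 ∧ ∀ v, v ≠ k → pos v = e (cl v) + 1 :=
    ⟨fun v => if v = k then 0 else e (cl v) + 1, if_pos rfl, fun v hv => if_neg hv⟩
  refine ⟨fun a _ => a, fun v => v = k, pos, ?_, ?_⟩
  · intro u v huv
    have hv : v ≠ k := by
      rintro rfl
      rw [hp1] at huv
      omega
    constructor
    · intro hadj
      by_contra hu
      have huv' : u ≠ v := hadj.ne
      rw [hcl u v hu hv huv'] at hadj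
      rw [hp2 u hu, hp2 v hv, hadj] at huv
      omega
    · rintro rfl
      exact h1 v hv
  · rintro i -
    refine ⟨fun _ => (), fun _ _ => True, ?_⟩
    rintro ⟨u, hu⟩ ⟨v, hv⟩ huv
    have huv' : u ≠ v := fun h => huv (Subtype.ext h)
    simp only [comap_adj, iff_true]
    by_cases huk : u = k
    · subst huk
      exact h1 v huv'.symm
    · by_cases hvk : v = k
      · subst hvk
        exact (h1 u huv').symm
      · rw [hcl u v huk hvk huv']
        rw [hp2 u huk] at hu
        rw [hp2 v hvk] at hv
        exact he (by omega)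

/-- diamond-free graphs without induced `P₄` -/
def Cog : GProp := fun V G => DiamondFree V G ∧ NoP4 V G

/-- in a `P₄`-free graph, two vertices of a component are at distance at most two -/
lemma dist2 {V : Type} {G : SimpleGraph V} (hp : NoP4 V G) {u v : V} (h : G.Reachable u v) :
    u = v ∨ G.Adj u v ∨ ∃ w, G.Adj u w ∧ G.Adj w v := by
  rw [SimpleGraph.reachable_iff_reflTransGen] at h
  induction h with
  | refl => exact Or.inl rfl
  | @tail v v' _ hbc ih =>
    rcases ih with rfl | h1 | ⟨w, h1, h2⟩
    · exact Or.inr (Or.inl hbc)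
    · exact Or.inr (Or.inr ⟨_, h1, hbc⟩)
    · by_cases h3 : G.Adj u v
      · exact Or.inr (Or.inr ⟨_, h3, hbc⟩)
      by_cases h4 : G.Adj w v'
      · exact Or.inr (Or.inr ⟨_, h1, h4⟩)
      by_cases h5 : G.Adj u v'
      · exact Or.inr (Or.inl h5)
      exact (hp u w v v' h1 h2 hbc h3 h5 h4).elim

lemma lwqo_cog : LWqo Cog := by
  refine ((lwqo_twins Prop).or lwqo_wind).word Unit ?_
  rintro V _ G ⟨hd, hp⟩
  obtain ⟨e, he⟩ := exists_injective_nat G.ConnectedComponent
  refine ⟨fun _ _ => False, fun _ => (), fun v => e (G.connectedComponentMk v), ?_, ?_⟩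
  · intro u v huv
    simp only [iff_false]
    intro hadj
    simp only [SimpleGraph.ConnectedComponent.sound hadj.reachable] at huv
    exact lt_irrefl _ huv
  · rintro i ⟨u0, hu0⟩
    have hr : ∀ u v, e (G.connectedComponentMk u) = i → e (G.connectedComponentMk v) = i →
        G.Reachable u v := by
      intro u v hu hv
      exact SimpleGraph.ConnectedComponent.exact (he (hu.trans hv.symm))
    have hr' : ∀ u v, e (G.connectedComponentMk u) = i → G.Adj u v →
        e (G.connectedComponentMk v) = i := by
      intro u v hu huv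
      rw [← SimpleGraph.ConnectedComponent.sound huv.reachable]
      exact hu
    by_cases ht : ∃ a b c, e (G.connectedComponentMk a) = i ∧ G.Adj a b ∧ G.Adj b c ∧ G.Adj a c
    · obtain ⟨a, b, c, ha, hab, hbc, hac⟩ := ht
      obtain ⟨K, hK0, hK, hm⟩ := exists_maxclique G {a, b, c} (by
        intro u hu v hv huv
        simp only [Set.mem_insert_iff, Set.mem_singleton_iff] at hu hv
        rcases hu with rfl | rfl | rfl <;> rcases hv with rfl | rfl | rfl
        · exact absurd rfl huv
        · exact hab
        · exact hac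
        · exact hab.symm
        · exact absurd rfl huv
        · exact hbc
        · exact hac.symm
        · exact hbc.symm
        · exact absurd rfl huv)
      have haK : a ∈ K := hK0 (by simp)
      have hbK : b ∈ K := hK0 (by simp)
      have hcK : c ∈ K := hK0 (by simp)
      have hat : ∀ v, v ∉ K → ∀ k ∈ K, ∀ k' ∈ K, G.Adj v k → G.Adj v k' → k = k' :=
        fun v hv k hk k' hk' => hd.atmost hK hm hv hk hk'
      have c1 : ∀ u, e (G.connectedComponentMk u) = i → u ∉ K → ∃ k ∈ K, G.Adj u k := by
        intro u hu huK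
        by_contra hcon
        push Not at hcon
        rcases dist2 hp (hr u a hu ha) with h | h | ⟨w, h1, h2⟩
        · exact huK (h ▸ haK)
        · exact hcon a haK h
        · have hwK : w ∉ K := fun h => hcon w h h1
          have hwb : ¬ G.Adj w b := fun h => hab.ne (hat w hwK a haK b hbK h2 h)
          exact hp u w a b h1 h2 hab (hcon a haK) (hcon b hbK) hwb
      have c2 : ∀ u v, u ∉ K → v ∉ K → ∀ k ∈ K, ∀ k' ∈ K, G.Adj u k → G.Adj v k' → k = k' := by
        intro u v hu hv k hk k' hk' huk hvk
        by_contra hne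
        have huk' : ¬ G.Adj u k' := fun h => hne (hat u hu k hk k' hk' huk h)
        have hvk' : ¬ G.Adj v k := fun h => hne (hat v hv k hk k' hk' h hvk)
        by_cases huv : G.Adj u v
        · obtain ⟨k3, hk3, n1, n2⟩ : ∃ k3 ∈ K, k3 ≠ k ∧ k3 ≠ k' := by
            by_contra hcon
            push Not at hcon
            have e1 := hcon a haK
            have e2 := hcon b hbK
            have e3 := hcon c hcK
            by_cases f1 : a = k
            · have f2 : b ≠ k := fun h => hab.ne (f1.trans h.symm)
              have f3 : c ≠ k := fun h => hac.ne (f1.trans h.symm)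
              exact hbc.ne ((e2 f2).trans (e3 f3).symm)
            · by_cases f2 : b = k
              · have f3 : c ≠ k := fun h => hbc.ne (f2.trans h.symm)
                exact hac.ne ((e1 f1).trans (e3 f3).symm)
              · exact hab.ne ((e1 f1).trans (e2 f2).symm)
          exact hp v u k k3 huv.symm huk (hK k hk k3 hk3 n1.symm) hvk'
            (fun h => n2.symm (hat v hv k' hk' k3 hk3 hvk h))
            (fun h => n1.symm (hat u hu k hk k3 hk3 huk h))
        · exact hp u k k' v huk (hK k hk k' hk' hne) hvk.symm huk' huv (fun h => hvk' h.symm)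
      by_cases hF : ∀ u, e (G.connectedComponentMk u) = i → u ∈ K
      · left
        refine ⟨fun _ => True, fun _ _ => True, ?_⟩
        rintro ⟨u, hu⟩ ⟨v, hv⟩ huv
        simp only [comap_adj, iff_true]
        exact hK u (hF u hu) v (hF v hv) (fun h => huv (Subtype.ext h))
      · right
        push Not at hF
        obtain ⟨u, hu, huK⟩ := hF
        obtain ⟨k, hk, huk⟩ := c1 u hu huK
        have hki : e (G.connectedComponentMk k) = i := hr' u k hu huk
        have hall : ∀ v, e (G.connectedComponentMk v) = i → v ≠ k → G.Adj k v := by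
          intro v hv hvk
          by_cases hvK : v ∈ K
          · exact hK k hk v hvK hvk.symm
          · obtain ⟨k', hk', hvk'⟩ := c1 v hv hvK
            rw [c2 u v huK hvK k hk k' hk' huk hvk']
            exact hvk'.symm
        refine ⟨⟨k, hki⟩, ?_, ?_⟩
        · rintro ⟨v, hv⟩ hvk
          exact hall v hv (fun h => hvk (Subtype.ext h))
        · rintro ⟨x, hx⟩ ⟨y, hy⟩ ⟨z, hz⟩ nx ny nz hxy hyz hxz
          exact nbr_trans hd (hall x hx (fun h => nx (Subtype.ext h)))
            (hall y hy (fun h => ny (Subtype.ext h))) (hall z hz (fun h => nz (Subtype.ext h)))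
            hxy hyz (fun h => hxz (Subtype.ext h))
    · left
      push Not at ht
      have tf : ∀ a b c, e (G.connectedComponentMk a) = i → G.Adj a b → G.Adj b c →
          ¬ G.Adj a c := ht
      have d1 : ∀ a b, e (G.connectedComponentMk b) = i → G.Adj u0 a → ¬ G.Adj u0 b → b ≠ u0 →
          G.Adj a b := by
        intro a b hb ha hb' hne
        rcases dist2 hp (hr u0 b hu0 hb) with h | h | ⟨w, h1, h2⟩
        · exact absurd h.symm hne
        · exact absurd h hb'
        · by_contra hab
          exact hp a u0 w b ha.symm h1 h2 (fun h => tf u0 a w hu0 ha h h1) hab hb'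
      refine ⟨fun v => G.Adj u0 v.1, fun x y => ¬ (x ↔ y), ?_⟩
      rintro ⟨a, ha⟩ ⟨b, hb⟩ hab
      have hab' : a ≠ b := fun h => hab (Subtype.ext h)
      simp only [comap_adj]
      by_cases h1 : G.Adj u0 a <;> by_cases h2 : G.Adj u0 b
      · simp only [h1, h2, not_true_eq_false, iff_false]
        exact fun h => tf u0 a b hu0 h1 h h2
      · simp only [h1, h2, iff_false, not_true_eq_false, not_false_eq_true, iff_true]
        by_cases h3 : b = u0
        · rw [h3]; exact h1.symm
        · exact d1 a b hb h1 h2 h3
      · simp only [h1, h2, iff_true, not_false_eq_true]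
        by_cases h3 : a = u0
        · rw [h3]; exact h2
        · exact (d1 b a ha h2 h1 h3).symm
      · simp only [h1, h2, not_true_eq_false, iff_false]
        intro hadj
        by_cases h3 : a = u0
        · rw [h3] at hadj
          exact h2 hadj
        · rcases dist2 hp (hr u0 a hu0 ha) with h | h | ⟨w, h4, h5⟩
          · exact h3 h.symm
          · exact h1 h
          · by_cases h6 : b = u0
            · rw [h6] at hadj
              exact h1 hadj.symm
            · exact tf w a b (hr' u0 w hu0 h4) h5 hadj (d1 w b hb h4 h2 h6)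

end Pool.Agent.Helper34.Wqo
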