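import Pool.Agent.Helper34.Wqo.Tri

set_option autoImplicit false

namespace Pool.Agent.Helper34.Wqo

open SimpleGraph

/-- No induced diamond. -/
def DiamondFree : GProp := fun _ G => ∀ a b x y, G.Adj a b → G.Adj x a → G.Adj x b →
  G.Adj y a → G.Adj y b → x ≠ y → G.Adj x y

/-- No induced `P₁ + 2P₂`. -/
def NoP122 : GProp := fun _ G => ∀ a b c d e, G.Adj a b → G.Adj c d → ¬ G.Adj a c →
  ¬ G.Adj a d → ¬ G.Adj b c → ¬ G.Adj b d → ¬ G.Adj e a → ¬ G.Adj e b → ¬ G.Adj e c →
  ¬ G.Adj e d → False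

/-- No induced `P₁ + P₄`. -/
def NoP14 : GProp := fun _ G => ∀ a b c d e, G.Adj a b → G.Adj b c → G.Adj c d →
  ¬ G.Adj a c → ¬ G.Adj a d → ¬ G.Adj b d → ¬ G.Adj e a → ¬ G.Adj e b → ¬ G.Adj e c →
  ¬ G.Adj e d → False

/-- No induced `P₄`. -/
def NoP4 : GProp := fun _ G => ∀ a b c d, G.Adj a b → G.Adj b c → G.Adj c d →
  ¬ G.Adj a c → ¬ G.Adj a d → ¬ G.Adj b d → False

/-- No triangle. -/
def TriFree : GProp := fun _ G => ∀ a b c, G.Adj a b → G.Adj b c → G.Adj a c → False

/-- No five pairwise adjacent vertices. -/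
def NoK5 : GProp := fun V G => ¬ ∃ f : Fin 5 → V, ∀ i j, i ≠ j → G.Adj (f i) (f j)

lemma exists_good {n k : ℕ} (A : Fin n → Fin k → Prop)
    (h : ∀ a i j, A a i → A a j → i = j) (hnk : n < k) : ∃ i, ∀ a, ¬ A a i := by
  by_contra hcon
  push Not at hcon
  choose f hf using hcon
  have hinj : Function.Injective f := by
    intro i j hij
    exact h (f i) i j (hf i) (by rw [hij]; exact hf j)
  have := Fintype.card_le_of_injective f hinj
  simp only [Fintype.card_fin] at this
  omega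

lemma exists_good2 {n k : ℕ} (A : Fin n → Fin k → Prop)
    (h : ∀ a i j, A a i → A a j → i = j) (hnk : n + 1 < k) :
    ∃ i j, i ≠ j ∧ ∀ a, ¬ A a i ∧ ¬ A a j := by
  obtain ⟨i, hi⟩ := exists_good A h (by omega)
  obtain ⟨j, hj⟩ := exists_good (Fin.cons (fun x => x = i) A : Fin (n + 1) → Fin k → Prop) (by
    intro a
    refine Fin.cases ?_ (fun a => ?_) a
    · intro x y hx hy
      simp only [Fin.cons_zero] at hx hy
      rw [hx, hy]
    · intro x y hx hy
      simp only [Fin.cons_succ] at hx hy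
      exact h a x y hx hy) hnk
  refine ⟨i, j, fun hij => ?_, fun a => ⟨hi a, ?_⟩⟩
  · have := hj 0
    simp only [Fin.cons_zero] at this
    exact this hij.symm
  · have := hj a.succ
    simpa only [Fin.cons_succ] using this

/-- Every clique is contained in a maximal clique. -/
lemma exists_maxclique {V : Type} [Finite V] (G : SimpleGraph V) (K0 : Set V)
    (h0 : ∀ u ∈ K0, ∀ v ∈ K0, u ≠ v → G.Adj u v) :
    ∃ K : Set V, K0 ⊆ K ∧ (∀ u ∈ K, ∀ v ∈ K, u ≠ v → G.Adj u v) ∧
      ∀ v, v ∉ K → ∃ k ∈ K, ¬ G.Adj v k := by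
  obtain ⟨K, ⟨hK1, hK2⟩, hK3⟩ := (Set.toFinite {K : Set V | K0 ⊆ K ∧
    ∀ u ∈ K, ∀ v ∈ K, u ≠ v → G.Adj u v}).exists_maximal ⟨K0, subset_rfl, h0⟩
  refine ⟨K, hK1, hK2, ?_⟩
  intro v hv
  by_contra hcon
  push Not at hcon
  have h1 : insert v K ∈ {K : Set V | K0 ⊆ K ∧ ∀ u ∈ K, ∀ v ∈ K, u ≠ v → G.Adj u v} := by
    refine ⟨hK1.trans (Set.subset_insert _ _), ?_⟩
    intro a ha b hb hab
    rcases ha with rfl | ha <;> rcases hb with rfl | hb
    · exact absurd rfl hab
    · exact hcon b hb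
    · exact (hcon a ha).symm
    · exact hK2 a ha b hb hab
  exact hv (hK3 h1 (Set.subset_insert _ _) (Set.mem_insert _ _))

/-- In a diamond-free graph, a vertex outside a maximal clique has at most one neighbour in it. -/
lemma DiamondFree.atmost {V : Type} {G : SimpleGraph V} (hd : DiamondFree V G) {K : Set V}
    (hK : ∀ u ∈ K, ∀ v ∈ K, u ≠ v → G.Adj u v) (hm : ∀ v, v ∉ K → ∃ k ∈ K, ¬ G.Adj v k) {v : V}
    (hv : v ∉ K) {k k' : V} (hk : k ∈ K) (hk' : k' ∈ K) (h1 : G.Adj v k) (h2 : G.Adj v k') :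
    k = k' := by
  by_contra hne
  obtain ⟨m, hmK, hvm⟩ := hm v hv
  have n1 : m ≠ k := by rintro rfl; exact hvm h1
  have n2 : m ≠ k' := by rintro rfl; exact hvm h2
  have n3 : v ≠ m := by rintro rfl; exact hv hmK
  exact hvm (hd k k' v m (hK _ hk _ hk' hne) h1 h2 (hK _ hmK _ hk n1) (hK _ hmK _ hk' n2) n3)

/-- A clique `K` such that outside vertices have at most one neighbour in it, and the adjacency
outside is determined by types. -/
def KH (T0 : Type) : GProp := fun V G => ∃ (K : Set V) (p : V → T0) (D0 : T0 → T0 → Prop),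
  (∀ u ∈ K, ∀ v ∈ K, u ≠ v → G.Adj u v) ∧
  (∀ v, v ∉ K → ∀ k ∈ K, ∀ k' ∈ K, G.Adj v k → G.Adj v k' → k = k') ∧
  ∀ u, u ∉ K → ∀ v, v ∉ K → u ≠ v → (G.Adj u v ↔ D0 (p u) (p v))

lemma lwqo_KH (T0 : Type) [Finite T0] : LWqo (KH T0) := by
  refine (lwqo_twins (Option T0)).word (Option T0) ?_
  rintro V _ G ⟨K, p, D0, hK, h1, h2⟩
  classical
  obtain ⟨e, he⟩ := exists_injective_nat V
  obtain ⟨pos, hp1, hp2, hp3⟩ : ∃ pos : V → ℕ, (∀ k ∈ K, pos k = e k + 1) ∧
      (∀ v, v ∉ K → ∀ k ∈ K, G.Adj v k → pos v = e k + 1) ∧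
      (∀ v, v ∉ K → (∀ k ∈ K, ¬ G.Adj v k) → pos v = 0) := by
    refine ⟨fun v => if v ∈ K then e v + 1 else if h : ∃ k ∈ K, G.Adj v k then e h.choose + 1
      else 0, ?_, ?_, ?_⟩
    · intro k hk
      simp only [if_pos hk]
    · intro v hv k hk hvk
      have h : ∃ k ∈ K, G.Adj v k := ⟨k, hk, hvk⟩
      simp only [if_neg hv, dif_pos h]
      rw [h1 v hv _ h.choose_spec.1 _ hk h.choose_spec.2 hvk]
    · intro v hv hno
      have h : ¬ ∃ k ∈ K, G.Adj v k := by
        rintro ⟨k, hk, hvk⟩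
        exact hno k hk hvk
      simp only [if_neg hv, dif_neg h]
  have hp4 : ∀ v, v ∉ K → ∀ k ∈ K, pos v = pos k → G.Adj v k := by
    intro v hv k hk hvk
    by_cases hno : ∀ k ∈ K, ¬ G.Adj v k
    · rw [hp3 v hv hno, hp1 k hk] at hvk
      omega
    · push Not at hno
      obtain ⟨k', hk', hvk'⟩ := hno
      rw [hp2 v hv k' hk' hvk', hp1 k hk] at hvk
      have : k' = k := he (by omega)
      rwa [← this]
  let τ : V → Option T0 := fun v => if v ∈ K then none else some (p v)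
  have t1 : ∀ v ∈ K, τ v = none := fun v hv => if_pos hv
  have t2 : ∀ v, v ∉ K → τ v = some (p v) := fun v hv => if_neg hv
  refine ⟨fun x y => (x = none ∧ y = none) ∨ ∃ a b, x = some a ∧ y = some b ∧ D0 a b, τ, pos,
    ?_, ?_⟩
  · intro u v huv
    have huv' : u ≠ v := by rintro rfl; exact lt_irrefl _ huv
    by_cases hu : u ∈ K <;> by_cases hv : v ∈ K
    · rw [t1 u hu, t1 v hv]
      simp [hK u hu v hv huv']
    · rw [t1 u hu, t2 v hv]
      simp only [reduceCtorEq, and_false, false_and, exists_false, or_false, iff_false]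
      intro hadj
      have := hp2 v hv u hu hadj.symm
      rw [hp1 u hu] at huv
      omega
    · rw [t2 u hu, t1 v hv]
      simp only [reduceCtorEq, and_false, false_and, exists_false, or_false, iff_false,
        and_true]
      intro hadj
      have := hp2 u hu v hv hadj
      rw [hp1 v hv] at huv
      omega
    · rw [t2 u hu, t2 v hv, h2 u hu v hv huv']
      simp
  · rintro i -
    refine ⟨fun v => τ v.1, fun x y => x = none ∨ y = none ∨ ∃ a b, x = some a ∧ y = some b ∧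
      D0 a b, ?_⟩
    rintro ⟨u, hu⟩ ⟨v, hv⟩ huv
    have huv' : u ≠ v := fun h => huv (Subtype.ext h)
    simp only [comap_adj]
    by_cases huK : u ∈ K <;> by_cases hvK : v ∈ K
    · simp [t1 u huK, t1 v hvK, hK u huK v hvK huv']
    · simp only [t1 u huK, true_or, iff_true]
      exact (hp4 v hvK u huK (hv.trans hu.symm)).symm
    · simp only [t1 v hvK, true_or, or_true, iff_true]
      exact hp4 u huK v hvK (hu.trans hv.symm)
    · rw [t2 u huK, t2 v hvK, h2 u huK v hvK huv']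
      simp

/-- The part `W` is described by types, the rest satisfies `Tri`. -/
def TW (T0 : Type) : GProp := fun V G => ∃ (W : Set V) (c : V → ZMod 3) (τ : V → T0)
    (M : T0 → T0 → Prop) (D : T0 → ZMod 3 → Prop),
  HypTri (G.comap (Subtype.val : {v // v ∉ W} → V)) (fun v => c v.1) ∧
  (∀ u ∈ W, ∀ v ∈ W, u ≠ v → (G.Adj u v ↔ M (τ u) (τ v))) ∧
  (∀ u ∈ W, ∀ v, v ∉ W → (G.Adj u v ↔ D (τ u) (c v)))

lemma lwqo_TW (T0 : Type) [Finite T0] : LWqo (TW T0) := by
  refine ((lwqo_twins T0).or lwqo_tri).word (T0 × ZMod 3) ?_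
  rintro V _ G ⟨W, c, τ, M, D, h1, h2, h3⟩
  classical
  refine ⟨fun a b => D a.1 b.2, fun v => (τ v, c v), fun v => if v ∈ W then 0 else 1, ?_, ?_⟩
  · intro u v huv
    have hu : u ∈ W := by
      by_contra hu
      simp only [if_neg hu] at huv
      split_ifs at huv <;> omega
    have hv : v ∉ W := by
      intro hv
      simp only [if_pos hu, if_pos hv] at huv
      omega
    exact h3 u hu v hv
  · rintro i ⟨w, hw⟩
    by_cases hi : i = 0
    · subst hi
      left
      have key : ∀ v, (if v ∈ W then 0 else 1) = 0 → v ∈ W := by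
        intro v hv
        by_contra h'
        simp [h'] at hv
      refine ⟨fun v => τ v.1, M, ?_⟩
      rintro ⟨u, hu⟩ ⟨v, hv⟩ huv
      exact h2 u (key u hu) v (key v hv) (fun h => huv (Subtype.ext h))
    · right
      refine On.congr Tri G ?_ ⟨_, h1⟩
      intro v
      by_cases hv : v ∈ W
      · simp only [hv, not_true_eq_false, if_true, false_iff]
        exact fun h => hi h.symm
      · simp only [hv, not_false_eq_true, if_false, true_iff]
        by_cases hwW : w ∈ W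
        · simp only [hwW, if_true] at hw
          exact absurd hw.symm hi
        · simp only [hwW, if_false] at hw
          exact hw

end Pool.Agent.Helper34.Wqo
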