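import Pool.Agent.Helper34.Wqo.Free

set_option autoImplicit false

namespace Pool.Agent.Helper34.Wqo

open SimpleGraph

/-- Case 1 for `P₁ + 2P₂`: a `K₅` is present. -/
lemma q1_case1 {V : Type} [Finite V] {G : SimpleGraph V} (hd : DiamondFree V G)
    (hp : NoP122 V G) (h5 : ¬ NoK5 V G) : KH Prop V G := by
  unfold NoK5 at h5
  push Not at h5
  obtain ⟨f, hf⟩ := h5
  obtain ⟨K, hK0, hK, hm⟩ := exists_maxclique G (Set.range f) (by
    rintro _ ⟨i, rfl⟩ _ ⟨j, rfl⟩ hne
    exact hf i j (fun h => hne (by rw [h])))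
  have hfK : ∀ i, f i ∈ K := fun i => hK0 ⟨i, rfl⟩
  have hfi : Function.Injective f := by
    intro i j hij
    by_contra hne
    have := hf i j hne
    rw [hij] at this
    exact G.loopless.irrefl _ this
  have hat : ∀ v, v ∉ K → ∀ k ∈ K, ∀ k' ∈ K, G.Adj v k → G.Adj v k' → k = k' :=
    fun v hv k hk k' hk' => hd.atmost hK hm hv hk hk'
  have F2 : ∀ a b c, a ∉ K → b ∉ K → c ∉ K → ¬ G.Adj a b → ¬ G.Adj a c → ¬ G.Adj b c := by
    intro a b c ha hb hc hab hac hbc
    have hall : ∀ x : Fin 3, (![a, b, c] : Fin 3 → V) x ∉ K := by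
      intro x
      fin_cases x
      · exact ha
      · exact hb
      · exact hc
    obtain ⟨i, j, hij, hgood⟩ := exists_good2 (n := 3) (k := 5)
      (fun x i => G.Adj ((![a, b, c] : Fin 3 → V) x) (f i)) (by
        intro x i j h1 h2
        exact hfi (hat _ (hall x) _ (hfK i) _ (hfK j) h1 h2)) (by norm_num)
    have g0 := hgood 0
    have g1 := hgood 1
    have g2 := hgood 2
    simp only [Matrix.cons_val_zero, Matrix.cons_val_one, Matrix.cons_val_two,
      Matrix.cons_val] at g0 g1 g2
    exact hp b c (f i) (f j) a hbc (hf i j hij) g1.1 g1.2 g2.1 g2.2 hab hac g0.1 g0.2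
  by_cases hcl : ∀ u, u ∉ K → ∀ v, v ∉ K → u ≠ v → G.Adj u v
  · exact ⟨K, fun _ => True, fun _ _ => True, hK, hat, fun u hu v hv huv =>
      ⟨fun _ => trivial, fun _ => hcl u hu v hv huv⟩⟩
  · push Not at hcl
    obtain ⟨a, ha, b, hb, hab, hnab⟩ := hcl
    refine ⟨K, fun v => G.Adj a v, fun x y => ¬ (x ↔ y), hK, hat, ?_⟩
    intro u hu v hv huv
    constructor
    · intro hadj hiff
      by_cases h1 : G.Adj a u
      · have h2 := hiff.1 h1
        have hbu : G.Adj b u := by
          by_contra hbu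
          exact F2 b a u hb ha hu (fun h => hnab h.symm) hbu h1
        have hbv : G.Adj b v := by
          by_contra hbv
          exact F2 b a v hb ha hv (fun h => hnab h.symm) hbv h2
        exact hnab (hd u v a b hadj h1 h2 hbu hbv hab)
      · have h2 : ¬ G.Adj a v := fun h => h1 (hiff.2 h)
        exact F2 a u v ha hu hv h1 h2 hadj
    · intro hne
      by_contra hadj
      by_cases h1 : G.Adj a u
      · by_cases h2 : G.Adj a v
        · exact hne ⟨fun _ => h2, fun _ => h1⟩
        · exact F2 v a u hv ha hu (fun h => h2 h.symm) (fun h => hadj h.symm) h1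
      · by_cases h2 : G.Adj a v
        · exact F2 u a v hu ha hv (fun h => h1 h.symm) hadj h2
        · exact hne ⟨fun h => absurd h h1, fun h => absurd h h2⟩

/-- If non-adjacency is transitive on `W` then it is described by classes. -/
lemma classes {V : Type} [Finite V] (G : SimpleGraph V) (W : Set V)
    (htr : ∀ a ∈ W, ∀ b ∈ W, ∀ c ∈ W, ¬ G.Adj a b → ¬ G.Adj a c → ¬ G.Adj b c)
    (h5 : NoK5 V G) : ∃ g : V → Fin 5, ∀ u ∈ W, ∀ v ∈ W, g u = g v ↔ ¬ G.Adj u v := by
  classical
  let s : Setoid W :=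
    { r := fun a b => ¬ G.Adj a.1 b.1
      iseqv := ⟨fun a => G.loopless.irrefl _, fun h h' => h h'.symm,
        fun {a b c} h1 h2 => htr b.1 b.2 a.1 a.2 c.1 c.2 (fun h => h1 h.symm) h2⟩ }
  have hq : Nonempty (Quotient s ↪ Fin 4) := by
    have : Fintype (Quotient s) := Fintype.ofFinite _
    rw [Function.Embedding.nonempty_iff_card_le, Fintype.card_fin]
    by_contra hlt
    push Not at hlt
    have h6 : Nonempty (Fin 5 ↪ Quotient s) := by
      rw [Function.Embedding.nonempty_iff_card_le, Fintype.card_fin]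
      exact hlt
    obtain ⟨e⟩ := h6
    apply h5
    refine ⟨fun i => ((e i).out : W).1, fun i j hij => ?_⟩
    by_contra hadj
    have h7 : (e i).out ≈ (e j).out := hadj
    have h8 := Quotient.sound h7
    rw [Quotient.out_eq, Quotient.out_eq] at h8
    exact hij (e.injective h8)
  obtain ⟨e⟩ := hq
  refine ⟨fun v => if hv : v ∈ W then (e (Quotient.mk s ⟨v, hv⟩)).castSucc else 0, ?_⟩
  intro u hu v hv
  simp only [dif_pos hu, dif_pos hv]
  constructor
  · intro h
    have h1 := e.injective (Fin.castSucc_injective _ h)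
    exact Quotient.exact h1
  · intro h
    have h1 : Quotient.mk s ⟨u, hu⟩ = Quotient.mk s ⟨v, hv⟩ := Quotient.sound h
    rw [h1]

end Pool.Agent.Helper34.Wqo
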