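import Pool.Agent.Helper34.Wqo.Q1a

set_option autoImplicit false

namespace Pool.Agent.Helper34.Wqo

open SimpleGraph

lemma ncard_le_of_noK5 {V : Type} [Finite V] {G : SimpleGraph V} (h5 : NoK5 V G) {X : Set V}
    {x : V} (hx : ∀ v ∈ X, G.Adj x v) (hX : ∀ u ∈ X, ∀ v ∈ X, u ≠ v → G.Adj u v) :
    X.ncard ≤ 3 := by
  by_contra hcon
  push Not at hcon
  have : Nonempty (Fin 4 ↪ X) := by
    have hf := Fintype.ofFinite X
    rw [Function.Embedding.nonempty_iff_card_le, Fintype.card_fin, ← Nat.card_eq_fintype_card]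
    exact hcon
  obtain ⟨e⟩ := this
  apply h5
  refine ⟨Fin.cons x (fun i => (e i).1), ?_⟩
  intro i j
  refine Fin.cases ?_ (fun i => ?_) i <;> refine Fin.cases ?_ (fun j => ?_) j
  · intro h
    exact absurd rfl h
  · intro _
    simp only [Fin.cons_zero, Fin.cons_succ]
    exact hx _ (e j).2
  · intro _
    simp only [Fin.cons_zero, Fin.cons_succ]
    exact (hx _ (e i).2).symm
  · intro h
    simp only [Fin.cons_succ]
    refine hX _ (e i).2 _ (e j).2 (fun h' => h ?_)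
    rw [e.injective (Subtype.ext h')]

/-- the private neighbours of `t i` -/
def PN {V : Type} (G : SimpleGraph V) (t : ZMod 3 → V) (i : ZMod 3) : Set V :=
  {v | G.Adj v (t i) ∧ ∀ j, j ≠ i → ¬ G.Adj v (t j)}

/-- the vertices without neighbours in the triangle -/
def WN {V : Type} (G : SimpleGraph V) (t : ZMod 3 → V) : Set V := {v | ∀ j, ¬ G.Adj v (t j)}

/-- the common neighbours -/
def CN {V : Type} (G : SimpleGraph V) (t : ZMod 3 → V) : Set V := {v | ∀ j, G.Adj v (t j)}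

lemma exists_triangle {V : Type} {G : SimpleGraph V} (h : ¬ TriFree V G) :
    ∃ t : ZMod 3 → V, ∀ i j, i ≠ j → G.Adj (t i) (t j) := by
  unfold TriFree at h
  push Not at h
  obtain ⟨a, b, c, h1, h2, h3, -⟩ := h
  refine ⟨(![a, b, c] : Fin 3 → V), ?_⟩
  intro i j hij
  change Fin 3 at i j
  fin_cases i <;> fin_cases j
  · exact absurd rfl hij
  · exact h1
  · exact h3
  · exact h1.symm
  · exact absurd rfl hij
  · exact h2
  · exact h3.symm
  · exact h2.symm
  · exact absurd rfl hij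

lemma z3_two (i : ZMod 3) : ∃ j k : ZMod 3, j ≠ i ∧ k ≠ i ∧ j ≠ k := by
  revert i
  decide

lemma z3_all : ∀ i j k l : ZMod 3, i ≠ j → i ≠ k → j ≠ k → l = i ∨ l = j ∨ l = k := by
  intro i j k l
  revert i j k
  revert l
  decide

section tri

variable {V : Type} {G : SimpleGraph V} {t : ZMod 3 → V}
  (ht : ∀ i j, i ≠ j → G.Adj (t i) (t j)) (hd : DiamondFree V G)

include ht

lemma t_notin_PN (i j : ZMod 3) : t i ∉ PN G t j := by
  rintro ⟨h1, h2⟩
  have hij : i ≠ j := by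
    rintro rfl
    exact G.loopless.irrefl _ h1
  obtain ⟨k, hk1, hk2⟩ := z3_third _ _ hij
  exact h2 k hk2 (ht _ _ hk1.symm)

include hd

lemma tri_cases (v : V) : (∃ i, v = t i) ∨ v ∈ CN G t ∨ v ∈ WN G t ∨ ∃ i, v ∈ PN G t i := by
  by_cases h0 : ∃ i, v = t i
  · exact Or.inl h0
  right
  push Not at h0
  by_cases hW : v ∈ WN G t
  · exact Or.inr (Or.inl hW)
  simp only [WN, Set.mem_ofPred_eq, not_forall, not_not] at hW
  obtain ⟨i, hi⟩ := hW
  by_cases hP : v ∈ PN G t i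
  · exact Or.inr (Or.inr ⟨i, hP⟩)
  left
  have : ∃ j, j ≠ i ∧ G.Adj v (t j) := by
    by_contra hcon
    push Not at hcon
    exact hP ⟨hi, hcon⟩
  obtain ⟨j, hji, hj⟩ := this
  intro k
  by_cases hki : k = i
  · rw [hki]; exact hi
  by_cases hkj : k = j
  · rw [hkj]; exact hj
  exact hd (t i) (t j) v (t k) (ht _ _ hji.symm) hi hj (ht _ _ hki) (ht _ _ hkj) (h0 k)

omit ht in
/-- neighbourhoods contain no induced `P₃` -/
lemma nbr_trans {x a b c : V} (ha : G.Adj x a) (hb : G.Adj x b) (hc : G.Adj x c)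
    (hab : G.Adj a b) (hbc : G.Adj b c) (hac : a ≠ c) : G.Adj a c :=
  hd b x a c hb.symm hab ha.symm hbc.symm hc.symm hac

lemma CN_ncard [Finite V] (h5 : NoK5 V G) : (CN G t).ncard ≤ 1 := by
  rw [Set.ncard_le_one (Set.toFinite _)]
  intro a ha b hb
  by_contra hab
  have h1 : G.Adj a b := by
    have h01 : (0 : ZMod 3) ≠ 1 := by decide
    exact hd (t 0) (t 1) a b (ht _ _ h01) (ha 0) (ha 1) (hb 0) (hb 1) hab
  apply h5
  refine ⟨![t 0, t 1, t 2, a, b], ?_⟩
  have h01 : G.Adj (t 0) (t 1) := ht _ _ (by decide)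
  have h02 : G.Adj (t 0) (t 2) := ht _ _ (by decide)
  have h12 : G.Adj (t 1) (t 2) := ht _ _ (by decide)
  have a0 := ha 0
  have a1 := ha 1
  have a2 := ha 2
  have b0 := hb 0
  have b1 := hb 1
  have b2 := hb 2
  intro i j hij
  fin_cases i <;> fin_cases j <;>
    first
    | exact absurd rfl hij
    | assumption
    | (apply SimpleGraph.Adj.symm; assumption)

end tri

/-- Case 2 for `P₁ + 2P₂`: a triangle but no `K₅`. -/
lemma q1_case2 {V : Type} [Finite V] {G : SimpleGraph V} (hd : DiamondFree V G)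
    (hp : NoP122 V G) (h5 : NoK5 V G) (h3 : ¬ TriFree V G) :
    Del 13 (TW (Fin 5 × (ZMod 3 → Prop))) V G := by
  obtain ⟨t, ht⟩ := exists_triangle h3
  have htr : ∀ i, ∀ a b c, (a ∈ PN G t i ∨ a ∈ WN G t) → (b ∈ PN G t i ∨ b ∈ WN G t) →
      (c ∈ PN G t i ∨ c ∈ WN G t) → ¬ G.Adj a b → ¬ G.Adj a c → ¬ G.Adj b c := by
    intro i a b c ha hb hc hab hac hbc
    obtain ⟨j, k, hj, hk, hjk⟩ := z3_two i
    have key : ∀ x, (x ∈ PN G t i ∨ x ∈ WN G t) → ¬ G.Adj x (t j) ∧ ¬ G.Adj x (t k) := by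
      rintro x (hx | hx)
      · exact ⟨hx.2 j hj, hx.2 k hk⟩
      · exact ⟨hx j, hx k⟩
    exact hp b c (t j) (t k) a hbc (ht _ _ hjk) (key b hb).1 (key b hb).2 (key c hc).1
      (key c hc).2 hab hac (key a ha).1 (key a ha).2
  have hcl : ∀ i, (∃ u ∈ PN G t i, ∃ v ∈ PN G t i, G.Adj u v) →
      ∀ a ∈ PN G t i, ∀ b ∈ PN G t i, a ≠ b → G.Adj a b := by
    rintro i ⟨u, hu, v, hv, huv⟩ a ha b hb hab
    by_contra hn
    have T := fun x y z hx hy hz => htr i x y z (Or.inl hx) (Or.inl hy) (Or.inl hz)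
    have P := fun x y z (hx : x ∈ PN G t i) (hy : y ∈ PN G t i) (hz : z ∈ PN G t i) =>
      nbr_trans hd hx.1.symm hy.1.symm hz.1.symm
    by_cases hua : G.Adj u a
    · by_cases hub : G.Adj u b
      · exact hn (P a u b ha hu hb hua.symm hub hab)
      · exact T b u a hb hu ha (fun h => hub h.symm) (fun h => hn h.symm) hua
    · have hva : G.Adj v a := by
        by_contra hva
        exact T a u v ha hu hv (fun h => hua h.symm) (fun h => hva h.symm) huv
      have hub : ¬ G.Adj u b := by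
        intro hub
        exact T a u b ha hu hb (fun h => hua h.symm) hn hub
      have hvb : G.Adj v b := by
        by_contra hvb
        exact T b u v hb hu hv (fun h => hub h.symm) (fun h => hvb h.symm) huv
      exact hn (P a v b ha hv hb hva.symm hvb hab)
  let bad : ZMod 3 → Prop := fun i => ∃ u ∈ PN G t i, ∃ v ∈ PN G t i, G.Adj u v
  let Y : ZMod 3 → Set V := fun i => {v | v ∈ PN G t i ∧ bad i}
  have hY : ∀ i, (Y i).ncard ≤ 3 := by
    intro i
    by_cases hb : bad i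
    · refine ncard_le_of_noK5 h5 (x := t i) (fun v hv => hv.1.1.symm) ?_
      intro u hu v hv huv
      exact hcl i hb u hu.1 v hv.1 huv
    · have : Y i = ∅ := by
        ext v
        simp only [Y, Set.mem_ofPred_eq, Set.mem_empty_iff_false, iff_false]
        exact fun h => hb h.2
      rw [this]
      simp
  let S : Set V := Set.range t ∪ CN G t ∪ Y 0 ∪ Y 1 ∪ Y 2
  have hS : S.ncard ≤ 13 := by
    have h1 : (Set.range t).ncard ≤ 3 := by
      rw [← Set.image_univ]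
      refine (Set.ncard_image_le (Set.toFinite _)).trans ?_
      rw [Set.ncard_univ]
      simp
    have h2 := CN_ncard ht hd h5
    have h3 := hY 0
    have h4 := hY 1
    have h6 := hY 2
    have e1 := Set.ncard_union_le (Set.range t ∪ CN G t ∪ Y 0 ∪ Y 1) (Y 2)
    have e2 := Set.ncard_union_le (Set.range t ∪ CN G t ∪ Y 0) (Y 1)
    have e3 := Set.ncard_union_le (Set.range t ∪ CN G t) (Y 0)
    have e4 := Set.ncard_union_le (Set.range t) (CN G t)
    show (Set.range t ∪ CN G t ∪ Y 0 ∪ Y 1 ∪ Y 2).ncard ≤ 13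
    omega
  have hSY : ∀ i, Y i ⊆ S := by
    intro i v hv
    rcases z3_all 0 1 2 i (by decide) (by decide) (by decide) with rfl | rfl | rfl
    · exact Or.inl (Or.inl (Or.inr hv))
    · exact Or.inl (Or.inr hv)
    · exact Or.inr hv
  classical
  let c : V → ZMod 3 := fun v => if G.Adj v (t 0) then 0 else if G.Adj v (t 1) then 1 else 2
  have hcP : ∀ v i, v ∈ PN G t i → c v = i := by
    intro v i hv
    rcases z3_all 0 1 2 i (by decide) (by decide) (by decide) with rfl | rfl | rfl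
    · exact if_pos hv.1
    · have h0 := hv.2 0 (by decide)
      show (if G.Adj v (t 0) then (0 : ZMod 3) else if G.Adj v (t 1) then 1 else 2) = 1
      rw [if_neg h0, if_pos hv.1]
    · have h0 := hv.2 0 (by decide)
      have h1 := hv.2 1 (by decide)
      show (if G.Adj v (t 0) then (0 : ZMod 3) else if G.Adj v (t 1) then 1 else 2) = 2
      rw [if_neg h0, if_neg h1]
  have hcol : ∀ v, v ∉ S → v ∉ WN G t → v ∈ PN G t (c v) ∧ ¬ bad (c v) := by
    intro v hv hvW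
    rcases tri_cases ht hd v with ⟨i, rfl⟩ | h | h | ⟨i, h⟩
    · exact absurd (Or.inl (Or.inl (Or.inl (Or.inl ⟨i, rfl⟩)))) hv
    · exact absurd (Or.inl (Or.inl (Or.inl (Or.inr h)))) hv
    · exact absurd h hvW
    · rw [hcP v i h]
      exact ⟨h, fun hb => hv (hSY i ⟨h, hb⟩)⟩
  obtain ⟨g, hg⟩ := classes G (WN G t) (fun a ha b hb c hc =>
    htr 0 a b c (Or.inr ha) (Or.inr hb) (Or.inr hc)) h5
  refine ⟨S, hS, {v | v.1 ∈ WN G t}, fun v => c v.1,
    fun v => (g v.1, fun i => ∃ x, x ∈ PN G t i ∧ x ∉ S ∧ G.Adj v.1 x),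
    fun a b => a.1 ≠ b.1, fun a i => a.2 i, ?_, ?_, ?_⟩
  · have indep : ∀ u v, u ∉ S → u ∉ WN G t → v ∉ S → v ∉ WN G t → c u = c v → ¬ G.Adj u v := by
      intro u v hu hu' hv hv' huv hadj
      have h1 := hcol u hu hu'
      have h2 := hcol v hv hv'
      rw [← huv] at h2
      exact h1.2 ⟨u, h1.1, v, h2.1, hadj⟩
    refine ⟨?_, ?_, ?_, ?_⟩
    · rintro ⟨⟨u, hu⟩, hu'⟩ ⟨⟨v, hv⟩, hv'⟩ hadj hc
      exact indep u v hu hu' hv hv' hc hadj
    · rintro ⟨⟨a, ha⟩, ha'⟩ ⟨⟨a1, ha1⟩, ha1'⟩ ⟨⟨b, hb⟩, hb'⟩ ⟨⟨b1, hb1⟩, hb1'⟩ h1 h2 h3 h4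
      simp only [comap_adj] at h1 h2 h3 h4 ⊢
      by_contra hcon
      push Not at hcon
      have hab : c a ≠ c b := fun h => indep a b ha ha' hb hb' h h3
      obtain ⟨k, hk1, hk2⟩ := z3_third _ _ hab
      have pa := (hcol a ha ha').1
      have pa1 := (hcol a1 ha1 ha1').1
      have pb := (hcol b hb hb').1
      have pb1 := (hcol b1 hb1 hb1').1
      rw [← h1] at pa1
      rw [← h2] at pb1
      exact hp a b a1 b1 (t k) h3 h4 (indep _ _ ha ha' ha1 ha1' h1) hcon.1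
        (fun h => hcon.2 h.symm) (indep _ _ hb hb' hb1 hb1' h2)
        (fun h => pa.2 k hk1 h.symm) (fun h => pb.2 k hk2 h.symm)
        (fun h => pa1.2 k hk1 h.symm) (fun h => pb1.2 k hk2 h.symm)
    · rintro ⟨⟨y, hy⟩, hy'⟩ ⟨⟨z, hz⟩, hz'⟩ ⟨⟨x, hx⟩, hx'⟩ ⟨⟨x1, hx1⟩, hx1'⟩ h1 h2 h3 h4 h6 h7 h8
      simp only [comap_adj] at h1 h2 h3 h4 h6 h7 h8 ⊢
      by_contra hcon
      push Not at hcon
      have py := (hcol y hy hy').1
      have pz := (hcol z hz hz').1
      have px := (hcol x hx hx').1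
      have px1 := (hcol x1 hx1 hx1').1
      rw [← h4] at px1
      exact hp y x z (t (c z)) x1 h7 pz.1 h6 (py.2 _ h1.symm) (fun h => h8 h.symm)
        (px.2 _ h3.symm) (fun h => hcon.1 h.symm)
        (indep _ _ hx1 hx1' hx hx' h4.symm) (fun h => hcon.2 h.symm) (px1.2 _ h3.symm)
    · rintro ⟨⟨x, hx⟩, hx'⟩ ⟨⟨x1, hx1⟩, hx1'⟩ ⟨⟨y, hy⟩, hy'⟩ ⟨⟨z, hz⟩, hz'⟩ h1 h2 h3 h4 h6 h7
      simp only [comap_adj] at h1 h2 h3 h4 h6 h7
      apply Subtype.ext
      apply Subtype.ext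
      by_contra hne
      exact indep _ _ hx hx' hx1 hx1' h1 (hd y z x x1 h2 h3 h4 h6 h7 hne)
  · rintro ⟨u, hu⟩ hu' ⟨v, hv⟩ hv' huv
    have := hg u hu' v hv'
    simp only [comap_adj]
    rw [Ne, this, not_not]
  · rintro ⟨u, hu⟩ hu' ⟨v, hv⟩ hv'
    have h1 := hcol v hv hv'
    simp only [comap_adj]
    constructor
    · intro hadj
      exact ⟨v, h1.1, hv, hadj⟩
    · rintro ⟨x, hx, hxS, hux⟩
      by_contra hn
      have hxv : ¬ G.Adj v x := fun h => h1.2 ⟨v, h1.1, x, hx, h⟩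
      exact htr (c v) v u x (Or.inl h1.1) (Or.inr hu') (Or.inl hx) (fun h => hn h.symm) hxv hux

end Pool.Agent.Helper34.Wqo
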