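import Pool.Agent.Helper34.Wqo.Q1b

set_option autoImplicit false

namespace Pool.Agent.Helper34.Wqo

open SimpleGraph

lemma iff_ab {a b c : Prop} (h1 : ¬ (a ↔ b)) (h2 : ¬ (b ↔ c)) : a ↔ c := by tauto

/-- Bipartite graphs without induced `P₁ + 2P₂`. -/
def Bip122 : GProp := fun V G => ∃ p : V → Prop, (∀ u v, G.Adj u v → ¬ (p u ↔ p v)) ∧ NoP122 V G

/-- Bipartite chain graphs. -/
def Chain : GProp := fun V G => ∃ p : V → Prop, (∀ u v, G.Adj u v → ¬ (p u ↔ p v)) ∧
  ∀ a b a' b', (p a ↔ p a') → (p b ↔ p b') → G.Adj a b → G.Adj a' b' → G.Adj a b' ∨ G.Adj a' b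

lemma lwqo_chain : LWqo Chain := by
  refine lwqo_tri.mono ?_
  rintro V _ G ⟨p, h1, h2⟩
  classical
  have hc : ∀ u v, (if p u then (0 : ZMod 3) else 1) = (if p v then (0 : ZMod 3) else 1) ↔
      (p u ↔ p v) := by
    intro u v
    by_cases hu : p u <;> by_cases hv : p v <;> simp [hu, hv]
  have h3 : ∀ u v w, ¬ (p u ↔ p v) → ¬ (p v ↔ p w) → ¬ (p u ↔ p w) → False := by
    intro u v w
    tauto
  refine ⟨fun v => if p v then 0 else 1, ?_, ?_, ?_, ?_⟩
  · intro u v huv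
    rw [Ne, hc]
    exact h1 u v huv
  · intro a a' b b' ha hb hab hab'
    rw [hc] at ha hb
    exact h2 a b a' b' ha hb hab hab'
  · intro y z x x' e1 e2 e3
    rw [Ne, hc] at e1 e2 e3
    exact (h3 y z x e1 (fun h => e3 h.symm) (fun h => e2 h.symm)).elim
  · intro x x' y z _ hyz hxy hxz
    exact (h3 y z x (h1 _ _ hyz) (fun h => h1 _ _ hxz h.symm) (fun h => h1 _ _ hxy h.symm)).elim

lemma lwqo_bip122 : LWqo Bip122 := by
  refine lwqo_chain.word Prop ?_
  rintro V _ G ⟨p, hp, h⟩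
  let B : SimpleGraph V :=
    { Adj := fun u v => ¬ (p u ↔ p v) ∧ ¬ G.Adj u v
      symm := ⟨fun u v h => ⟨fun h' => h.1 h'.symm, fun h' => h.2 h'.symm⟩⟩
      loopless := ⟨fun u h => h.1 Iff.rfl⟩ }
  have hB : ∀ u v, B.Adj u v ↔ ¬ (p u ↔ p v) ∧ ¬ G.Adj u v := fun _ _ => Iff.rfl
  have same : ∀ u v, (p u ↔ p v) → ¬ G.Adj u v := fun u v h1 h2 => hp u v h2 h1
  have R3 : ∀ u v, B.Reachable u v → u = v ∨ B.Adj u v ∨ (∃ w, B.Adj u w ∧ B.Adj w v) ∨
      ∃ w x, B.Adj u w ∧ B.Adj w x ∧ B.Adj x v := by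
    intro u v huv
    rw [SimpleGraph.reachable_iff_reflTransGen] at huv
    induction huv with
    | refl => exact Or.inl rfl
    | @tail v v' _ hbc ih =>
      rcases ih with rfl | h1 | ⟨w, h1, h2⟩ | ⟨w, x, h1, h2, h3⟩
      · exact Or.inr (Or.inl hbc)
      · exact Or.inr (Or.inr (Or.inl ⟨_, h1, hbc⟩))
      · exact Or.inr (Or.inr (Or.inr ⟨_, _, h1, h2, hbc⟩))
      · have puw := h1.1
        have pwx := h2.1
        have pxv := h3.1
        have pvv := hbc.1
        have e1 := iff_ab puw pwx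
        have e2 := iff_ab pwx pxv
        have e3 := iff_ab pxv pvv
        by_cases h4 : G.Adj u v
        · by_cases h5 : G.Adj v' w
          · exfalso
            refine h u v v' w x h4 h5 (same _ _ (e1.trans e3)) h1.2 hbc.2 (same _ _ e2.symm)
              (same _ _ e1.symm) h3.2 (same _ _ e3) (fun h => h2.2 h.symm)
          · exact Or.inr (Or.inr (Or.inl ⟨w, h1, fun h => pvv (e2.symm.trans h),
              fun h => h5 h.symm⟩))
        · exact Or.inr (Or.inr (Or.inl ⟨v, ⟨fun h => pxv (e1.symm.trans h), h4⟩, hbc⟩))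
  have R2 : ∀ u v, B.Reachable u v → (p u ↔ p v) → u ≠ v → ∃ w, B.Adj u w ∧ B.Adj w v := by
    intro u v huv hpuv hne
    rcases R3 u v huv with h1 | h1 | h1 | ⟨w, x, h1, h2, h3⟩
    · exact absurd h1 hne
    · exact absurd hpuv h1.1
    · exact h1
    · exfalso
      exact h1.1 (hpuv.trans (iff_ab h2.1 h3.1).symm)
  obtain ⟨e, he⟩ := exists_injective_nat B.ConnectedComponent
  refine ⟨fun a b => ¬ (a ↔ b), p, fun v => e (B.connectedComponentMk v), ?_, ?_⟩
  · intro u v huv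
    constructor
    · exact hp u v
    · intro h1
      by_contra h2
      have h3 : B.Reachable u v := (show B.Adj u v from ⟨h1, h2⟩).reachable
      have h4 : B.connectedComponentMk u = B.connectedComponentMk v :=
        SimpleGraph.ConnectedComponent.sound h3
      simp only [h4] at huv
      exact lt_irrefl _ huv
  · rintro i -
    have hr : ∀ u v, e (B.connectedComponentMk u) = i → e (B.connectedComponentMk v) = i →
        B.Reachable u v := by
      intro u v hu hv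
      exact SimpleGraph.ConnectedComponent.exact (he (hu.trans hv.symm))
    refine ⟨fun v => p v.1, fun u v h1 => hp _ _ h1, ?_⟩
    rintro ⟨a, ha⟩ ⟨b, hb⟩ ⟨a', ha'⟩ ⟨b', hb'⟩ h1 h2 h3 h4
    simp only [comap_adj] at h1 h2 h3 h4 ⊢
    by_contra hcon
    push Not at hcon
    have hne : a ≠ a' := by
      rintro rfl
      exact hcon.2 h3
    obtain ⟨w, hw1, hw2⟩ := R2 a a' (hr a a' ha ha') h1 hne
    have p1 := hw1.1
    have p2 := hw2.1
    have p3 := hp _ _ h3
    have p4 := hp _ _ h4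
    exact h a b a' b' w h3 h4 (same _ _ h1) hcon.1 (fun h => hcon.2 h.symm) (same _ _ h2)
      (fun h => hw1.2 h.symm) (same _ _ (iff_ab (fun h => p1 h.symm) p3)) hw2.2
      (same _ _ (iff_ab p2 p4))

/-- The existence of an induced `C₆`. -/
def HasC6 : GProp := fun V G => ∃ P Q : ZMod 3 → V, (∀ i j, G.Adj (P i) (Q j) ↔ i ≠ j) ∧
  (∀ i j, ¬ G.Adj (P i) (P j)) ∧ ∀ i j, ¬ G.Adj (Q i) (Q j)

/-- Case 3 for `P₁ + 2P₂`: no triangle but an induced `C₆`. -/
lemma q1_case3 {V : Type} {G : SimpleGraph V} (hp : NoP122 V G) (h3 : TriFree V G)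
    (h6 : HasC6 V G) : Bip122 V G := by
  obtain ⟨P, Q, hPQ, hP, hQ⟩ := h6
  have two : ∀ A B : ZMod 3 → Prop, (∀ i j, i ≠ j → A i ∨ A j ∨ B i ∨ B j) →
      (∀ i j, i ≠ j → A i → B j → False) →
      (∃ i j, i ≠ j ∧ A i ∧ A j) ∨ (∃ i j, i ≠ j ∧ B i ∧ B j) := by
    intro A B h1 h2
    by_cases h : ∃ i, A i
    · obtain ⟨i, hi⟩ := h
      obtain ⟨j, k, hj, hk, hjk⟩ := z3_two i
      rcases h1 j k hjk with h | h | h | h
      · exact Or.inl ⟨i, j, hj.symm, hi, h⟩
      · exact Or.inl ⟨i, k, hk.symm, hi, h⟩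
      · exact (h2 i j hj.symm hi h).elim
      · exact (h2 i k hk.symm hi h).elim
    · push Not at h
      have h' : ∀ i j, i ≠ j → B i ∨ B j := by
        intro i j hij
        rcases h1 i j hij with h3 | h3 | h3 | h3
        · exact absurd h3 (h i)
        · exact absurd h3 (h j)
        · exact Or.inl h3
        · exact Or.inr h3
      right
      rcases h' 0 1 (by decide) with h3 | h3
      · rcases h' 1 2 (by decide) with h4 | h4
        · exact ⟨0, 1, by decide, h3, h4⟩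
        · exact ⟨0, 2, by decide, h3, h4⟩
      · rcases h' 0 2 (by decide) with h4 | h4
        · exact ⟨0, 1, by decide, h4, h3⟩
        · exact ⟨1, 2, by decide, h3, h4⟩
  have share : ∀ i j k l : ZMod 3, i ≠ j → k ≠ l → i = k ∨ i = l ∨ j = k ∨ j = l := by
    intro i j k l
    revert i j
    revert k l
    decide
  have cov : ∀ v, (∃ i j, i ≠ j ∧ G.Adj v (P i) ∧ G.Adj v (P j)) ∨
      (∃ i j, i ≠ j ∧ G.Adj v (Q i) ∧ G.Adj v (Q j)) := by
    intro v
    refine two (fun i => G.Adj v (P i)) (fun i => G.Adj v (Q i)) ?_ ?_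
    · intro i j hij
      by_contra hcon
      push Not at hcon
      obtain ⟨h1, h2, h4, h5⟩ := hcon
      exact hp (P i) (Q j) (P j) (Q i) v ((hPQ _ _).2 hij) ((hPQ _ _).2 hij.symm) (hP _ _)
        (fun h => (hPQ _ _).1 h rfl) (fun h => (hPQ _ _).1 h.symm rfl) (hQ _ _) h1 h5 h2 h4
    · intro i j hij h1 h2
      exact h3 v (P i) (Q j) h1 ((hPQ _ _).2 hij) h2
  refine ⟨fun v => ∃ i j, i ≠ j ∧ G.Adj v (Q i) ∧ G.Adj v (Q j), ?_, hp⟩
  have hh : ∀ (R : ZMod 3 → V) u v, G.Adj u v → (∃ i j, i ≠ j ∧ G.Adj u (R i) ∧ G.Adj u (R j)) →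
      (∃ i j, i ≠ j ∧ G.Adj v (R i) ∧ G.Adj v (R j)) → False := by
    rintro R u v huv ⟨i, j, hij, h1, h2⟩ ⟨k, l, hkl, h4, h5⟩
    rcases share i j k l hij hkl with rfl | rfl | rfl | rfl
    · exact h3 u v (R i) huv h4 h1
    · exact h3 u v (R i) huv h5 h1
    · exact h3 u v (R j) huv h4 h2
    · exact h3 u v (R j) huv h5 h2
  intro u v huv hiff
  by_cases hu : ∃ i j, i ≠ j ∧ G.Adj u (Q i) ∧ G.Adj u (Q j)
  · exact hh Q u v huv hu (hiff.1 hu)
  · have hv : ¬ ∃ i j, i ≠ j ∧ G.Adj v (Q i) ∧ G.Adj v (Q j) := fun h => hu (hiff.2 h)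
    exact hh P u v huv ((cov u).resolve_right hu) ((cov v).resolve_right hv)

end Pool.Agent.Helper34.Wqo
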