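import Pool.Agent.Helper34.Wqo.Q1c

set_option autoImplicit false

namespace Pool.Agent.Helper34.Wqo

open SimpleGraph

/-- The non-neighbourhood of a non-isolated vertex is bipartite, with at most one non-trivial
component. -/
lemma split {V : Type} [Finite V] {G : SimpleGraph V} (hp : NoP122 V G) (h3 : TriFree V G)
    {v w : V} (hvw : G.Adj v w) (R : Set V) (hR : ∀ u, u ∈ R ↔ u ≠ v ∧ ¬ G.Adj v u) :
    ∃ R1 R2 : Set V, R1 ⊆ R ∧ R2 ⊆ R ∧ (∀ u ∈ R1, u ∉ R2) ∧
      (∀ u ∈ R1, ∀ x ∈ R1, ¬ G.Adj u x) ∧ (∀ u ∈ R2, ∀ x ∈ R2, ¬ G.Adj u x) ∧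
      (∀ u ∈ R, u ∉ R1 → u ∉ R2 → ∀ x ∈ R, ¬ G.Adj u x) ∧
      ((R1 = ∅ ∧ R2 = ∅) ∨ ∃ r1 ∈ R1, ∃ r2 ∈ R2, (∀ x ∈ R2, G.Adj r1 x) ∧ ∀ x ∈ R1, G.Adj r2 x) := by
  have hvR : ∀ u ∈ R, ¬ G.Adj v u := fun u hu => ((hR u).1 hu).2
  have h22 : ∀ a ∈ R, ∀ b ∈ R, ∀ c ∈ R, ∀ d ∈ R, G.Adj a b → G.Adj c d → ¬ G.Adj a c →
      ¬ G.Adj a d → ¬ G.Adj b c → ¬ G.Adj b d → False := by
    intro a ha b hb c hc d hd h1 h2 h4 h5 h6 h7
    exact hp a b c d v h1 h2 h4 h5 h6 h7 (hvR a ha) (hvR b hb) (hvR c hc) (hvR d hd)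
  by_cases hE : ∀ a ∈ R, ∀ b ∈ R, ¬ G.Adj a b
  · exact ⟨∅, ∅, Set.empty_subset _, Set.empty_subset _, fun u hu => hu.elim,
      fun u hu => hu.elim, fun u hu => hu.elim, fun u hu _ _ x hx => hE u hu x hx,
      Or.inl ⟨rfl, rfl⟩⟩
  push Not at hE
  obtain ⟨a0, ha0, b0, hb0, hab0⟩ := hE
  let N : V → Set V := fun a => {x | x ∈ R ∧ G.Adj a x}
  obtain ⟨a, ha, hamax⟩ := Set.exists_max_image R (fun a => (N a).ncard) (Set.toFinite _)
    ⟨a0, ha0⟩
  have hNa : (N a).Nonempty := by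
    have h1 := hamax a0 ha0
    have h2 : 0 < (N a0).ncard := (Set.ncard_pos (Set.toFinite _)).2 ⟨b0, hb0, hab0⟩
    exact (Set.ncard_pos (Set.toFinite _)).1 (h2.trans_le h1)
  have c1 : ∀ c ∈ R, ∀ d ∈ R, c ∉ N a → d ∉ N a → ¬ G.Adj c d := by
    intro c hc d hd hca hda hcd
    have hac : ¬ G.Adj a c := fun h => hca ⟨hc, h⟩
    have had : ¬ G.Adj a d := fun h => hda ⟨hd, h⟩
    have hb : ∀ b ∈ N a, G.Adj b c ∨ G.Adj b d := by
      intro b hb
      by_contra hcon
      push Not at hcon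
      exact h22 a ha b hb.1 c hc d hd hb.2 hcd hac had hcon.1 hcon.2
    have key : ∀ x ∈ R, ∀ y ∈ R, G.Adj x y → y ∉ N a → ∃ b ∈ N a, ¬ G.Adj b x := by
      intro x hx y hy hxy hya
      by_contra hcon
      push Not at hcon
      have h1 : insert y (N a) ⊆ N x := by
        rintro z (rfl | hz)
        · exact ⟨hy, hxy⟩
        · exact ⟨hz.1, (hcon z hz).symm⟩
      have h2 := Set.ncard_le_ncard h1 (Set.toFinite _)
      rw [Set.ncard_insert_of_notMem hya (Set.toFinite _)] at h2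
      have h4 := hamax x hx
      omega
    obtain ⟨b, hbN, hbc⟩ := key c hc d hd hcd hda
    obtain ⟨b', hbN', hbd'⟩ := key d hd c hc hcd.symm hca
    have hbd : G.Adj b d := (hb b hbN).resolve_left hbc
    have hbc' : G.Adj b' c := (hb b' hbN').resolve_right hbd'
    have hab := hbN.2
    have hab' := hbN'.2
    have hbb : ¬ G.Adj b b' := fun h => h3 a b b' hab h hab'
    have va := hvR a ha
    have vb := hvR b hbN.1
    have vb' := hvR b' hbN'.1
    have vc := hvR c hc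
    have vd := hvR d hd
    -- the cycle `a, b, d, c, b'`
    by_cases wc : G.Adj w c
    · have wd : ¬ G.Adj w d := fun h => h3 w c d wc hcd h
      have wb' : ¬ G.Adj w b' := fun h => h3 w b' c h hbc' wc
      by_cases wb : G.Adj w b
      · have wa : ¬ G.Adj w a := fun h => h3 w a b h hab wb
        exact hp v w a b' d hvw hab' va vb' wa wb' (fun h => vd h.symm) (fun h => wd h.symm)
          (fun h => had h.symm) (fun h => hbd' h.symm)
      · exact hp v w b d b' hvw hbd vb vd wb wd (fun h => vb' h.symm) (fun h => wb' h.symm)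
          (fun h => hbb h.symm) hbd'
    · by_cases wd : G.Adj w d
      · have wb : ¬ G.Adj w b := fun h => h3 w b d h hbd wd
        by_cases wb' : G.Adj w b'
        · have wa : ¬ G.Adj w a := fun h => h3 w a b' h hab' wb'
          exact hp v w a b c hvw hab va vb wa wb (fun h => vc h.symm) (fun h => wc h.symm)
            (fun h => hac h.symm) (fun h => hbc h.symm)
        · exact hp v w b' c b hvw hbc' vb' vc wb' wc (fun h => vb h.symm) (fun h => wb h.symm)
            hbb hbc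
      · by_cases wa : G.Adj w a
        · have wb : ¬ G.Adj w b := fun h => h3 w a b wa hab h
          have wb' : ¬ G.Adj w b' := fun h => h3 w a b' wa hab' h
          exact hp v w b d b' hvw hbd vb vd wb wd (fun h => vb' h.symm) (fun h => wb' h.symm)
            (fun h => hbb h.symm) hbd'
        · exact hp v w c d a hvw hcd vc vd wc wd (fun h => va h.symm) (fun h => wa h.symm)
            hac had
  obtain ⟨b, hb, hbmax⟩ := Set.exists_max_image (N a) (fun a => (N a).ncard) (Set.toFinite _) hNa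
  have c2 : ∀ x ∈ R, ∀ b' ∈ N a, G.Adj x b' → G.Adj x b := by
    intro x hx b' hb' hxb'
    by_contra hxb
    have hxa : x ∉ N a := fun h => h3 a x b' h.2 hxb' hb'.2
    have : ∃ y ∈ N b, ¬ G.Adj b' y := by
      by_contra hcon
      push Not at hcon
      have h1 : insert x (N b) ⊆ N b' := by
        rintro z (rfl | hz)
        · exact ⟨hx, hxb'.symm⟩
        · exact ⟨hz.1, hcon z hz⟩
      have h2 := Set.ncard_le_ncard h1 (Set.toFinite _)
      rw [Set.ncard_insert_of_notMem (fun h => hxb h.2.symm) (Set.toFinite _)] at h2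
      have h4 := hbmax b' hb'
      omega
    obtain ⟨y, hy, hby⟩ := this
    have hya : y ∉ N a := fun h => h3 a b y hb.2 hy.2 h.2
    exact h22 b' hb'.1 x hx b hb.1 y hy.1 hxb'.symm hy.2 (fun h => h3 a b' b hb'.2 h hb.2) hby hxb
      (c1 x hx y hy.1 hxa hya)
  refine ⟨N b, N a, fun x hx => hx.1, fun x hx => hx.1, ?_, ?_, ?_, ?_, Or.inr ?_⟩
  · intro u hu hu'
    exact h3 a b u hb.2 hu.2 hu'.2
  · intro u hu x hx hux
    exact h3 b u x hu.2 hux hx.2
  · intro u hu x hx hux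
    exact h3 a u x hu.2 hux hx.2
  · intro u hu hub hua x hx hux
    by_cases hxa : x ∈ N a
    · exact hub ⟨hu, (c2 u hu x hxa hux).symm⟩
    · exact c1 u hu x hx hua hxa hux
  · exact ⟨a, ⟨ha, hb.2.symm⟩, b, hb, fun x hx => hx.2, fun x hx => hx.2⟩

end Pool.Agent.Helper34.Wqo
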