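import Pool.Agent.Helper34.Wqo.Q1d

set_option autoImplicit false

namespace Pool.Agent.Helper34.Wqo

open SimpleGraph

lemma Hyp.toTri {V : Type} {G : SimpleGraph V} {c : V → ZMod 3} (h : Hyp G c) : HypTri G c where
  proper := h.proper
  chain := h.chain
  dia := h.dia
  cover := by
    intro y z x x' h1 h2 h3 h4 h5 h6 h7
    rcases h.indep y z x' h1 (by rw [← h4]; exact h3.symm) (by rw [← h4]; exact h2.symm)
      with h8 | h8 | h8
    · exact absurd h8 h5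
    · exact Or.inr h8
    · exact Or.inl h8

lemma mkC6 {V : Type} {G : SimpleGraph V} (h3 : TriFree V G) (h6 : ¬ HasC6 V G)
    {v r y y' ρ ρ' : V} (h1 : G.Adj v y) (h2 : G.Adj v y') (h4 : G.Adj y ρ) (h5 : G.Adj y' ρ')
    (h7 : G.Adj r ρ) (h8 : G.Adj r ρ') (h9 : ¬ G.Adj v ρ) (h10 : ¬ G.Adj v ρ')
    (h11 : ¬ G.Adj v r) : G.Adj y ρ' ∨ G.Adj y' ρ := by
  by_contra hcon
  push Not at hcon
  obtain ⟨c1, c2⟩ := hcon
  have c1' : ¬ G.Adj ρ' y := fun h => c1 h.symm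
  have c2' : ¬ G.Adj ρ y' := fun h => c2 h.symm
  have e1 : ¬ G.Adj ρ ρ' := fun h => h3 r ρ ρ' h7 h h8
  have e1' : ¬ G.Adj ρ' ρ := fun h => e1 h.symm
  have e2 : ¬ G.Adj r y := fun h => h3 r y ρ h h4 h7
  have e2' : ¬ G.Adj y r := fun h => e2 h.symm
  have e3 : ¬ G.Adj r y' := fun h => h3 r y' ρ' h h5 h8
  have e3' : ¬ G.Adj y' r := fun h => e3 h.symm
  have e4 : ¬ G.Adj y' y := fun h => h3 v y' y h2 h h1
  have e4' : ¬ G.Adj y y' := fun h => e4 h.symm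
  have h9' : ¬ G.Adj ρ v := fun h => h9 h.symm
  have h10' : ¬ G.Adj ρ' v := fun h => h10 h.symm
  have h4' := h4.symm
  have h5' := h5.symm
  have h7' := h7.symm
  have h8' := h8.symm
  have irr : ∀ x, ¬ G.Adj x x := fun x => G.loopless.irrefl x
  apply h6
  refine ⟨(![v, ρ, ρ'] : Fin 3 → V), (![r, y', y] : Fin 3 → V), ?_, ?_, ?_⟩
  · intro i j
    change Fin 3 at i j
    fin_cases i <;> fin_cases j
    · exact ⟨fun h => absurd h h11, fun h => absurd rfl h⟩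
    · exact ⟨fun _ => (show (0 : Fin 3) ≠ 1 by decide), fun _ => h2⟩
    · exact ⟨fun _ => (show (0 : Fin 3) ≠ 2 by decide), fun _ => h1⟩
    · exact ⟨fun _ => (show (1 : Fin 3) ≠ 0 by decide), fun _ => h7'⟩
    · exact ⟨fun h => absurd h c2', fun h => absurd rfl h⟩
    · exact ⟨fun _ => (show (1 : Fin 3) ≠ 2 by decide), fun _ => h4'⟩
    · exact ⟨fun _ => (show (2 : Fin 3) ≠ 0 by decide), fun _ => h8'⟩
    · exact ⟨fun _ => (show (2 : Fin 3) ≠ 1 by decide), fun _ => h5'⟩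
    · exact ⟨fun h => absurd h c1', fun h => absurd rfl h⟩
  · intro i j
    change Fin 3 at i j
    fin_cases i <;> fin_cases j
    · exact irr _
    · exact h9
    · exact h10
    · exact h9'
    · exact irr _
    · exact e1
    · exact h10'
    · exact e1'
    · exact irr _
  · intro i j
    change Fin 3 at i j
    fin_cases i <;> fin_cases j
    · exact irr _
    · exact e3
    · exact e2
    · exact e3'
    · exact irr _
    · exact e4
    · exact e2'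
    · exact e4'
    · exact irr _

lemma z3_val : ∀ x : ZMod 3, x = 0 ∨ x = 1 ∨ x = 2 := by decide

lemma z3_perm : ∀ x y z : ZMod 3, x ≠ y → y ≠ z → x ≠ z →
    (x = 0 ∧ y = 1 ∧ z = 2) ∨ (x = 0 ∧ y = 2 ∧ z = 1) ∨ (x = 1 ∧ y = 0 ∧ z = 2) ∨
    (x = 1 ∧ y = 2 ∧ z = 0) ∨ (x = 2 ∧ y = 0 ∧ z = 1) ∨ (x = 2 ∧ y = 1 ∧ z = 0) := by
  intro x y z
  rcases z3_val x with rfl | rfl | rfl <;> rcases z3_val y with rfl | rfl | rfl <;>
    rcases z3_val z with rfl | rfl | rfl <;> decide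

/-- Case 4 for `P₁ + 2P₂`: no triangle and no induced `C₆`. -/
lemma q1_case4 {V : Type} [Finite V] {G : SimpleGraph V} (hp : NoP122 V G) (h3 : TriFree V G)
    (h6 : ¬ HasC6 V G) : TW Prop V G := by
  by_cases hE : ∀ a b, ¬ G.Adj a b
  · refine ⟨Set.univ, fun _ => 0, fun _ => True, fun _ _ => False, fun _ _ => False, ?_, ?_, ?_⟩
    · refine ⟨fun u => absurd (Set.mem_univ _) u.2, fun u => absurd (Set.mem_univ _) u.2,
        fun u => absurd (Set.mem_univ _) u.2, fun u => absurd (Set.mem_univ _) u.2⟩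
    · intro u _ v _ _
      simp [hE u v]
    · intro u _ v hv
      exact absurd (Set.mem_univ _) hv
  push Not at hE
  obtain ⟨a0, b0, hab0⟩ := hE
  let N : V → Set V := fun a => {x | G.Adj a x}
  obtain ⟨v, ⟨w, hvw⟩, hvmin⟩ := Set.exists_min_image {a | ∃ b, G.Adj a b}
    (fun a => (N a).ncard) (Set.toFinite _) ⟨a0, b0, hab0⟩
  let R : Set V := {u | u ≠ v ∧ ¬ G.Adj v u}
  obtain ⟨R1, R2, hR1, hR2, hR12, hI1, hI2, hR0, hr⟩ := split hp h3 hvw R (fun u => Iff.rfl)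
  let W : Set V := {u | ¬ G.Adj v u ∧ u ∉ R1 ∧ u ∉ R2}
  have hW : ∀ u ∈ W, ∀ x, G.Adj u x → G.Adj v x := by
    rintro u ⟨h1, h2, h4⟩ x hux
    by_cases huv : u = v
    · rw [← huv]; exact hux
    · by_contra hvx
      refine hR0 u ⟨huv, h1⟩ h2 h4 x ⟨?_, hvx⟩ hux
      rintro rfl
      exact h1 hux.symm
  have hW' : ∀ u ∈ W, (∃ x, G.Adj u x) → ∀ x, G.Adj v x → G.Adj u x := by
    intro u hu hx
    have h1 : N u ⊆ N v := fun x hx => hW u hu x hx
    have h2 : N u = N v := Set.eq_of_subset_of_ncard_le h1 (hvmin u hx) (Set.toFinite _)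
    intro x hvx
    have : x ∈ N v := hvx
    rw [← h2] at this
    exact this
  classical
  let c : V → ZMod 3 := fun u => if G.Adj v u then 1 else if u ∈ R1 then 0 else 2
  have c1 : ∀ u, G.Adj v u → c u = 1 := fun u hu => if_pos hu
  have c0 : ∀ u, u ∈ R1 → c u = 0 := by
    intro u hu
    show (if G.Adj v u then (1 : ZMod 3) else if u ∈ R1 then 0 else 2) = 0
    rw [if_neg (hR1 hu).2, if_pos hu]
  have c2 : ∀ u, u ∈ R2 → c u = 2 := by
    intro u hu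
    show (if G.Adj v u then (1 : ZMod 3) else if u ∈ R1 then 0 else 2) = 2
    rw [if_neg (hR2 hu).2, if_neg (fun h => hR12 u h hu)]
  have hall : ∀ u, u ∉ W → G.Adj v u ∨ u ∈ R1 ∨ u ∈ R2 := by
    intro u hu
    by_contra hcon
    push Not at hcon
    exact hu hcon
  have k1 : ∀ u, u ∉ W → c u = 1 → G.Adj v u := by
    intro u hu hc
    rcases hall u hu with h | h | h
    · exact h
    · rw [c0 u h] at hc
      exact absurd hc (by decide)
    · rw [c2 u h] at hc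
      exact absurd hc (by decide)
  have k0 : ∀ u, u ∉ W → c u = 0 → u ∈ R1 := by
    intro u hu hc
    rcases hall u hu with h | h | h
    · rw [c1 u h] at hc
      exact absurd hc (by decide)
    · exact h
    · rw [c2 u h] at hc
      exact absurd hc (by decide)
  have k2 : ∀ u, u ∉ W → c u = 2 → u ∈ R2 := by
    intro u hu hc
    rcases hall u hu with h | h | h
    · rw [c1 u h] at hc
      exact absurd hc (by decide)
    · rw [c0 u h] at hc
      exact absurd hc (by decide)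
    · exact h
  have same : ∀ u x, u ∉ W → x ∉ W → c u = c x → ¬ G.Adj u x := by
    intro u x hu hx hc hux
    rcases z3_val (c u) with h | h | h
    · exact hI1 u (k0 u hu h) x (k0 x hx (hc ▸ h)) hux
    · exact h3 v u x (k1 u hu h) hux (k1 x hx (hc ▸ h))
    · exact hI2 u (k2 u hu h) x (k2 x hx (hc ▸ h)) hux
  have core : ∀ ρ1 y ρ2, ρ1 ∈ R1 → G.Adj v y → ρ2 ∈ R2 → ¬ G.Adj ρ1 y → ¬ G.Adj y ρ2 →
      ¬ G.Adj ρ1 ρ2 → False := by
    intro ρ1 y ρ2 h1 hy h2 n1 n2 n3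
    rcases hr with ⟨e1, -⟩ | ⟨r1, hr1, r2, hr2, g1, g2⟩
    · rw [e1] at h1
      exact h1
    have vr1 := (hR1 hr1).2
    have vr2 := (hR2 hr2).2
    have v1 := (hR1 h1).2
    have v2 := (hR2 h2).2
    by_cases hy2 : G.Adj y r2
    · have hy1 : ¬ G.Adj y r1 := fun h => h3 y r1 r2 h (g1 r2 hr2) hy2
      exact hp v y ρ2 r1 ρ1 hy (g1 ρ2 h2).symm v2 vr1 n2 hy1 (fun h => v1 h.symm) n1 n3
        (hI1 _ h1 _ hr1)
    · exact hp v y ρ1 r2 ρ2 hy (g2 ρ1 h1).symm v1 vr2 (fun h => n1 h.symm) hy2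
        (fun h => v2 h.symm) (fun h => n2 h.symm) (fun h => n3 h.symm) (hI2 _ h2 _ hr2)
  have chY : ∀ y y' ρ ρ', y ∉ W → y' ∉ W → ρ ∉ W → ρ' ∉ W → c y = 1 → c y' = 1 →
      c ρ = c ρ' → G.Adj y ρ → G.Adj y' ρ' → G.Adj y ρ' ∨ G.Adj y' ρ := by
    intro y y' ρ ρ' hy hy' hρ hρ' cy cy' cρ h1 h2
    have a1 := k1 y hy cy
    have a2 := k1 y' hy' cy'
    have hne : c ρ ≠ 1 := by
      intro h
      exact same y ρ hy hρ (by rw [cy, h]) h1
    rcases z3_val (c ρ) with h | h | h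
    · have b1 := k0 ρ hρ h
      have b2 := k0 ρ' hρ' (cρ ▸ h)
      rcases hr with ⟨e1, -⟩ | ⟨r1, hr1, r2, hr2, g1, g2⟩
      · rw [e1] at b1
        exact b1.elim
      exact mkC6 h3 h6 a1 a2 h1 h2 (g2 ρ b1) (g2 ρ' b2) (hR1 b1).2 (hR1 b2).2 (hR2 hr2).2
    · exact absurd h hne
    · have b1 := k2 ρ hρ h
      have b2 := k2 ρ' hρ' (cρ ▸ h)
      rcases hr with ⟨-, e1⟩ | ⟨r1, hr1, r2, hr2, g1, g2⟩
      · rw [e1] at b1
        exact b1.elim
      exact mkC6 h3 h6 a1 a2 h1 h2 (g1 ρ b1) (g1 ρ' b2) (hR2 b1).2 (hR2 b2).2 (hR1 hr1).2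
  have hmain : Hyp (G.comap (Subtype.val : {u // u ∉ W} → V)) (fun u => c u.1) := by
    refine ⟨?_, ?_, ?_, ?_⟩
    · rintro ⟨u, hu⟩ ⟨x, hx⟩ hux hc
      exact same u x hu hx hc hux
    · rintro ⟨a, ha⟩ ⟨a', ha'⟩ ⟨b, hb⟩ ⟨b', hb'⟩ h1 h2 h4 h5
      simp only [comap_adj] at h1 h2 h4 h5 ⊢
      by_cases ca : c a = 1
      · exact chY a a' b b' ha ha' hb hb' ca (h1 ▸ ca) h2 h4 h5
      by_cases cb : c b = 1
      · rcases chY b b' a a' hb hb' ha ha' cb (h2 ▸ cb) h1 h4.symm h5.symm with h | h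
        · exact Or.inr h.symm
        · exact Or.inl h.symm
      · by_contra hcon
        push Not at hcon
        have nv : ∀ u, u ∉ W → c u ≠ 1 → ¬ G.Adj v u := fun u _ h1 h2 => h1 (c1 u h2)
        exact hp a b a' b' v h4 h5 (same a a' ha ha' h1) hcon.1 (fun h => hcon.2 h.symm)
          (same b b' hb hb' h2) (nv a ha ca) (nv b hb cb) (nv a' ha' (h1 ▸ ca))
          (nv b' hb' (h2 ▸ cb))
    · rintro ⟨x, hx⟩ ⟨y, hy⟩ ⟨z, hz⟩ h1 h2 h4
      simp only [comap_adj] at h1 h2 h4 ⊢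
      by_contra hcon
      push Not at hcon
      obtain ⟨n1, n2, n3⟩ := hcon
      have s1 : ¬ G.Adj y x := fun h => n1 h.symm
      have s2 : ¬ G.Adj z y := fun h => n2 h.symm
      have s3 : ¬ G.Adj z x := fun h => n3 h.symm
      rcases z3_perm _ _ _ h1 h2 h4 with ⟨e1, e2, e3⟩ | ⟨e1, e2, e3⟩ | ⟨e1, e2, e3⟩ |
        ⟨e1, e2, e3⟩ | ⟨e1, e2, e3⟩ | ⟨e1, e2, e3⟩
      · exact core x y z (k0 x hx e1) (k1 y hy e2) (k2 z hz e3) n1 n2 n3
      · exact core x z y (k0 x hx e1) (k1 z hz e3) (k2 y hy e2) n3 s2 n1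
      · exact core y x z (k0 y hy e2) (k1 x hx e1) (k2 z hz e3) s1 n3 n2
      · exact core z x y (k0 z hz e3) (k1 x hx e1) (k2 y hy e2) s3 n1 s2
      · exact core y z x (k0 y hy e2) (k1 z hz e3) (k2 x hx e1) n2 s3 s1
      · exact core z y x (k0 z hz e3) (k1 y hy e2) (k2 x hx e1) s2 s1 s3
    · rintro ⟨x, hx⟩ ⟨x', hx'⟩ ⟨y, hy⟩ ⟨z, hz⟩ _ h2 h4 h5 _ _
      exact (h3 x y z h4 h2 h5).elim
  refine ⟨W, c, fun u => ∃ x, G.Adj u x, fun _ _ => False, fun a i => a ∧ i = 1, hmain.toTri,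
    ?_, ?_⟩
  · intro u hu x hx _
    simp only [iff_false]
    intro hux
    exact hx.1 (hW u hu x hux)
  · intro u hu x hx
    constructor
    · intro hux
      exact ⟨⟨x, hux⟩, c1 x (hW u hu x hux)⟩
    · rintro ⟨h1, h2⟩
      exact hW' u hu h1 x (k1 x hx h2)

/-- The class of (diamond, `P₁ + 2P₂`)-free graphs. -/
def ClassA : GProp := fun V G => DiamondFree V G ∧ NoP122 V G

theorem lwqo_classA : LWqo ClassA := by
  refine ((lwqo_KH Prop).or ((lwqo_del 13 (lwqo_TW (Fin 5 × (ZMod 3 → Prop)))).or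
    (lwqo_bip122.or (lwqo_TW Prop)))).mono ?_
  rintro V _ G ⟨hd, hp⟩
  by_cases h5 : NoK5 V G
  · by_cases h3 : TriFree V G
    · by_cases h6 : HasC6 V G
      · exact Or.inr (Or.inr (Or.inl (q1_case3 hp h3 h6)))
      · exact Or.inr (Or.inr (Or.inr (q1_case4 hp h3 h6)))
    · exact Or.inr (Or.inl (q1_case2 hd hp h5 h3))
  · exact Or.inl (q1_case1 hd hp h5)

end Pool.Agent.Helper34.Wqo
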