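import Pool.Agent.Helper34.Wqo.Cog

set_option autoImplicit false

namespace Pool.Agent.Helper34.Wqo

open SimpleGraph

/-- A relation on six points without independent triples has a triangle. -/
lemma ramsey {A : Fin 6 → Fin 6 → Prop}
    (hi : ∀ i j k, i ≠ j → i ≠ k → j ≠ k → A i j ∨ A i k ∨ A j k) :
    ∃ i j k, i ≠ j ∧ i ≠ k ∧ j ≠ k ∧ A i j ∧ A i k ∧ A j k := by
  classical
  let N : Finset (Fin 6) := Finset.univ.filter (fun i => i ≠ 0 ∧ A 0 i)
  let M : Finset (Fin 6) := Finset.univ.filter (fun i => i ≠ 0 ∧ ¬ A 0 i)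
  have hcard : N.card + M.card = 5 := by
    have h1 : N ∪ M = Finset.univ.erase 0 := by
      ext i
      simp only [N, M, Finset.mem_union, Finset.mem_filter, Finset.mem_univ, true_and,
        Finset.mem_erase, and_true]
      tauto
    have h2 : Disjoint N M := by
      rw [Finset.disjoint_left]
      intro i h1 h2
      exact (Finset.mem_filter.1 h2).2.2 (Finset.mem_filter.1 h1).2.2
    rw [← Finset.card_union_of_disjoint h2, h1]
    simp
  by_cases h : 2 < N.card
  · obtain ⟨i, h1, j, h2, k, h3, n1, n2, n3⟩ := Finset.two_lt_card.1 h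
    have i1 := (Finset.mem_filter.1 h1).2
    have j1 := (Finset.mem_filter.1 h2).2
    have k1 := (Finset.mem_filter.1 h3).2
    rcases hi i j k n1 n2 n3 with h4 | h4 | h4
    · exact ⟨0, i, j, i1.1.symm, j1.1.symm, n1, i1.2, j1.2, h4⟩
    · exact ⟨0, i, k, i1.1.symm, k1.1.symm, n2, i1.2, k1.2, h4⟩
    · exact ⟨0, j, k, j1.1.symm, k1.1.symm, n3, j1.2, k1.2, h4⟩
  · have h' : 2 < M.card := by omega
    obtain ⟨i, h1, j, h2, k, h3, n1, n2, n3⟩ := Finset.two_lt_card.1 h'
    have i1 := (Finset.mem_filter.1 h1).2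
    have j1 := (Finset.mem_filter.1 h2).2
    have k1 := (Finset.mem_filter.1 h3).2
    refine ⟨i, j, k, n1, n2, n3, ?_, ?_, ?_⟩
    · rcases hi 0 i j i1.1.symm j1.1.symm n1 with h4 | h4 | h4
      · exact absurd h4 i1.2
      · exact absurd h4 j1.2
      · exact h4
    · rcases hi 0 i k i1.1.symm k1.1.symm n2 with h4 | h4 | h4
      · exact absurd h4 i1.2
      · exact absurd h4 k1.2
      · exact h4
    · rcases hi 0 j k j1.1.symm k1.1.symm n3 with h4 | h4 | h4
      · exact absurd h4 j1.2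
      · exact absurd h4 k1.2
      · exact h4

/-- Case 1 for `P₁ + P₄`: a `K₅` is present. -/
lemma q2_case1 {V : Type} [Finite V] {G : SimpleGraph V} (hd : DiamondFree V G)
    (hp : NoP14 V G) (h5 : ¬ NoK5 V G) : KH Unit V G ∨ Del 5 Cog V G := by
  unfold NoK5 at h5
  push Not at h5
  obtain ⟨f, hf⟩ := h5
  obtain ⟨K, hK0, hK, hm⟩ := exists_maxclique G (Set.range f) (by
    rintro _ ⟨i, rfl⟩ _ ⟨j, rfl⟩ hne
    exact hf i j (fun h => hne (by rw [h])))
  have hfK : ∀ i, f i ∈ K := fun i => hK0 ⟨i, rfl⟩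
  have hfi : Function.Injective f := by
    intro i j hij
    by_contra hne
    have := hf i j hne
    rw [hij] at this
    exact G.loopless.irrefl _ this
  have hat : ∀ v, v ∉ K → ∀ k ∈ K, ∀ k' ∈ K, G.Adj v k → G.Adj v k' → k = k' :=
    fun v hv k hk k' hk' => hd.atmost hK hm hv hk hk'
  -- no `P₄` outside of `K`
  have hP4 : ∀ a b c d, a ∉ K → b ∉ K → c ∉ K → d ∉ K → G.Adj a b → G.Adj b c → G.Adj c d →
      ¬ G.Adj a c → ¬ G.Adj a d → ¬ G.Adj b d → False := by
    intro a b c d ha hb hc hdK h1 h2 h3 h4 h6 h7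
    have hall : ∀ x : Fin 4, (![a, b, c, d] : Fin 4 → V) x ∉ K := by
      intro x
      fin_cases x
      · exact ha
      · exact hb
      · exact hc
      · exact hdK
    obtain ⟨i, hgood⟩ := exists_good (n := 4) (k := 5)
      (fun x i => G.Adj ((![a, b, c, d] : Fin 4 → V) x) (f i)) (by
        intro x i j h1 h2
        exact hfi (hat _ (hall x) _ (hfK i) _ (hfK j) h1 h2)) (by norm_num)
    have g0 : ¬ G.Adj a (f i) := hgood 0
    have g1 : ¬ G.Adj b (f i) := hgood 1
    have g2 : ¬ G.Adj c (f i) := hgood 2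
    have g3 : ¬ G.Adj d (f i) := hgood 3
    exact hp a b c d (f i) h1 h2 h3 h4 h6 h7 (fun h => g0 h.symm) (fun h => g1 h.symm)
      (fun h => g2 h.symm) (fun h => g3 h.symm)
  let Ka : Set V := {k | k ∈ K ∧ ∃ h, h ∉ K ∧ G.Adj h k}
  by_cases hKa : Ka.ncard ≤ 5
  · right
    refine ⟨Ka, hKa, ?_, ?_⟩
    · intro a b x y h1 h2 h3 h4 h6 hxy
      exact hd _ _ _ _ h1 h2 h3 h4 h6 (fun h => hxy (Subtype.ext h))
    · rintro ⟨a, ha⟩ ⟨b, hb⟩ ⟨c, hc⟩ ⟨d, hdd⟩ h1 h2 h3 h4 h6 h7
      simp only [comap_adj] at h1 h2 h3 h4 h6 h7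
      have st : ∀ x y, x ∈ K → x ∉ Ka → G.Adj x y → y ∈ K := by
        intro x y hx hxa hxy
        by_contra hy
        exact hxa ⟨hx, y, hy, hxy.symm⟩
      have nac : a ≠ c := by
        rintro rfl
        exact h6 h3
      have nbd : b ≠ d := by
        rintro rfl
        exact h6 h1
      have hbK : b ∉ K := by
        intro h
        exact h4 (hK a (st b a h hb h1.symm) c (st b c h hb h2) nac)
      have haK : a ∉ K := fun h => hbK (st a b h ha h1)
      have hcK : c ∉ K := fun h => hbK (st c b h hc h2.symm)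
      have hdK : d ∉ K := fun h => hcK (st d c h hdd h3.symm)
      exact hP4 a b c d haK hbK hcK hdK h1 h2 h3 h4 h6 h7
  · left
    push Not at hKa
    obtain ⟨e⟩ : Nonempty (Fin 6 ↪ Ka) := by
      have hf := Fintype.ofFinite Ka
      rw [Function.Embedding.nonempty_iff_card_le, Fintype.card_fin, ← Nat.card_eq_fintype_card]
      exact hKa
    choose h hhK hhk using fun i => (e i).2.2
    have hkK : ∀ i, (e i).1 ∈ K := fun i => (e i).2.1
    have hne : ∀ i j, i ≠ j → (e i).1 ≠ (e j).1 := by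
      intro i j hij h'
      exact hij (e.injective (Subtype.ext h'))
    -- a vertex of `K` avoiding three given ones
    have avoid : ∀ v, v ∉ K → ∀ a ∈ K, ∀ b ∈ K, ∃ k ∈ K, k ≠ a ∧ k ≠ b ∧ ¬ G.Adj v k := by
      intro v hv a ha b hb
      obtain ⟨i, hgood⟩ := exists_good (n := 3) (k := 5)
        (![fun i => f i = a, fun i => f i = b, fun i => G.Adj v (f i)]) (by
          intro x i j h1 h2
          fin_cases x
          · exact hfi (Eq.trans h1 (Eq.symm h2))
          · exact hfi (Eq.trans h1 (Eq.symm h2))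
          · exact hfi (hat v hv _ (hfK i) _ (hfK j) h1 h2)) (by norm_num)
      have g0 : ¬ f i = a := hgood 0
      have g1 : ¬ f i = b := hgood 1
      have g2 : ¬ G.Adj v (f i) := hgood 2
      exact ⟨f i, hfK i, g0, g1, g2⟩
    -- the key property of edges outside `K`
    have key : ∀ x y, x ∉ K → y ∉ K → G.Adj x y → ∀ k ∈ K, ∀ k' ∈ K, k ≠ k' → G.Adj x k →
        G.Adj y k' → ∀ v, v ∉ K → G.Adj v x ∨ G.Adj v y := by
      intro x y hx hy hxy k hk k' hk' hkk hxk hyk v hv
      by_contra hcon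
      push Not at hcon
      obtain ⟨k2, hk2, n1, n2, n3⟩ := avoid v hv k hk k' hk'
      have hxk' : ¬ G.Adj x k' := fun h => hkk (hat x hx k hk k' hk' hxk h)
      have hyk' : ¬ G.Adj y k := fun h => hkk (hat y hy k hk k' hk' h hyk)
      have hxk2 : ¬ G.Adj x k2 := fun h => n1 (hat x hx k2 hk2 k hk h hxk)
      have hyk2 : ¬ G.Adj y k2 := fun h => n2 (hat y hy k2 hk2 k' hk' h hyk)
      have a1 : G.Adj v k := by
        by_contra hvk
        exact hp y x k k2 v hxy.symm hxk (hK k hk k2 hk2 n1.symm) hyk' hyk2 hxk2 hcon.2 hcon.1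
          hvk n3
      have a2 : G.Adj v k' := by
        by_contra hvk
        exact hp x y k' k2 v hxy hyk (hK k' hk' k2 hk2 n2.symm) hxk' hxk2 hyk2 hcon.1 hcon.2
          hvk n3
      exact hkk (hat v hv k hk k' hk' a1 a2)
    obtain ⟨i, j, l, n1, n2, n3, a1, a2, a3⟩ := ramsey (A := fun i j => G.Adj (h i) (h j)) (by
        intro i j l n1 n2 n3
        by_contra hcon
        push Not at hcon
        obtain ⟨b1, b2, b3⟩ := hcon
        have g1 : ¬ G.Adj (h i) (e j).1 :=
          fun h' => hne i j n1 (hat _ (hhK i) _ (hkK i) _ (hkK j) (hhk i) h')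
        have g2 : ¬ G.Adj (h j) (e i).1 :=
          fun h' => hne i j n1 (hat _ (hhK j) _ (hkK i) _ (hkK j) h' (hhk j))
        have g3 : ¬ G.Adj (h l) (e i).1 :=
          fun h' => hne i l n2 (hat _ (hhK l) _ (hkK i) _ (hkK l) h' (hhk l))
        have g4 : ¬ G.Adj (h l) (e j).1 :=
          fun h' => hne j l n3 (hat _ (hhK l) _ (hkK j) _ (hkK l) h' (hhk l))
        exact hp (h i) (e i).1 (e j).1 (h j) (h l) (hhk i) (hK _ (hkK i) _ (hkK j) (hne i j n1))
          (hhk j).symm g1 b1 (fun h' => g2 h'.symm) (fun h' => b2 h'.symm) g3 g4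
          (fun h' => b3 h'.symm))
    have k1 := key (h i) (h j) (hhK i) (hhK j) a1 _ (hkK i) _ (hkK j) (hne i j n1) (hhk i) (hhk j)
    have k2 := key (h i) (h l) (hhK i) (hhK l) a2 _ (hkK i) _ (hkK l) (hne i l n2) (hhk i) (hhk l)
    have k3 := key (h j) (h l) (hhK j) (hhK l) a3 _ (hkK j) _ (hkK l) (hne j l n3) (hhk j) (hhk l)
    have hall : ∀ v, v ∉ K → (v ≠ h i → G.Adj v (h i)) ∧ (v ≠ h j → G.Adj v (h j)) := by
      intro v hv
      rcases k1 v hv with b1 | b1
      · rcases k3 v hv with b3 | b3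
        · exact ⟨fun _ => b1, fun _ => b3⟩
        · exact ⟨fun _ => b1, fun hn => hd (h i) (h l) v (h j) a2 b1 b3 a1.symm a3 hn⟩
      · rcases k2 v hv with b2 | b2
        · exact ⟨fun _ => b2, fun _ => b1⟩
        · exact ⟨fun hn => hd (h j) (h l) v (h i) a3 b1 b2 a1 a2 hn, fun _ => b1⟩
    refine ⟨K, fun _ => (), fun _ _ => True, hK, hat, ?_⟩
    intro u hu v hv huv
    simp only [iff_true]
    by_cases e1 : u = h i
    · rw [e1]
      rw [e1] at huv
      exact ((hall v hv).1 huv.symm).symm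
    by_cases e2 : v = h i
    · rw [e2]
      exact (hall u hu).1 e1
    by_cases e3 : u = h j
    · rw [e3]
      rw [e3] at huv
      exact ((hall v hv).2 huv.symm).symm
    by_cases e4 : v = h j
    · rw [e4]
      exact (hall u hu).2 e3
    exact hd (h i) (h j) u v a1 ((hall u hu).1 e1) ((hall u hu).2 e3) ((hall v hv).1 e2)
      ((hall v hv).2 e4) huv

end Pool.Agent.Helper34.Wqo
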