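import Pool.Agent.Helper34.Wqo.Q2a

set_option autoImplicit false

namespace Pool.Agent.Helper34.Wqo

open SimpleGraph

/-- The vertices are distributed over keys; the adjacency of vertices with different keys is
determined by the types, and so is, for each key, the adjacency of vertices with that key. -/
def Multi (T : Type) : GProp := fun V G => ∃ (τ : V → T) (D : T → T → Prop) (key : V → ℕ),
  (∀ u v, key u ≠ key v → (G.Adj u v ↔ D (τ u) (τ v))) ∧
  ∀ i, ∃ M : T → T → Prop, ∀ u v, key u = i → key v = i → u ≠ v → (G.Adj u v ↔ M (τ u) (τ v))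

lemma lwqo_multi (T : Type) [Finite T] : LWqo (Multi T) := by
  refine (lwqo_twins T).word T ?_
  rintro V _ G ⟨τ, D, key, h1, h2⟩
  refine ⟨D, τ, key, fun u v huv => h1 u v huv.ne, ?_⟩
  rintro i -
  obtain ⟨M, hM⟩ := h2 i
  refine ⟨fun v => τ v.1, M, ?_⟩
  rintro ⟨u, hu⟩ ⟨v, hv⟩ huv
  exact hM u v hu hv (fun h => huv (Subtype.ext h))

/-- Case 2 for `P₁ + P₄`: a triangle but no `K₅`. -/
lemma q2_case2 {V : Type} [Finite V] {G : SimpleGraph V} (hd : DiamondFree V G)
    (hp : NoP14 V G) (h5 : NoK5 V G) (h3 : ¬ TriFree V G) :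
    Del 7 Cog V G ∨ Del 4 (Multi (Option (ZMod 3) × (ZMod 3 → Prop))) V G := by
  obtain ⟨t, ht⟩ := exists_triangle h3
  have hT : (Set.range t).ncard ≤ 3 := by
    rw [← Set.image_univ]
    refine (Set.ncard_image_le (Set.toFinite _)).trans ?_
    rw [Set.ncard_univ]
    simp
  have hC := CN_ncard ht hd h5
  by_cases hq : ∃ i, ∀ u ∈ PN G t i, ∀ v ∈ PN G t i, u ≠ v → G.Adj u v
  · left
    obtain ⟨i, hi⟩ := hq
    refine ⟨Set.range t ∪ CN G t ∪ PN G t i, ?_, ?_, ?_⟩
    · have h1 := ncard_le_of_noK5 h5 (x := t i) (fun v hv => hv.1.symm) hi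
      have e1 := Set.ncard_union_le (Set.range t ∪ CN G t) (PN G t i)
      have e2 := Set.ncard_union_le (Set.range t) (CN G t)
      omega
    · intro a b x y h1 h2 h3 h4 h6 hxy
      exact hd _ _ _ _ h1 h2 h3 h4 h6 (fun h => hxy (Subtype.ext h))
    · have key : ∀ x, x ∉ Set.range t ∪ CN G t ∪ PN G t i → ¬ G.Adj (t i) x := by
        intro x hx hadj
        rcases tri_cases ht hd x with ⟨j, rfl⟩ | h | h | ⟨j, h⟩
        · exact hx (Or.inl (Or.inl ⟨j, rfl⟩))
        · exact hx (Or.inl (Or.inr h))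
        · exact h i hadj.symm
        · by_cases hij : i = j
          · subst hij
            exact hx (Or.inr h)
          · exact h.2 i hij hadj.symm
      rintro ⟨a, ha⟩ ⟨b, hb⟩ ⟨c, hc⟩ ⟨d, hdd⟩ h1 h2 h3 h4 h6 h7
      exact hp a b c d (t i) h1 h2 h3 h4 h6 h7 (key a ha) (key b hb) (key c hc) (key d hdd)
  right
  push Not at hq
  have ptr : ∀ i, ∀ a ∈ PN G t i, ∀ b ∈ PN G t i, ∀ c ∈ PN G t i, G.Adj a b → G.Adj b c →
      a ≠ c → G.Adj a c := fun i a ha b hb c hc =>
    nbr_trans hd ha.1.symm hb.1.symm hc.1.symm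
  -- every vertex of `PN i` has a non-neighbour in `PN i`
  have non : ∀ i, ∀ y ∈ PN G t i, ∃ y' ∈ PN G t i, y' ≠ y ∧ ¬ G.Adj y' y := by
    intro i y hy
    by_contra hcon
    push Not at hcon
    obtain ⟨u, hu, v, hv, huv, hn⟩ := hq i
    by_cases h1 : u = y
    · rw [h1] at huv hn
      exact hn (hcon v hv huv.symm).symm
    by_cases h2 : v = y
    · rw [h2] at huv hn
      exact hn (hcon u hu huv)
    exact hn (ptr i u hu y hy v hv (hcon u hu h1) (hcon v hv h2).symm huv)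
  -- two adjacent vertices of `PN i` have no common neighbour in `PN j` or `WN`
  have one : ∀ i, ∀ y ∈ PN G t i, ∀ y' ∈ PN G t i, G.Adj y y' → ∀ z, z ≠ t i → ¬ G.Adj z (t i) →
      G.Adj z y → G.Adj z y' → False := by
    intro i y hy y' hy' hyy z hz hzt h1 h2
    exact hzt (hd y y' z (t i) hyy h1 h2 hy.1.symm hy'.1.symm hz)
  have E2 : ∀ i j, i ≠ j → ∀ y ∈ PN G t i, ∀ z ∈ PN G t j, G.Adj y z → ∀ y' ∈ PN G t i,
      G.Adj y' y ∨ G.Adj y' z := by
    intro i j hij y hy z hz hyz y' hy'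
    obtain ⟨k, hk1, hk2⟩ := z3_third _ _ hij
    by_contra hcon
    push Not at hcon
    exact hp y z (t j) (t k) y' hyz hz.1 (ht _ _ hk2.symm) (hy.2 j hij.symm) (hy.2 k hk1)
      (hz.2 k hk2) hcon.1 hcon.2 (hy'.2 j hij.symm) (hy'.2 k hk1)
  have iso : ∀ i j, i ≠ j → ∀ z ∈ PN G t j, ∀ y ∈ PN G t i, G.Adj y z → ∀ y2 ∈ PN G t i,
      ¬ G.Adj y y2 := by
    intro i j hij z hz y hy hyz y2 hy2 hadj
    have hzt : z ≠ t i := by
      rintro rfl
      exact t_notin_PN ht i j hz
    obtain ⟨y', hy', n1, n2⟩ := non i y hy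
    have h1 : G.Adj y' z := (E2 i j hij y hy z hz hyz y' hy').resolve_left n2
    have h2 : ¬ G.Adj y2 y' := by
      intro h
      exact n2 (ptr i y' hy' y2 hy2 y hy h.symm hadj.symm n1)
    have h4 : G.Adj y2 z := (E2 i j hij y' hy' z hz h1 y2 hy2).resolve_left h2
    exact one i y hy y2 hy2 hadj z hzt (hz.2 i hij) hyz.symm h4.symm
  have full1 : ∀ i j, i ≠ j → ∀ y ∈ PN G t i, ∀ z ∈ PN G t j, G.Adj y z → ∀ y' ∈ PN G t i,
      G.Adj y' z := by
    intro i j hij y hy z hz hyz y' hy'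
    refine (E2 i j hij y hy z hz hyz y' hy').resolve_left ?_
    intro h
    exact iso i j hij z hz y hy hyz y' hy' h.symm
  have full : ∀ i j, i ≠ j → ∀ y ∈ PN G t i, ∀ z ∈ PN G t j, G.Adj y z → ∀ y' ∈ PN G t i,
      ∀ z' ∈ PN G t j, G.Adj y' z' := by
    intro i j hij y hy z hz hyz y' hy' z' hz'
    have h1 := full1 i j hij y hy z hz hyz y' hy'
    exact (full1 j i hij.symm z hz y' hy' h1.symm z' hz').symm
  have E1 : ∀ i j, i ≠ j → ∀ y ∈ PN G t i, ∀ z ∈ PN G t j, ∀ w ∈ WN G t,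
      G.Adj w y ∨ G.Adj w z := by
    intro i j hij y hy z hz w hw
    obtain ⟨k, hk1, hk2⟩ := z3_third _ _ hij
    by_contra hcon
    push Not at hcon
    by_cases hyz : G.Adj y z
    · exact hp z y (t i) (t k) w hyz.symm hy.1 (ht _ _ hk1.symm) (hz.2 i hij) (hz.2 k hk2)
        (hy.2 k hk1) hcon.2 hcon.1 (hw i) (hw k)
    · exact hp y (t i) (t j) z w hy.1 (ht _ _ hij) hz.1.symm (hy.2 j hij.symm) hyz
        (fun h => hz.2 i hij h.symm) hcon.1 (hw i) (hw j) hcon.2
  -- complete to all but one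
  have comp : ∀ w ∈ WN G t, ∀ i, ∀ x ∈ PN G t i, ¬ G.Adj w x → ∀ j, j ≠ i → ∀ y ∈ PN G t j,
      G.Adj w y := by
    intro w hw i x hx hwx j hij y hy
    exact (E1 i j hij.symm x hx y hy w hw).resolve_left hwx
  have anti : ∀ w ∈ WN G t, ∀ i, ∀ x ∈ PN G t i, ¬ G.Adj w x → ∀ x' ∈ PN G t i,
      ¬ G.Adj w x' := by
    intro w hw i x hx hwx x' hx' hwx'
    obtain ⟨j, k, hj, hk, hjk⟩ := z3_two i
    obtain ⟨y, hy, y', hy', hyy, hn⟩ := hq j
    have wy := comp w hw i x hx hwx j hj y hy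
    have wy' := comp w hw i x hx hwx j hj y' hy'
    have xy : G.Adj x y := by
      by_contra hxy
      exact hp w y (t j) (t k) x wy hy.1 (ht _ _ hjk) (hw j) (hw k) (hy.2 k hjk.symm)
        (fun h => hwx h.symm) hxy (hx.2 j hj) (hx.2 k hk)
    have F := full i j hj.symm x hx y hy xy
    exact hn (hd x' w y y' hwx'.symm (F x' hx' y hy).symm wy.symm (F x' hx' y' hy').symm
      wy'.symm hyy)
  have wind : ∀ w ∈ WN G t, ∀ w' ∈ WN G t, ¬ G.Adj w w' := by
    intro w hw w' hw' hadj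
    obtain ⟨l, h1, h2⟩ : ∃ l, (∀ x ∈ PN G t l, G.Adj w x) ∧ ∀ x ∈ PN G t l, G.Adj w' x := by
      by_cases hw1 : ∃ i, ∃ x ∈ PN G t i, ¬ G.Adj w x
      · obtain ⟨i, x, hx, hwx⟩ := hw1
        by_cases hw2 : ∃ i, ∃ x ∈ PN G t i, ¬ G.Adj w' x
        · obtain ⟨j, x', hx', hwx'⟩ := hw2
          by_cases hij : i = j
          · subst hij
            obtain ⟨j, k, hj, hk, hjk⟩ := z3_two i
            exact ⟨j, comp w hw i x hx hwx j hj, comp w' hw' i x' hx' hwx' j hj⟩
          · obtain ⟨k, hk1, hk2⟩ := z3_third _ _ hij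
            exact ⟨k, comp w hw i x hx hwx k hk1, comp w' hw' j x' hx' hwx' k hk2⟩
        · push Not at hw2
          obtain ⟨j, k, hj, hk, hjk⟩ := z3_two i
          exact ⟨j, comp w hw i x hx hwx j hj, hw2 j⟩
      · push Not at hw1
        by_cases hw2 : ∃ i, ∃ x ∈ PN G t i, ¬ G.Adj w' x
        · obtain ⟨j, x', hx', hwx'⟩ := hw2
          obtain ⟨i, k, hi, hk, hik⟩ := z3_two j
          exact ⟨i, hw1 i, comp w' hw' j x' hx' hwx' i hi⟩
        · push Not at hw2
          exact ⟨0, hw1 0, hw2 0⟩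
    obtain ⟨y, hy, y', hy', hyy, hn⟩ := hq l
    exact hn (hd w w' y y' hadj (h1 y hy).symm (h2 y hy).symm (h1 y' hy').symm (h2 y' hy').symm
      hyy)
  -- assembling
  classical
  let c : V → ZMod 3 := fun v => if G.Adj v (t 0) then 0 else if G.Adj v (t 1) then 1 else 2
  have hcP : ∀ v i, v ∈ PN G t i → c v = i := by
    intro v i hv
    rcases z3_all 0 1 2 i (by decide) (by decide) (by decide) with rfl | rfl | rfl
    · exact if_pos hv.1
    · have h0 := hv.2 0 (by decide)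
      show (if G.Adj v (t 0) then (0 : ZMod 3) else if G.Adj v (t 1) then 1 else 2) = 1
      rw [if_neg h0, if_pos hv.1]
    · have h0 := hv.2 0 (by decide)
      have h1 := hv.2 1 (by decide)
      show (if G.Adj v (t 0) then (0 : ZMod 3) else if G.Adj v (t 1) then 1 else 2) = 2
      rw [if_neg h0, if_neg h1]
  let S : Set V := Set.range t ∪ CN G t
  have hcol : ∀ v, v ∉ S → v ∉ WN G t → v ∈ PN G t (c v) := by
    intro v hv hvW
    rcases tri_cases ht hd v with ⟨i, rfl⟩ | h | h | ⟨i, h⟩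
    · exact absurd (Or.inl ⟨i, rfl⟩) hv
    · exact absurd (Or.inr h) hv
    · exact absurd h hvW
    · rw [hcP v i h]
      exact h
  obtain ⟨e, he⟩ := exists_injective_nat (Set V)
  let cl : V → Set V := fun v => {u | u ∈ PN G t (c v) ∧ (u = v ∨ G.Adj u v)}
  have hcl : ∀ u v, u ∈ PN G t (c u) → v ∈ PN G t (c v) → u ≠ v →
      ((c u = c v ∧ G.Adj u v) ↔ cl u = cl v) := by
    intro u v hu hv huv
    constructor
    · rintro ⟨hc, hadj⟩
      have hv' : v ∈ PN G t (c u) := hc ▸ hv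
      ext x
      constructor
      · rintro ⟨hx, rfl | hxu⟩
        · exact ⟨hc ▸ hx, Or.inr hadj⟩
        · refine ⟨hc ▸ hx, ?_⟩
          by_cases hxv : x = v
          · exact Or.inl hxv
          · exact Or.inr (ptr (c u) x hx u hu v hv' hxu hadj hxv)
      · rintro ⟨hx, rfl | hxv⟩
        · exact ⟨hv', Or.inr hadj.symm⟩
        · have hx' : x ∈ PN G t (c u) := hc.symm ▸ hx
          refine ⟨hx', ?_⟩
          by_cases hxu : x = u
          · exact Or.inl hxu
          · exact Or.inr (ptr (c u) x hx' v hv' u hu hxv hadj.symm hxu)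
    · intro h
      have h1 : u ∈ cl u := ⟨hu, Or.inl rfl⟩
      rw [h] at h1
      exact ⟨hcP u _ h1.1, h1.2.resolve_left huv⟩
  let key : V → ℕ := fun v => if v ∈ WN G t then 0 else e (cl v) + 1
  have key0 : ∀ v, v ∈ WN G t → key v = 0 := fun v hv => if_pos hv
  have key1 : ∀ v, v ∉ WN G t → key v = e (cl v) + 1 := fun v hv => if_neg hv
  let τ : V → Option (ZMod 3) × (ZMod 3 → Prop) := fun v =>
    (if v ∈ WN G t then none else some (c v), fun i => ∃ x ∈ PN G t i, G.Adj v x)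
  have t0 : ∀ v, v ∈ WN G t → (τ v).1 = none := fun v hv => if_pos hv
  have t1 : ∀ v, v ∉ WN G t → (τ v).1 = some (c v) := fun v hv => if_neg hv
  refine ⟨S, ?_, fun v => τ v.1, fun a b => (a.1 = none ∧ ∃ i, b.1 = some i ∧ a.2 i) ∨
    (b.1 = none ∧ ∃ i, a.1 = some i ∧ b.2 i) ∨ (∃ i j, a.1 = some i ∧ b.1 = some j ∧ i ≠ j ∧
      ∃ y ∈ PN G t i, ∃ z ∈ PN G t j, G.Adj y z), fun v => key v.1, ?_, ?_⟩
  · have e2 := Set.ncard_union_le (Set.range t) (CN G t)
    show (Set.range t ∪ CN G t).ncard ≤ 4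
    omega
  · have WP : ∀ u v, u ∈ WN G t → v ∉ S → v ∉ WN G t → (G.Adj u v ↔ (τ u).2 (c v)) := by
      intro u v hu hvS hv
      constructor
      · intro hadj
        exact ⟨v, hcol v hvS hv, hadj⟩
      · rintro ⟨x, hx, hux⟩
        by_contra hn
        exact anti u hu (c v) v (hcol v hvS hv) hn x hx hux
    rintro ⟨u, hu⟩ ⟨v, hv⟩ huv
    simp only [comap_adj] at huv ⊢
    by_cases huW : u ∈ WN G t <;> by_cases hvW : v ∈ WN G t
    · rw [key0 u huW, key0 v hvW] at huv
      exact absurd rfl huv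
    · rw [t0 u huW, t1 v hvW, WP u v huW hv hvW]
      simp
    · rw [t1 u huW, t0 v hvW, G.adj_comm, WP v u hvW hu huW]
      simp
    · have pu := hcol u hu huW
      have pv := hcol v hv hvW
      rw [t1 u huW, t1 v hvW]
      rw [key1 u huW, key1 v hvW] at huv
      have huv' : u ≠ v := by
        rintro rfl
        exact huv rfl
      have hcc : cl u ≠ cl v := fun h => huv (by rw [h])
      simp only [reduceCtorEq, false_and, Option.some.injEq, false_or]
      constructor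
      · intro hadj
        refine ⟨c u, c v, rfl, rfl, ?_, u, pu, v, pv, hadj⟩
        intro hc
        exact hcc ((hcl u v pu pv huv').1 ⟨hc, hadj⟩)
      · rintro ⟨i, j, rfl, rfl, hij, y, hy, z, hz, hyz⟩
        exact full _ _ hij y hy z hz hyz u pu v pv
  · intro i
    by_cases hi : i = 0
    · refine ⟨fun _ _ => False, ?_⟩
      have hW : ∀ u, key u = i → u ∈ WN G t := by
        intro u hu
        by_contra h
        rw [key1 u h] at hu
        omega
      rintro ⟨u, hu⟩ ⟨v, hv⟩ hku hkv -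
      simp only [comap_adj, iff_false]
      exact wind u (hW u hku) v (hW v hkv)
    · refine ⟨fun _ _ => True, ?_⟩
      have hW : ∀ u, key u = i → u ∉ WN G t := by
        intro u hu h
        rw [key0 u h] at hu
        exact hi hu.symm
      rintro ⟨u, hu⟩ ⟨v, hv⟩ hku hkv huv
      have hku' : key u = i := hku
      have hkv' : key v = i := hkv
      have huv' : u ≠ v := fun h => huv (Subtype.ext h)
      have wu := hW u hku
      have wv := hW v hkv
      simp only [comap_adj, iff_true]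
      rw [key1 u wu] at hku'
      rw [key1 v wv] at hkv'
      exact ((hcl u v (hcol u hu wu) (hcol v hv wv) huv').2 (he (by omega))).2

end Pool.Agent.Helper34.Wqo
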