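import Pool.Agent.Helper34.Wqo.Q2b

set_option autoImplicit false

namespace Pool.Agent.Helper34.Wqo

open SimpleGraph

/-- A part `B` satisfying `Cog`, all other adjacencies being determined by types. -/
def Mix (T : Type) : GProp := fun V G => ∃ (τ : V → T) (E : T → T → Prop) (B : Set V),
  (∀ u v, ¬ (u ∈ B ∧ v ∈ B) → u ≠ v → (G.Adj u v ↔ E (τ u) (τ v))) ∧
  Cog {v // v ∈ B} (G.comap Subtype.val)

lemma lwqo_mix (T : Type) [Finite T] : LWqo (Mix T) := by
  refine ((lwqo_twins T).or lwqo_cog).word T ?_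
  rintro V _ G ⟨τ, E, B, h1, h2⟩
  classical
  refine ⟨E, τ, fun v => if v ∈ B then 1 else 0, ?_, ?_⟩
  · intro u v huv
    have hu : u ∉ B := by
      intro hu
      simp only [if_pos hu] at huv
      split_ifs at huv <;> omega
    exact h1 u v (fun h => hu h.1) (by rintro rfl; exact lt_irrefl _ huv)
  · rintro i ⟨w, hw⟩
    by_cases hi : i = 1
    · right
      refine On.congr Cog G ?_ h2
      intro v
      subst hi
      by_cases hv : v ∈ B <;> simp [hv]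
    · left
      have hB : ∀ v, (if v ∈ B then 1 else 0) = i → v ∉ B := by
        intro v hv hvB
        rw [if_pos hvB] at hv
        exact hi hv.symm
      refine ⟨fun v => τ v.1, E, ?_⟩
      rintro ⟨u, hu⟩ ⟨v, hv⟩ huv
      exact h1 u v (fun h => hB u hu h.1) (fun h => huv (Subtype.ext h))

lemma mix_of {V : Type} {G : SimpleGraph V} {n : ℕ} (C : Fin n → V → Prop)
    (hC : ∀ x, ∃ i, C i x) (B : Set V) (hB : Cog {v // v ∈ B} (G.comap Subtype.val))
    (hom : ∀ i j, i ≤ j →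
      (∀ u v, C i u → C j v → ¬ (u ∈ B ∧ v ∈ B) → u ≠ v → G.Adj u v) ∨
      (∀ u v, C i u → C j v → ¬ (u ∈ B ∧ v ∈ B) → u ≠ v → ¬ G.Adj u v)) :
    Mix (Fin n) V G := by
  choose τ hτ using hC
  refine ⟨τ, fun i j => ∃ u v, C i u ∧ C j v ∧ ¬ (u ∈ B ∧ v ∈ B) ∧ u ≠ v ∧ G.Adj u v, B, ?_, hB⟩
  intro u v hB' huv
  constructor
  · intro hadj
    exact ⟨u, v, hτ u, hτ v, hB', huv, hadj⟩
  · rintro ⟨x, y, hx, hy, hxy, hne, hadj⟩
    rcases le_total (τ u) (τ v) with h | h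
    · rcases hom _ _ h with h1 | h1
      · exact h1 u v (hτ u) (hτ v) hB' huv
      · exact absurd hadj (h1 x y hx hy hxy hne)
    · rcases hom _ _ h with h1 | h1
      · exact (h1 v u (hτ v) (hτ u) (fun h => hB' h.symm) huv.symm).symm
      · exact absurd hadj.symm (h1 y x hy hx (fun h => hxy h.symm) hne.symm)

lemma blockY {V : Type} [Finite V] {G : SimpleGraph V} (τ : V → Fin 5)
    (E5 : Fin 5 → Fin 5 → Prop) (nE : ¬ E5 1 3 ∧ ¬ E5 3 1)
    (h1 : ∀ u v, u ≠ v → ¬ (τ u = 1 ∧ τ v = 3) → ¬ (τ u = 3 ∧ τ v = 1) →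
      (G.Adj u v ↔ E5 (τ u) (τ v)))
    (h2 : ∀ r r' y y', τ r = 3 → τ r' = 3 → τ y = 1 → τ y' = 1 → ¬ G.Adj y r → ¬ G.Adj y r' →
      G.Adj y' r' → G.Adj y' r) : Multi (Fin 5) V G := by
  classical
  obtain ⟨e, he⟩ := exists_injective_nat (Set V)
  let M : V → Set V := fun r => {y | τ y = 1 ∧ ¬ G.Adj y r}
  have hM : ∀ r r' y, τ r = 3 → τ r' = 3 → y ∈ M r → y ∈ M r' → M r = M r' := by
    intro r r' y hr hr' hy hy'
    ext x
    constructor
    · rintro ⟨h3, h4⟩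
      exact ⟨h3, fun h => h4 (h2 r r' y x hr hr' hy.1 h3 hy.2 hy'.2 h)⟩
    · rintro ⟨h3, h4⟩
      exact ⟨h3, fun h => h4 (h2 r' r y x hr' hr hy.1 h3 hy'.2 hy.2 h)⟩
  let ms : V → Set V := fun v => if τ v = 3 then M v else
    if h : ∃ r, τ r = 3 ∧ v ∈ M r then M h.choose else ∅
  have ms3 : ∀ v, τ v = 3 → ms v = M v := fun v hv => if_pos hv
  have h13 : ∀ v, τ v = 1 → τ v ≠ 3 := by
    intro v hv h
    rw [hv] at h
    exact absurd h (by decide)
  have ms1 : ∀ v r, τ v = 1 → τ r = 3 → v ∈ M r → ms v = M r := by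
    intro v r hv hr hvr
    have h : ∃ r, τ r = 3 ∧ v ∈ M r := ⟨r, hr, hvr⟩
    show (if τ v = 3 then M v else if h : ∃ r, τ r = 3 ∧ v ∈ M r then M h.choose else ∅) = M r
    rw [if_neg (h13 v hv), dif_pos h]
    exact hM _ _ v h.choose_spec.1 hr h.choose_spec.2 hvr
  have ms1' : ∀ v, τ v = 1 → (¬ ∃ r, τ r = 3 ∧ v ∈ M r) → ms v = ∅ := by
    intro v hv h
    show (if τ v = 3 then M v else if h : ∃ r, τ r = 3 ∧ v ∈ M r then M h.choose else ∅) = ∅
    rw [if_neg (h13 v hv), dif_neg h]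
  let key : V → ℕ := fun v => if τ v = 1 ∨ τ v = 3 then e (ms v) + 1 else 0
  have k1 : ∀ v, (τ v = 1 ∨ τ v = 3) → key v = e (ms v) + 1 := fun v hv => if_pos hv
  have k0 : ∀ v, ¬ (τ v = 1 ∨ τ v = 3) → key v = 0 := fun v hv => if_neg hv
  have main : ∀ y r, τ y = 1 → τ r = 3 → key y ≠ key r → G.Adj y r := by
    intro y r hy hr hk
    by_contra hn
    apply hk
    rw [k1 y (Or.inl hy), k1 r (Or.inr hr), ms3 r hr, ms1 y r hy hr ⟨hy, hn⟩]
  refine ⟨τ, fun a b => E5 a b ∨ (a = 1 ∧ b = 3) ∨ (a = 3 ∧ b = 1), key, ?_, ?_⟩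
  · intro u v huv
    have huv' : u ≠ v := by
      rintro rfl
      exact huv rfl
    by_cases c1 : τ u = 1 ∧ τ v = 3
    · simp only [c1, and_self, true_or, or_true, iff_true]
      exact main u v c1.1 c1.2 huv
    by_cases c2 : τ u = 3 ∧ τ v = 1
    · simp only [c2, and_self, or_true, iff_true]
      exact (main v u c2.2 c2.1 huv.symm).symm
    rw [h1 u v huv' c1 c2]
    simp [c1, c2]
  · intro i
    refine ⟨fun a b => E5 a b ∨ (i = e ∅ + 1 ∧ ((a = 1 ∧ b = 3) ∨ (a = 3 ∧ b = 1))), ?_⟩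
    have main' : ∀ y r, τ y = 1 → τ r = 3 → key y = i → key r = i →
        (G.Adj y r ↔ i = e ∅ + 1) := by
      intro y r hy hr hky hkr
      rw [k1 y (Or.inl hy)] at hky
      rw [k1 r (Or.inr hr), ms3 r hr] at hkr
      have hms : ms y = M r := he (by omega)
      constructor
      · intro hadj
        have hno : ¬ ∃ r, τ r = 3 ∧ y ∈ M r := by
          rintro ⟨r', hr', hyr'⟩
          rw [ms1 y r' hy hr' hyr'] at hms
          rw [hms] at hyr'
          exact hyr'.2 hadj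
        rw [ms1' y hy hno] at hky
        exact hky.symm
      · intro hi
        by_contra hn
        have h3 : M r = ∅ := he (by omega)
        have h4 : y ∈ M r := ⟨hy, hn⟩
        rw [h3] at h4
        exact h4
    intro u v hu hv huv'
    by_cases c1 : τ u = 1 ∧ τ v = 3
    · rw [main' u v c1.1 c1.2 hu hv, c1.1, c1.2]
      simp [nE.1]
    by_cases c2 : τ u = 3 ∧ τ v = 1
    · rw [G.adj_comm, main' v u c2.2 c2.1 hv hu, c2.1, c2.2]
      simp [nE.2]
    rw [h1 u v huv' c1 c2]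
    simp [c1, c2]

lemma blockY' {V : Type} [Finite V] {G : SimpleGraph V} (C : Fin 5 → V → Prop)
    (hC : ∀ x, ∃ i, C i x)
    (hom : ∀ i j, i ≤ j → ¬ (i = 1 ∧ j = 3) → (∀ u v, C i u → C j v → u ≠ v → G.Adj u v) ∨
      (∀ u v, C i u → C j v → u ≠ v → ¬ G.Adj u v))
    (h2 : ∀ r r' y y', C 3 r → C 3 r' → C 1 y → C 1 y' → ¬ G.Adj y r → ¬ G.Adj y r' →
      G.Adj y' r' → G.Adj y' r) : Multi (Fin 5) V G := by
  choose τ hτ using hC
  have hτ' : ∀ x i, τ x = i → C i x := fun x i h => h ▸ hτ x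
  refine blockY τ (fun i j => ¬ (i = 1 ∧ j = 3) ∧ ¬ (i = 3 ∧ j = 1) ∧
    ∃ u v, C i u ∧ C j v ∧ u ≠ v ∧ G.Adj u v) ⟨fun h => h.1 ⟨rfl, rfl⟩, fun h => h.2.1 ⟨rfl, rfl⟩⟩
    ?_ ?_
  · intro u v huv c1 c2
    constructor
    · intro hadj
      exact ⟨c1, c2, u, v, hτ u, hτ v, huv, hadj⟩
    · rintro ⟨-, -, x, y, hx, hy, hxy, hadj⟩
      rcases le_total (τ u) (τ v) with h | h
      · rcases hom _ _ h c1 with h1 | h1
        · exact h1 u v (hτ u) (hτ v) huv
        · exact absurd hadj (h1 x y hx hy hxy)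
      · rcases hom _ _ h (fun h => c2 h.symm) with h1 | h1
        · exact (h1 v u (hτ v) (hτ u) huv.symm).symm
        · exact absurd hadj.symm (h1 y x hy hx hxy.symm)
  · intro r r' y y' h1 h3 h4 h5 h6 h7 h8
    exact h2 r r' y y' (hτ' r _ h1) (hτ' r' _ h3) (hτ' y _ h4) (hτ' y' _ h5) h6 h7 h8

/-- Case 3 for `P₁ + P₄`: no triangle but an induced `P₄`. -/
lemma q2_case3 {V : Type} [Finite V] {G : SimpleGraph V} (hd : DiamondFree V G)
    (hp : NoP14 V G) (h3 : TriFree V G) (h4 : ¬ NoP4 V G) :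
    Mix (Fin 7) V G ∨ Multi (Fin 5) V G := by
  unfold NoP4 at h4
  push Not at h4
  obtain ⟨a, b, c, d, hab, hbc, hcd, hac, had, hbd, -⟩ := h4
  have nac : c ≠ a := by
    rintro rfl
    exact had hcd
  have nad : d ≠ a := by
    rintro rfl
    exact hac hcd.symm
  let R : V → Prop := fun x => x ≠ a ∧ ¬ G.Adj a x
  have hPR : ∀ p q r s, R p → R q → R r → R s → G.Adj p q → G.Adj q r → G.Adj r s →
      ¬ G.Adj p r → ¬ G.Adj p s → ¬ G.Adj q s → False := by
    intro p q r s h1 h2 h4 h5 h6 h7 h8 h9 h10 h11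
    exact hp p q r s a h6 h7 h8 h9 h10 h11 h1.2 h2.2 h4.2 h5.2
  have hc : R c := ⟨nac, hac⟩
  have hdR : R d := ⟨nad, had⟩
  let R1 : V → Prop := fun x => R x ∧ G.Adj x d
  let R2 : V → Prop := fun x => R x ∧ G.Adj x c
  let R0 : V → Prop := fun x => R x ∧ ¬ R1 x ∧ ¬ R2 x
  have hc1 : R1 c := ⟨hc, hcd⟩
  have hd2 : R2 d := ⟨hdR, hcd.symm⟩
  have R12 : ∀ r s, R1 r → R2 s → G.Adj r s := by
    intro r s hr hs
    by_contra hn
    exact hPR r d c s hr.1 hdR hc hs.1 hr.2 hcd.symm hs.2.symm (fun h => h3 r d c hr.2 hcd.symm h)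
      hn (fun h => h3 d c s hcd.symm hs.2.symm h)
  have R11 : ∀ r r', R1 r → R1 r' → ¬ G.Adj r r' := fun r r' hr hr' h =>
    h3 r r' d h hr'.2 hr.2
  have R22 : ∀ r r', R2 r → R2 r' → ¬ G.Adj r r' := fun r r' hr hr' h =>
    h3 r r' c h hr'.2 hr.2
  have R01 : ∀ u r, R0 u → R1 r → ¬ G.Adj u r := by
    intro u r hu hr hur
    exact hPR u r d c hu.1 hr.1 hdR hc hur hr.2 hcd.symm (fun h => hu.2.1 ⟨hu.1, h⟩)
      (fun h => hu.2.2 ⟨hu.1, h⟩) (fun h => h3 r d c hr.2 hcd.symm h)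
  have R02 : ∀ u r, R0 u → R2 r → ¬ G.Adj u r := by
    intro u r hu hr hur
    exact hPR u r c d hu.1 hr.1 hc hdR hur hr.2 hcd (fun h => hu.2.2 ⟨hu.1, h⟩)
      (fun h => hu.2.1 ⟨hu.1, h⟩) (fun h => h3 r c d hr.2 hcd h)
  have R0b : ∀ u, R0 u → G.Adj u b := by
    intro u hu
    by_contra hn
    exact hp a b c d u hab hbc hcd hac had hbd (fun h => hu.1.2 h.symm) hn
      (fun h => hu.2.2 ⟨hu.1, h⟩) (fun h => hu.2.1 ⟨hu.1, h⟩)
  have R00 : ∀ u r, R0 u → R0 r → ¬ G.Adj u r := fun u r hu hr h => h3 u r b h (R0b r hr) (R0b u hu)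
  let Y1 : V → Prop := fun y => G.Adj a y ∧ ∃ r, R1 r ∧ G.Adj y r
  let Y2 : V → Prop := fun y => G.Adj a y ∧ ∃ r, R2 r ∧ G.Adj y r
  let Y0 : V → Prop := fun y => G.Adj a y ∧ ¬ Y1 y ∧ ¬ Y2 y
  have YY : ∀ y y', G.Adj a y → G.Adj a y' → ¬ G.Adj y y' := fun y y' h1 h2 h => h3 a y y' h1 h h2
  have Y1R2 : ∀ y s, Y1 y → R2 s → ¬ G.Adj y s := by
    rintro y s ⟨-, r, hr, hyr⟩ hs h
    exact h3 y r s hyr (R12 r s hr hs) h
  have Y2R1 : ∀ y r, Y2 y → R1 r → ¬ G.Adj y r := by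
    rintro y r ⟨-, s, hs, hys⟩ hr h
    exact h3 y r s h (R12 r s hr hs) hys
  have Y1R0 : ∀ y u, Y1 y → R0 u → G.Adj y u := by
    intro y u hy hu
    obtain ⟨hay, r, hr, hyr⟩ := id hy
    by_contra hn
    exact hp a y r d u hay hyr hr.2 hr.1.2 had (Y1R2 y d hy hd2) (fun h => hu.1.2 h.symm)
      (fun h => hn h.symm) (R01 u r hu hr) (R02 u d hu hd2)
  have Y2R0 : ∀ y u, Y2 y → R0 u → G.Adj y u := by
    intro y u hy hu
    obtain ⟨hay, r, hr, hyr⟩ := id hy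
    by_contra hn
    exact hp a y r c u hay hyr hr.2 hr.1.2 hac (Y2R1 y c hy hc1) (fun h => hu.1.2 h.symm)
      (fun h => hn h.symm) (R02 u r hu hr) (R01 u c hu hc1)
  have Rtot : ∀ x, x = a ∨ G.Adj a x ∨ R1 x ∨ R2 x ∨ R0 x := by
    intro x
    by_cases h1 : x = a
    · exact Or.inl h1
    by_cases h2 : G.Adj a x
    · exact Or.inr (Or.inl h2)
    by_cases h4 : R1 x
    · exact Or.inr (Or.inr (Or.inl h4))
    by_cases h5 : R2 x
    · exact Or.inr (Or.inr (Or.inr (Or.inl h5)))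
    exact Or.inr (Or.inr (Or.inr (Or.inr ⟨⟨h1, h2⟩, h4, h5⟩)))
  by_cases hY0 : ∃ y, Y0 y
  · left
    obtain ⟨y0, hy0⟩ := hY0
    have Y0R1 : ∀ y r, Y0 y → R1 r → ¬ G.Adj y r := fun y r hy hr h => hy.2.1 ⟨hy.1, r, hr, h⟩
    have Y0R2 : ∀ y r, Y0 y → R2 r → ¬ G.Adj y r := fun y r hy hr h => hy.2.2 ⟨hy.1, r, hr, h⟩
    have Y1R1 : ∀ y r, Y1 y → R1 r → G.Adj y r := by
      intro y r hy hr
      by_contra hn
      obtain ⟨hay, r', hr', hyr'⟩ := id hy
      exact hp r d r' y y0 hr.2 hr'.2.symm hyr'.symm (R11 r r' hr hr') (fun h => hn h.symm)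
        (fun h => Y1R2 y d hy hd2 h.symm) (Y0R1 y0 r hy0 hr) (Y0R2 y0 d hy0 hd2)
        (Y0R1 y0 r' hy0 hr') (YY y0 y hy0.1 hay)
    have Y2R2 : ∀ y r, Y2 y → R2 r → G.Adj y r := by
      intro y r hy hr
      by_contra hn
      obtain ⟨hay, r', hr', hyr'⟩ := id hy
      exact hp r c r' y y0 hr.2 hr'.2.symm hyr'.symm (R22 r r' hr hr') (fun h => hn h.symm)
        (fun h => Y2R1 y c hy hc1 h.symm) (Y0R2 y0 r hy0 hr) (Y0R1 y0 c hy0 hc1)
        (Y0R2 y0 r' hy0 hr') (YY y0 y hy0.1 hay)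
    have hcB : ∀ x, (Y0 x ∨ R0 x) → ¬ G.Adj c x := by
      rintro x (h | h) hcx
      · exact Y0R1 x c h hc1 hcx.symm
      · exact R01 x c h hc1 hcx.symm
    refine mix_of (![fun x => x = a, Y1, Y2, R1, R2, Y0, R0] : Fin 7 → V → Prop) ?_
      {x | Y0 x ∨ R0 x} ?_ ?_
    · intro x
      rcases Rtot x with h | h | h | h | h
      · exact ⟨0, h⟩
      · by_cases h1 : Y1 x
        · exact ⟨1, h1⟩
        · by_cases h2 : Y2 x
          · exact ⟨2, h2⟩
          · exact ⟨5, ⟨h, h1, h2⟩⟩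
      · exact ⟨3, h⟩
      · exact ⟨4, h⟩
      · exact ⟨6, h⟩
    · refine ⟨?_, ?_⟩
      · intro a b x y h1 h2 h3 h4 h6 hxy
        exact hd _ _ _ _ h1 h2 h3 h4 h6 (fun h => hxy (Subtype.ext h))
      · rintro ⟨p, hp'⟩ ⟨q, hq⟩ ⟨r, hr⟩ ⟨s, hs⟩ h1 h2 h4 h5 h6 h7
        exact hp p q r s c h1 h2 h4 h5 h6 h7 (hcB p hp') (hcB q hq) (hcB r hr) (hcB s hs)
    · intro i j hij
      have A01 : ∀ u v, u = a → G.Adj a v → G.Adj u v := fun u v h1 h2 => h1 ▸ h2
      have A0R : ∀ u v, u = a → R v → ¬ G.Adj u v := fun u v h1 h2 => h1 ▸ h2.2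
      fin_cases i <;> fin_cases j
      all_goals first | (exfalso; revert hij; decide) | skip
      · exact Or.inr fun u v h1 h2 _ h => absurd (Eq.trans h1 (Eq.symm h2)) h
      · exact Or.inl fun u v h1 h2 _ _ => A01 u v h1 h2.1
      · exact Or.inl fun u v h1 h2 _ _ => A01 u v h1 h2.1
      · exact Or.inr fun u v h1 h2 _ _ => A0R u v h1 h2.1
      · exact Or.inr fun u v h1 h2 _ _ => A0R u v h1 h2.1
      · exact Or.inl fun u v h1 h2 _ _ => A01 u v h1 h2.1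
      · exact Or.inr fun u v h1 h2 _ _ => A0R u v h1 h2.1
      -- Y1
      · exact Or.inr fun u v h1 h2 _ _ => YY u v h1.1 h2.1
      · exact Or.inr fun u v h1 h2 _ _ => YY u v h1.1 h2.1
      · exact Or.inl fun u v h1 h2 _ _ => Y1R1 u v h1 h2
      · exact Or.inr fun u v h1 h2 _ _ => Y1R2 u v h1 h2
      · exact Or.inr fun u v h1 h2 _ _ => YY u v h1.1 h2.1
      · exact Or.inl fun u v h1 h2 _ _ => Y1R0 u v h1 h2
      -- Y2
      · exact Or.inr fun u v h1 h2 _ _ => YY u v h1.1 h2.1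
      · exact Or.inr fun u v h1 h2 _ _ => Y2R1 u v h1 h2
      · exact Or.inl fun u v h1 h2 _ _ => Y2R2 u v h1 h2
      · exact Or.inr fun u v h1 h2 _ _ => YY u v h1.1 h2.1
      · exact Or.inl fun u v h1 h2 _ _ => Y2R0 u v h1 h2
      -- R1
      · exact Or.inr fun u v h1 h2 _ _ => R11 u v h1 h2
      · exact Or.inl fun u v h1 h2 _ _ => R12 u v h1 h2
      · exact Or.inr fun u v h1 h2 _ _ h => Y0R1 v u h2 h1 h.symm
      · exact Or.inr fun u v h1 h2 _ _ h => R01 v u h2 h1 h.symm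
      -- R2
      · exact Or.inr fun u v h1 h2 _ _ => R22 u v h1 h2
      · exact Or.inr fun u v h1 h2 _ _ h => Y0R2 v u h2 h1 h.symm
      · exact Or.inr fun u v h1 h2 _ _ h => R02 v u h2 h1 h.symm
      -- inside B
      · exact Or.inl fun u v h1 h2 h _ => absurd ⟨Or.inl h1, Or.inl h2⟩ h
      · exact Or.inl fun u v h1 h2 h _ => absurd ⟨Or.inl h1, Or.inr h2⟩ h
      · exact Or.inl fun u v h1 h2 h _ => absurd ⟨Or.inr h1, Or.inr h2⟩ h
  · right
    push Not at hY0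
    have hY : ∀ y, G.Adj a y → Y1 y ∨ Y2 y := by
      intro y hy
      by_contra hcon
      push Not at hcon
      exact hY0 y ⟨hy, hcon.1, hcon.2⟩
    have V0Y : ∀ u y, (u = a ∨ R0 u) → (Y1 y ∨ Y2 y) → G.Adj u y := by
      rintro u y (rfl | hu) (hy | hy)
      · exact hy.1
      · exact hy.1
      · exact (Y1R0 y u hy hu).symm
      · exact (Y2R0 y u hy hu).symm
    have V0V0 : ∀ u v, (u = a ∨ R0 u) → (v = a ∨ R0 v) → ¬ G.Adj u v := by
      rintro u v (rfl | hu) (rfl | hv)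
      · exact G.loopless.irrefl _
      · exact hv.1.2
      · exact fun h => hu.1.2 h.symm
      · exact R00 u v hu hv
    have V0R : ∀ u v, (u = a ∨ R0 u) → (R1 v ∨ R2 v) → ¬ G.Adj u v := by
      rintro u v (rfl | hu) (hv | hv)
      · exact hv.1.2
      · exact hv.1.2
      · exact R01 u v hu hv
      · exact R02 u v hu hv
    have h21 : ∀ r r' y y', R1 r → R1 r' → Y1 y → Y1 y' → ¬ G.Adj y r → ¬ G.Adj y r' →
        G.Adj y' r' → G.Adj y' r := by
      intro r r' y y' hr hr' hy hy' n1 n2 h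
      by_contra hn
      exact hp r d r' y' y hr.2 hr'.2.symm h.symm (R11 r r' hr hr') (fun h => hn h.symm)
        (fun h => Y1R2 y' d hy' hd2 h.symm) n1 (Y1R2 y d hy hd2) n2 (YY y y' hy.1 hy'.1)
    have h22 : ∀ r r' y y', R2 r → R2 r' → Y2 y → Y2 y' → ¬ G.Adj y r → ¬ G.Adj y r' →
        G.Adj y' r' → G.Adj y' r := by
      intro r r' y y' hr hr' hy hy' n1 n2 h
      by_contra hn
      exact hp r c r' y' y hr.2 hr'.2.symm h.symm (R22 r r' hr hr') (fun h => hn h.symm)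
        (fun h => Y2R1 y' c hy' hc1 h.symm) n1 (Y2R1 y c hy hc1) n2 (YY y y' hy.1 hy'.1)
    by_cases hfull : ∀ y r, Y2 y → R2 r → G.Adj y r
    · refine blockY' (![fun x => x = a ∨ R0 x, Y1, Y2, R1, R2] : Fin 5 → V → Prop) ?_ ?_ h21
      · intro x
        rcases Rtot x with h | h | h | h | h
        · exact ⟨0, Or.inl h⟩
        · rcases hY x h with h1 | h1
          · exact ⟨1, h1⟩
          · exact ⟨2, h1⟩
        · exact ⟨3, h⟩
        · exact ⟨4, h⟩
        · exact ⟨0, Or.inr h⟩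
      · intro i j hij hij'
        fin_cases i <;> fin_cases j
        all_goals first | (exfalso; revert hij; decide) | skip
        · exact Or.inr fun u v h1 h2 _ => V0V0 u v h1 h2
        · exact Or.inl fun u v h1 h2 _ => V0Y u v h1 (Or.inl h2)
        · exact Or.inl fun u v h1 h2 _ => V0Y u v h1 (Or.inr h2)
        · exact Or.inr fun u v h1 h2 _ => V0R u v h1 (Or.inl h2)
        · exact Or.inr fun u v h1 h2 _ => V0R u v h1 (Or.inr h2)
        · exact Or.inr fun u v h1 h2 _ => YY u v h1.1 h2.1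
        · exact Or.inr fun u v h1 h2 _ => YY u v h1.1 h2.1
        · exact absurd ⟨rfl, rfl⟩ hij'
        · exact Or.inr fun u v h1 h2 _ => Y1R2 u v h1 h2
        · exact Or.inr fun u v h1 h2 _ => YY u v h1.1 h2.1
        · exact Or.inr fun u v h1 h2 _ => Y2R1 u v h1 h2
        · exact Or.inl fun u v h1 h2 _ => hfull u v h1 h2
        · exact Or.inr fun u v h1 h2 _ => R11 u v h1 h2
        · exact Or.inl fun u v h1 h2 _ => R12 u v h1 h2
        · exact Or.inr fun u v h1 h2 _ => R22 u v h1 h2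
    · have hfull' : ∀ y r, Y1 y → R1 r → G.Adj y r := by
        push Not at hfull
        obtain ⟨y2, s, hy2, hs, hn2⟩ := hfull
        intro y r hy hr
        by_contra hn
        obtain ⟨hay, r', hr', hyr'⟩ := id hy
        exact hp r s r' y y2 (R12 r s hr hs) (R12 r' s hr' hs).symm hyr'.symm (R11 r r' hr hr')
          (fun h => hn h.symm) (fun h => Y1R2 y s hy hs h.symm) (Y2R1 y2 r hy2 hr) hn2
          (Y2R1 y2 r' hy2 hr') (YY y2 y hy2.1 hay)
      refine blockY' (![fun x => x = a ∨ R0 x, Y2, Y1, R2, R1] : Fin 5 → V → Prop) ?_ ?_ h22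
      · intro x
        rcases Rtot x with h | h | h | h | h
        · exact ⟨0, Or.inl h⟩
        · rcases hY x h with h1 | h1
          · exact ⟨2, h1⟩
          · exact ⟨1, h1⟩
        · exact ⟨4, h⟩
        · exact ⟨3, h⟩
        · exact ⟨0, Or.inr h⟩
      · intro i j hij hij'
        fin_cases i <;> fin_cases j
        all_goals first | (exfalso; revert hij; decide) | skip
        · exact Or.inr fun u v h1 h2 _ => V0V0 u v h1 h2
        · exact Or.inl fun u v h1 h2 _ => V0Y u v h1 (Or.inr h2)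
        · exact Or.inl fun u v h1 h2 _ => V0Y u v h1 (Or.inl h2)
        · exact Or.inr fun u v h1 h2 _ => V0R u v h1 (Or.inr h2)
        · exact Or.inr fun u v h1 h2 _ => V0R u v h1 (Or.inl h2)
        · exact Or.inr fun u v h1 h2 _ => YY u v h1.1 h2.1
        · exact Or.inr fun u v h1 h2 _ => YY u v h1.1 h2.1
        · exact absurd ⟨rfl, rfl⟩ hij'
        · exact Or.inr fun u v h1 h2 _ => Y2R1 u v h1 h2
        · exact Or.inr fun u v h1 h2 _ => YY u v h1.1 h2.1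
        · exact Or.inr fun u v h1 h2 _ => Y1R2 u v h1 h2
        · exact Or.inl fun u v h1 h2 _ => hfull' u v h1 h2
        · exact Or.inr fun u v h1 h2 _ => R22 u v h1 h2
        · exact Or.inl fun u v h1 h2 _ => (R12 v u h2 h1).symm
        · exact Or.inr fun u v h1 h2 _ => R11 u v h1 h2

/-- The class of (diamond, `P₁ + P₄`)-free graphs. -/
def ClassB : GProp := fun V G => DiamondFree V G ∧ NoP14 V G

theorem lwqo_classB : LWqo ClassB := by
  refine ((lwqo_KH Unit).or ((lwqo_del 5 lwqo_cog).or ((lwqo_del 7 lwqo_cog).or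
    ((lwqo_del 4 (lwqo_multi (Option (ZMod 3) × (ZMod 3 → Prop)))).or
    ((lwqo_mix (Fin 7)).or ((lwqo_multi (Fin 5)).or lwqo_cog)))))).mono ?_
  rintro V _ G ⟨hd, hp⟩
  by_cases h5 : NoK5 V G
  · by_cases h3 : TriFree V G
    · by_cases h4 : NoP4 V G
      · exact Or.inr (Or.inr (Or.inr (Or.inr (Or.inr (Or.inr ⟨hd, h4⟩)))))
      · rcases q2_case3 hd hp h3 h4 with h | h
        · exact Or.inr (Or.inr (Or.inr (Or.inr (Or.inl h))))
        · exact Or.inr (Or.inr (Or.inr (Or.inr (Or.inr (Or.inl h)))))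
    · rcases q2_case2 hd hp h5 h3 with h | h
      · exact Or.inr (Or.inr (Or.inl h))
      · exact Or.inr (Or.inr (Or.inr (Or.inl h)))
  · rcases q2_case1 hd hp h5 with h | h
    · exact Or.inl h
    · exact Or.inr (Or.inl h)

end Pool.Agent.Helper34.Wqo
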