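import Pool.Agent.Helper34.Wqo.Acyc

set_option autoImplicit false

namespace Pool.Agent.Helper34.Wqo

open SimpleGraph

/-- Hypotheses on a `3`-coloured graph. -/
structure HypTri {V : Type} (G : SimpleGraph V) (c : V → ZMod 3) : Prop where
  proper : ∀ u v, G.Adj u v → c u ≠ c v
  chain : ∀ a a' b b', c a = c a' → c b = c b' → G.Adj a b → G.Adj a' b' →
    G.Adj a b' ∨ G.Adj a' b
  cover : ∀ y z x x', c y ≠ c z → c x ≠ c y → c x ≠ c z → c x = c x' → ¬ G.Adj y z →
    G.Adj y x → ¬ G.Adj z x → G.Adj y x' ∨ G.Adj z x'
  dia : ∀ x x' y z, c x = c x' → G.Adj y z → G.Adj x y → G.Adj x z → G.Adj x' y → G.Adj x' z →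
    x = x'

/-- The graphs which have a colouring as in `HypTri`. -/
def Tri : GProp := fun V G => ∃ c : V → ZMod 3, HypTri G c

lemma lwqo_tri : LWqo Tri := by
  refine ((lwqo_twins Unit).or lwqo_acyc).word (ZMod 3) ?_
  rintro V _ G ⟨c, h⟩
  by_cases hs : ∃ s : ZMod 3 → V, (∀ i, c (s i) = i) ∧ ∀ i j, ¬ G.Adj (s i) (s j)
  · obtain ⟨s, hc, hs⟩ := hs
    classical
    let E : V → Prop := fun v => ∀ i, i ≠ c v → ¬ G.Adj v (s i)
    have hE : ∀ v, ¬ E v → ∀ i, i ≠ c v → G.Adj v (s i) := by
      intro v hv i hi
      by_contra hn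
      apply hv
      intro j hj hadj
      by_cases hij : i = j
      · subst hij
        exact hn hadj
      · rcases h.cover (s j) (s i) v (s (c v)) (by rw [hc, hc]; exact Ne.symm hij)
          (by rw [hc]; exact hj.symm) (by rw [hc]; exact hi.symm) (by rw [hc]) (hs _ _)
          hadj.symm (fun h => hn h.symm) with h1 | h1
        · exact hs _ _ h1
        · exact hs _ _ h1
    have hEE : ∀ v w, E v → E w → ¬ G.Adj v w := by
      intro v w hv hw hadj
      have hne := h.proper _ _ hadj
      obtain ⟨k, hk1, hk2⟩ := z3_third _ _ hne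
      rcases h.cover w (s k) v (s (c v)) (by rw [hc]; exact hk2.symm) hne
          (by rw [hc]; exact hk1.symm) (by rw [hc]) (hw k hk2)
          hadj.symm (fun h => hv k hk1 h.symm) with h1 | h1
      · exact hw _ hne h1
      · exact hs _ _ h1
    have hEN : ∀ v w, E v → ¬ E w → c v ≠ c w → G.Adj v w := by
      intro v w hv hw hne
      by_contra hadj
      obtain ⟨k, hk1, hk2⟩ := z3_third _ _ hne
      rcases h.cover (s k) v w (s (c w)) (by rw [hc]; exact hk1) (by rw [hc]; exact hk2.symm)
          hne.symm (by rw [hc]) (fun h => hv k hk1 h.symm) (hE w hw k hk2).symm hadj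
        with h1 | h1
      · exact hs _ _ h1
      · exact hv _ hne.symm h1
    refine ⟨fun i j => i ≠ j, c, fun v => if E v then 0 else 1, ?_, ?_⟩
    · intro u v huv
      have hu : E u := by
        by_contra hu
        simp only [if_neg hu] at huv
        split_ifs at huv
        · omega
        · omega
      have hv : ¬ E v := by
        intro hv
        simp only [if_pos hu, if_pos hv] at huv
        omega
      exact ⟨fun h' => h.proper _ _ h', hEN u v hu hv⟩
    · rintro i ⟨w, hw⟩
      by_cases hi : i = 0
      · subst hi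
        left
        refine ⟨fun _ => (), fun _ _ => False, ?_⟩
        rintro ⟨u, hu⟩ ⟨v, hv⟩ -
        have hu' : E u := by
          by_contra h'
          simp [h'] at hu
        have hv' : E v := by
          by_contra h'
          simp [h'] at hv
        simp only [comap_adj, iff_false]
        exact hEE u v hu' hv'
      · right
        have key : ∀ v, (if E v then 0 else 1) = i → ¬ E v := by
          intro v hv hEv
          rw [if_pos hEv] at hv
          exact hi hv.symm
        refine ⟨fun v => c v.1, ?_, ?_, ?_, ?_⟩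
        · intro u v huv
          exact h.proper _ _ huv
        · intro a a' b b' h1 h2 h3 h4
          exact h.chain _ _ _ _ h1 h2 h3 h4
        · rintro ⟨u, hu⟩ ⟨v, hv⟩ ⟨w, hw⟩ h1 h2 h3
          simp only [comap_adj] at h1 h2 h3 ⊢
          by_contra hcon
          push Not at hcon
          obtain ⟨c1, c2, c3⟩ := hcon
          have hu' := key u hu
          have hv' := key v hv
          rcases h.chain u (s (c u)) (s (c v)) v (by rw [hc]) (by rw [hc])
            (hE u hu' _ h1.symm) (hE v hv' _ h1).symm with h4 | h4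
          · exact c1 h4
          · exact hs _ _ h4
        · intro x x' y z h1 h2 h3 h4 h5 h6
          exact Subtype.ext (h.dia _ _ _ _ h1 h2 h3 h4 h5 h6)
  · refine ⟨fun i j => i ≠ j, c, fun v => 0, fun u v huv => absurd huv (lt_irrefl _), ?_⟩
    rintro i -
    right
    refine ⟨fun v => c v.1, ?_, ?_, ?_, ?_⟩
    · intro u v huv
      exact h.proper _ _ huv
    · intro a a' b b' h1 h2 h3 h4
      exact h.chain _ _ _ _ h1 h2 h3 h4
    · rintro ⟨u, hu⟩ ⟨v, hv⟩ ⟨w, hw⟩ h1 h2 h3
      simp only [comap_adj] at h1 h2 h3 ⊢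
      by_contra hcon
      push Not at hcon
      obtain ⟨c1, c2, c3⟩ := hcon
      apply hs
      have all : ∀ i, i = c u ∨ i = c v ∨ i = c w := by
        have : ∀ x y z : ZMod 3, x ≠ y → y ≠ z → x ≠ z → ∀ i, i = x ∨ i = y ∨ i = z := by decide
        exact this _ _ _ h1 h2 h3
      obtain ⟨t, tx, ty, tz⟩ : ∃ t : ZMod 3 → V, t (c u) = u ∧ t (c v) = v ∧ t (c w) = w :=
        ⟨fun i => if i = c u then u else if i = c v then v else w, by simp, by simp [h1.symm],
          by simp [h3.symm, h2.symm]⟩
      refine ⟨t, ?_, ?_⟩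
      · intro i
        rcases all i with rfl | rfl | rfl
        · rw [tx]
        · rw [ty]
        · rw [tz]
      · intro i j
        rcases all i with rfl | rfl | rfl <;> rcases all j with rfl | rfl | rfl <;>
          simp only [tx, ty, tz]
        · exact G.loopless.irrefl _
        · exact c1
        · exact c3
        · exact fun h => c1 h.symm
        · exact G.loopless.irrefl _
        · exact c2
        · exact fun h => c3 h.symm
        · exact fun h => c2 h.symm
        · exact G.loopless.irrefl _
    · intro x x' y z h1 h2 h3 h4 h5 h6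
      exact Subtype.ext (h.dia _ _ _ _ h1 h2 h3 h4 h5 h6)

end Pool.Agent.Helper34.Wqo
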