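import Pool.Agent.Helper34.Wqo.Basic

set_option autoImplicit false

namespace Pool.Agent.Helper34.Wqo

open SimpleGraph

/-- The adjacency of distinct vertices depends only on their types (from the set `T`). -/
def Twins (T : Type) : GProp := fun V G =>
  ∃ (τ : V → T) (M : T → T → Prop), ∀ u v, u ≠ v → (G.Adj u v ↔ M (τ u) (τ v))

lemma lwqo_twins (T : Type) [Finite T] : LWqo (Twins T) := by
  refine lwqo_single.word T ?_
  rintro V _ G ⟨τ, M, h⟩
  obtain ⟨e, he⟩ := exists_injective_nat V
  refine ⟨M, τ, e, fun u v huv => h u v ?_, ?_⟩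
  · rintro rfl
    exact lt_irrefl _ huv
  · rintro i - ⟨u, hu⟩ ⟨v, hv⟩
    exact Subtype.ext (he (hu.trans hv.symm))

lemma On.congr (P : GProp) {V : Type} (G : SimpleGraph V) {p q : V → Prop} (h : ∀ v, p v ↔ q v)
    (hp : P {v // p v} (G.comap Subtype.val)) : P {v // q v} (G.comap Subtype.val) := by
  have : p = q := funext fun v => propext (h v)
  subst this
  exact hp

/-- `P` holds after the deletion of at most `n` vertices. -/
def Del (n : ℕ) (P : GProp) : GProp := fun V G =>
  ∃ S : Set V, S.ncard ≤ n ∧ P {v // v ∉ S} (G.comap Subtype.val)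

lemma lwqo_del (n : ℕ) {P : GProp} (hP : LWqo P) : LWqo (Del n P) := by
  refine (lwqo_single.or hP).word ((Fin n → Prop) × Option (Fin n)) ?_
  rintro V _ G ⟨S, hS, h⟩
  classical
  obtain ⟨e, he⟩ : ∃ e : S → Fin n, Function.Injective e := by
    have : Nonempty (S ↪ Fin n) := by
      have hf := Fintype.ofFinite S
      rw [Function.Embedding.nonempty_iff_card_le]
      rw [Fintype.card_fin, ← Nat.card_eq_fintype_card]
      exact hS
    exact ⟨this.some, this.some.injective⟩
  obtain ⟨pos, hpos, hpos'⟩ : ∃ pos : V → ℕ, (∀ v (hv : v ∈ S), pos v = (e ⟨v, hv⟩).1) ∧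
      ∀ v, v ∉ S → pos v = n :=
    ⟨fun v => if hv : v ∈ S then (e ⟨v, hv⟩).1 else n, fun v hv => dif_pos hv,
      fun v hv => dif_neg hv⟩
  have hlt : ∀ v, v ∈ S → pos v < n := fun v hv => by
    rw [hpos v hv]
    exact (e ⟨v, hv⟩).2
  refine ⟨fun a b => ∃ i, a.2 = some i ∧ b.1 i,
    fun v => (fun i => ∃ s : S, e s = i ∧ G.Adj s v, if hv : v ∈ S then some (e ⟨v, hv⟩) else none),
    pos, ?_, ?_⟩
  · intro u v huv
    have hu : u ∈ S := by
      by_contra hu
      rw [hpos' u hu] at huv
      by_cases hv : v ∈ S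
      · exact absurd huv (hlt v hv).le.not_gt
      · rw [hpos' v hv] at huv
        exact lt_irrefl _ huv
    simp only [dif_pos hu]
    constructor
    · intro h
      exact ⟨_, rfl, ⟨u, hu⟩, rfl, h⟩
    · rintro ⟨i, h1, s, h2, h3⟩
      have h4 : e ⟨u, hu⟩ = e s := by
        rw [h2]
        exact Option.some_injective _ h1
      rw [← he h4] at h3
      exact h3
  · rintro i ⟨w, hw⟩
    by_cases hwS : w ∈ S
    · have hi : i < n := hw ▸ hlt w hwS
      left
      rintro ⟨u, hu⟩ ⟨v, hv⟩
      have key : ∀ w, pos w = i → w ∈ S := by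
        intro w hw
        by_contra h
        rw [hpos' w h] at hw
        omega
      have hu' := key u hu
      have hv' := key v hv
      apply Subtype.ext
      have := hu.trans hv.symm
      rw [hpos u hu', hpos v hv'] at this
      have h2 := he (Fin.ext this)
      have h3 : u = v := congrArg Subtype.val h2
      exact h3
    · right
      have hi : i = n := by rw [← hw, hpos' w hwS]
      subst hi
      refine On.congr P G ?_ h
      intro v
      constructor
      · exact hpos' v
      · intro h1 h2
        exact absurd h1 (hlt v h2).ne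

end Pool.Agent.Helper34.Wqo
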